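import Pool.Agent.SelfMinor.Compact

/-!
# Connected sets, components, outer neighbours, bounded connectors
-/

namespace SelfMinorPk

open Relation SelfMinor

universe u

variable {V : Type u} {r r' : V → V → Prop} {C D L X Y Z : Set V}

/-- the component of `a` in `C` -/
def cc (r : V → V → Prop) (C : Set V) (a : V) : Set V :=
  {b | ReflTransGen (fun x y => r x y ∧ x ∈ C ∧ y ∈ C) a b}

/-- the outer neighbours of `L` -/
def Nb (r : V → V → Prop) (L : Set V) : Set V := {v | v ∉ L ∧ ∃ u ∈ L, r u v}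

/-- any two vertices of a connected subset of `D` lie in a connected subset of it with at most
`k` elements -/
def DP (r : V → V → Prop) (k : ℕ) (D : Set V) : Prop :=
  ∀ C ⊆ D, Con r C → ∀ a ∈ C, ∀ b ∈ C,
    ∃ W ⊆ C, Con r W ∧ a ∈ W ∧ b ∈ W ∧ W.Finite ∧ W.ncard ≤ k

lemma DP.mono {k : ℕ} (h : DP r k D) (hC : C ⊆ D) : DP r k C :=
  fun E hE => h E (hE.trans hC)

lemma mem_cc (C : Set V) (a : V) : a ∈ cc r C a := ReflTransGen.refl

lemma cc_subset {a : V} (ha : a ∈ C) : cc r C a ⊆ C := by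
  intro b hb
  exact rtg_closed (Z := C) (fun _ _ _ h => h.2.2) ha hb

lemma cc_closed {a u v : V} (hu : u ∈ cc r C a) (hu' : u ∈ C) (hv : v ∈ C) (h : r u v) :
    v ∈ cc r C a :=
  ReflTransGen.tail hu ⟨h, hu', hv⟩

lemma con_cc (hr : ∀ u v, r u v → r v u) (a : V) : Con r (cc r C a) := by
  have key : ∀ u ∈ cc r C a, ReflTransGen
      (fun x y => r x y ∧ x ∈ cc r C a ∧ y ∈ cc r C a) a u := by
    intro u hu
    have hu2 : ReflTransGen (fun x y => r x y ∧ x ∈ C ∧ y ∈ C) a u := hu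
    induction hu2 with
    | refl => exact .refl
    | @tail b c h1 h2 ih => exact (ih h1).tail ⟨h2.1, h1, ReflTransGen.tail h1 h2⟩
  intro u hu v hv
  exact (rtg_symm (fun _ _ h => ⟨hr _ _ h.1, h.2.2, h.2.1⟩) (key u hu)).trans (key v hv)

lemma cc_eq {a : V} (hXY : X ⊆ Y) (ha : a ∈ X) (hX : Con r X)
    (hcl : ∀ u ∈ X, ∀ v ∈ Y, r u v → v ∈ X) : cc r Y a = X := by
  apply Set.Subset.antisymm
  · intro b hb
    exact rtg_closed (Z := X) (fun u hu v h => hcl u hu v h.2.2 h.1) ha hb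
  · intro b hb
    exact rtg_mono (fun _ _ h => ⟨h.1, hXY h.2.1, hXY h.2.2⟩) (hX a ha b hb)

lemma cc_eq_of_mem (hr : ∀ u v, r u v → r v u) {a b : V} (ha : a ∈ C) (hb : b ∈ cc r C a) :
    cc r C b = cc r C a :=
  cc_eq (cc_subset ha) hb (con_cc hr a) fun _ hu _ hv h => cc_closed hu (cc_subset ha hu) hv h

lemma con_subset_cc {a : V} (hX : Con r X) (hXC : X ⊆ C) (ha : a ∈ X) : X ⊆ cc r C a :=
  fun b hb => rtg_mono (fun _ _ h => ⟨h.1, hXC h.2.1, hXC h.2.2⟩) (hX a ha b hb)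

/-- a connected set that meets `Z` and its complement has an edge from `Z` to the complement -/
lemma exists_cross {a b : V} (hC : Con r C) (ha : a ∈ C) (haZ : a ∈ Z) (hb : b ∈ C)
    (hbZ : b ∉ Z) : ∃ u ∈ C, u ∈ Z ∧ ∃ v ∈ C, v ∉ Z ∧ r u v := by
  by_contra hcon
  push Not at hcon
  refine hbZ (rtg_closed (Z := {x | x ∈ C ∧ x ∈ Z}) (fun u hu v h => ?_) ⟨ha, haZ⟩
    (hC a ha b hb)).2
  refine ⟨h.2.2, ?_⟩
  by_contra hv
  exact hcon u hu.1 hu.2 v h.2.2 hv h.1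

/-- a connected set which meets `L` but not its outer neighbours is inside `L` -/
lemma con_sub_of_nb (hC : Con r C) {a : V} (ha : a ∈ C) (haL : a ∈ L)
    (hN : ∀ v ∈ C, v ∉ Nb r L) : C ⊆ L := by
  intro b hb
  by_contra hbL
  obtain ⟨u, hu, huL, v, hv, hvL, huv⟩ := exists_cross hC ha haL hb hbL
  exact hN v hv ⟨hvL, u, huL, huv⟩

lemma con_of_star {a : V}
    (h : ∀ u ∈ C, ∃ W ⊆ C, Con r W ∧ a ∈ W ∧ u ∈ W) : Con r C := by
  intro u hu v hv
  obtain ⟨W, hW, hWc, haW, huW⟩ := h u hu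
  obtain ⟨W', hW', hWc', haW', hvW'⟩ := h v hv
  exact (rtg_mono (fun _ _ h => ⟨h.1, hW h.2.1, hW h.2.2⟩) (hWc u huW a haW)).trans
    (rtg_mono (fun _ _ h => ⟨h.1, hW' h.2.1, hW' h.2.2⟩) (hWc' a haW' v hvW'))

/-- unions of connected sets along a connected set -/
lemma con_biUnion {W : Type*} {A : Set V} (hA : Con r A) {q : W → W → Prop} {θ : V → Set W}
    (hθ : ∀ v ∈ A, Con q (θ v))
    (hq : ∀ u ∈ A, ∀ v ∈ A, r u v → u ≠ v → ∃ a ∈ θ u, ∃ b ∈ θ v, q a b) :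
    Con q (⋃ v ∈ A, θ v) := by
  intro x hx y hy
  rw [Set.mem_iUnion₂] at hx hy
  obtain ⟨u, hu, hxu⟩ := hx
  obtain ⟨v, hv, hyv⟩ := hy
  set R : W → W → Prop := fun x y => q x y ∧ x ∈ (⋃ v ∈ A, θ v) ∧ y ∈ (⋃ v ∈ A, θ v) with hR
  have hin : ∀ w ∈ A, ∀ z ∈ θ w, z ∈ (⋃ v ∈ A, θ v) := fun w hw z hz =>
    Set.mem_iUnion₂.2 ⟨w, hw, hz⟩
  have hloc : ∀ w ∈ A, ∀ z ∈ θ w, ∀ z' ∈ θ w, ReflTransGen R z z' := fun w hw z hz z' hz' =>
    rtg_mono (fun _ _ h => ⟨h.1, hin w hw _ h.2.1, hin w hw _ h.2.2⟩) (hθ w hw z hz z' hz')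
  have key : ∀ w, ReflTransGen (fun x y => r x y ∧ x ∈ A ∧ y ∈ A) u w → w ∈ A →
      ∃ z ∈ θ w, ReflTransGen R x z := by
    intro w hw
    induction hw with
    | refl => exact fun _ => ⟨x, hxu, .refl⟩
    | @tail b c h1 h2 ih =>
      intro _
      obtain ⟨z, hz, hxz⟩ := ih h2.2.1
      by_cases hbc : b = c
      · subst hbc
        exact ⟨z, hz, hxz⟩
      · obtain ⟨a', ha', b', hb', hab⟩ := hq b h2.2.1 c h2.2.2 h2.1 hbc
        exact ⟨b', hb', (hxz.trans (hloc b h2.2.1 z hz a' ha')).tail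
          ⟨hab, hin b h2.2.1 _ ha', hin c h2.2.2 _ hb'⟩⟩
  obtain ⟨z, hz, hxz⟩ := key v (hA u hu v hv) hv
  exact hxz.trans (hloc v hv z hz y hyv)

/-- connectedness only depends on the relation inside the set, up to equalities -/
lemma Con.congr (h : ∀ u ∈ C, ∀ v ∈ C, r u v → u ≠ v → r' u v) (hC : Con r C) : Con r' C := by
  intro u hu v hv
  have := hC u hu v hv
  clear hv
  induction this with
  | refl => exact .refl
  | @tail b c h1 h2 ih =>
    by_cases hbc : b = c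
    · exact hbc ▸ ih
    · exact ih.tail ⟨h b h2.2.1 c h2.2.2 h2.1 hbc, h2.2⟩

lemma Nb_disjoint (r : V → V → Prop) (L : Set V) : ∀ v ∈ Nb r L, v ∉ L := fun _ h => h.1

lemma con_insert (hr : ∀ u v, r u v → r v u) (hC : Con r C) {u v : V} (hu : u ∈ C)
    (h : r u v) : Con r (insert v C) := by
  have := con_union hr hC (con_singleton r v) hu rfl (Or.inr h)
  rwa [Set.union_comm, Set.singleton_union] at this

/-- cut a connected set at the first element of `Z` -/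
lemma exists_first (hr : ∀ u v, r u v → r v u) (hC : Con r C) {x z : V} (hx : x ∈ C)
    (hz : z ∈ C) (hzZ : z ∈ Z) :
    ∃ E ⊆ C, ∃ w, Con r E ∧ x ∈ E ∧ w ∈ E ∧ w ∈ Z ∧ ∀ v ∈ E, v ∈ Z → v = w := by
  by_cases hxZ : x ∈ Z
  · refine ⟨{x}, Set.singleton_subset_iff.2 hx, x, con_singleton r x, rfl, rfl, hxZ, ?_⟩
    intro v hv _
    exact hv
  · have hK : cc r (C \ Z) x ⊆ C \ Z := cc_subset ⟨hx, hxZ⟩
    obtain ⟨u, hu, huK, w, hw, hwK, huw⟩ := exists_cross (Z := cc r (C \ Z) x) hC hx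
      (mem_cc _ _) hz (fun h => (hK h).2 hzZ)
    have hwZ : w ∈ Z := by
      by_contra hwZ
      exact hwK (cc_closed huK (hK huK) ⟨hw, hwZ⟩ huw)
    refine ⟨insert w (cc r (C \ Z) x), ?_, w, con_insert hr (con_cc hr x) huK huw,
      Set.mem_insert_of_mem _ (mem_cc _ _), Set.mem_insert _ _, hwZ, ?_⟩
    · intro v hv
      rcases hv with rfl | hv
      · exact hw
      · exact (hK hv).1
    · intro v hv hvZ
      rcases hv with rfl | hv
      · rfl
      · exact absurd hvZ (hK hv).2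

end SelfMinorPk
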