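import Pool.Agent.SelfMinorPk.Rooted

/-!
# Contracting an edge
-/

namespace SelfMinorPk

open Relation SelfMinor

universe u

variable {V : Type u} {r r' : V → V → Prop} {C D F L S X Y Z W : Set V} {u v : V}

/-- contraction of `v` to `u` -/
def ctr (r : V → V → Prop) (u v a b : V) : Prop :=
  a ≠ v ∧ b ≠ v ∧ (r a b ∨ (a = u ∧ r v b) ∨ (b = u ∧ r a v))

lemma ctr_symm (hr : ∀ u v, r u v → r v u) : ∀ c d, ctr r u v c d → ctr r u v d c := by
  intro a b h
  obtain ⟨h1, h2, h3⟩ := h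
  refine ⟨h2, h1, ?_⟩
  rcases h3 with h3 | ⟨h3, h4⟩ | ⟨h3, h4⟩
  · exact Or.inl (hr _ _ h3)
  · exact Or.inr (Or.inr ⟨h3, hr _ _ h4⟩)
  · exact Or.inr (Or.inl ⟨h3, hr _ _ h4⟩)

lemma con_ctr_of_notMem (hX : Con r X) (hv : v ∉ X) : Con (ctr r u v) X :=
  Con.congr (fun a ha b hb h _ => ⟨fun h' => hv (h' ▸ ha), fun h' => hv (h' ▸ hb), Or.inl h⟩) hX

lemma con_ctr_of_mem (hr : ∀ u v, r u v → r v u) (huv : r u v) (hne : u ≠ v)
    (hX : Con r X) (hu : u ∈ X) : Con (ctr r u v) (X \ {v}) := by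
  have key : ∀ a, ReflTransGen (fun x y => r x y ∧ x ∈ X ∧ y ∈ X) u a →
      (a ≠ v → ReflTransGen (fun x y => ctr r u v x y ∧ x ∈ X \ {v} ∧ y ∈ X \ {v}) u a) := by
    have key2 : ∀ a, ReflTransGen (fun x y => r x y ∧ x ∈ X ∧ y ∈ X) u a →
      (a ∈ X ∧ (a = v ∨ ReflTransGen
        (fun x y => ctr r u v x y ∧ x ∈ X \ {v} ∧ y ∈ X \ {v}) u a)) := by
      intro a ha
      induction ha with
      | refl => exact ⟨hu, Or.inr .refl⟩
      | @tail b c h1 h2 ih =>
        refine ⟨h2.2.2, ?_⟩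
        by_cases hcv : c = v
        · exact Or.inl hcv
        · right
          rcases ih.2 with hbv | hb
          · subst hbv
            exact .single ⟨⟨hne, hcv, Or.inr (Or.inl ⟨rfl, h2.1⟩)⟩, ⟨hu, hne⟩, ⟨h2.2.2, hcv⟩⟩
          · by_cases hbv : b = v
            · subst hbv
              exact .single ⟨⟨hne, hcv, Or.inr (Or.inl ⟨rfl, h2.1⟩)⟩, ⟨hu, hne⟩, ⟨h2.2.2, hcv⟩⟩
            · exact hb.tail ⟨⟨hbv, hcv, Or.inl h2.1⟩, ⟨h2.2.1, hbv⟩, ⟨h2.2.2, hcv⟩⟩
    intro a ha hav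
    exact (key2 a ha).2.resolve_left hav
  refine con_of_star (a := u) (fun a ha => ?_)
  exact ⟨cc (ctr r u v) (X \ {v}) u, cc_subset ⟨hu, hne⟩, con_cc (ctr_symm hr) u, mem_cc _ _,
    key a (hX u hu a ha.1) ha.2⟩

lemma con_of_ctr_notMem (hX : Con (ctr r u v) X) (hu : u ∉ X) : Con r X := by
  refine Con.congr (fun a ha b hb h _ => ?_) hX
  rcases h.2.2 with h | h | h
  · exact h
  · exact absurd (h.1 ▸ ha) hu
  · exact absurd (h.1 ▸ hb) hu

lemma con_of_ctr_mem (hr : ∀ u v, r u v → r v u) (huv : r u v)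
    (hX : Con (ctr r u v) X) (hu : u ∈ X) : Con r (insert v X) := by
  have key : ∀ a, ReflTransGen (fun x y => ctr r u v x y ∧ x ∈ X ∧ y ∈ X) u a →
      ReflTransGen (fun x y => r x y ∧ x ∈ insert v X ∧ y ∈ insert v X) u a := by
    intro a ha
    induction ha with
    | refl => exact .refl
    | @tail b c h1 h2 ih =>
      rcases h2.1.2.2 with h | h | h
      · exact ih.tail ⟨h, Or.inr h2.2.1, Or.inr h2.2.2⟩
      · have h3 : ReflTransGen (fun x y => r x y ∧ x ∈ insert v X ∧ y ∈ insert v X) u v :=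
          .single ⟨huv, Or.inr hu, Or.inl rfl⟩
        exact h3.tail ⟨h.2, Or.inl rfl, Or.inr h2.2.2⟩
      · rw [h.1]
  refine con_of_star (a := u) (fun a ha => ?_)
  refine ⟨cc r (insert v X) u, cc_subset (Or.inr hu), con_cc hr u, mem_cc _ _, ?_⟩
  rcases ha with rfl | ha
  · exact .single ⟨huv, Or.inr hu, Or.inl rfl⟩
  · exact key a (hX u hu a ha)

/-- expansion of a set -/
def ex (u v : V) (X : Set V) : Set V := X ∪ {w | w = v ∧ u ∈ X}

lemma subset_ex (u v : V) (X : Set V) : X ⊆ ex u v X := Set.subset_union_left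

lemma ex_of_mem (hu : u ∈ X) : ex u v X = insert v X := by
  ext w
  constructor
  · rintro (h | h)
    · exact Or.inr h
    · exact Or.inl h.1
  · rintro (h | h)
    · exact Or.inr ⟨h, hu⟩
    · exact Or.inl h

lemma ex_of_notMem (hu : u ∉ X) : ex u v X = X := by
  ext w
  constructor
  · rintro (h | h)
    · exact h
    · exact absurd h.2 hu
  · exact fun h => Or.inl h

lemma con_ex (hr : ∀ u v, r u v → r v u) (huv : r u v) (hX : Con (ctr r u v) X) :
    Con r (ex u v X) := by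
  by_cases hu : u ∈ X
  · rw [ex_of_mem hu]
    exact con_of_ctr_mem hr huv hX hu
  · rw [ex_of_notMem hu]
    exact con_of_ctr_notMem hX hu

lemma disjoint_ex (h : Disjoint X Y) (hX : v ∉ X) (hY : v ∉ Y) :
    Disjoint (ex u v X) (ex u v Y) := by
  rw [Set.disjoint_left] at h ⊢
  rintro w (hw | hw) (hw' | hw')
  · exact h hw hw'
  · exact hX (hw'.1 ▸ hw)
  · exact hY (hw.1 ▸ hw')
  · exact h hw.2 hw'.2

lemma adj_ex (h : ∃ a ∈ X, ∃ b ∈ Y, ctr r u v a b) :
    ∃ a ∈ ex u v X, ∃ b ∈ ex u v Y, r a b := by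
  obtain ⟨a, ha, b, hb, h1, h2, h3⟩ := h
  rcases h3 with h3 | ⟨h3, h4⟩ | ⟨h3, h4⟩
  · exact ⟨a, Or.inl ha, b, Or.inl hb, h3⟩
  · exact ⟨v, Or.inr ⟨rfl, h3 ▸ ha⟩, b, Or.inl hb, h4⟩
  · exact ⟨a, Or.inl ha, v, Or.inr ⟨rfl, h3 ▸ hb⟩, h4⟩

lemma Mod.ctr (hr : ∀ u v, r u v → r v u) (huv : r u v) (hne : u ≠ v) {n : ℕ}
    {M : Fin n → Set V} (hM : Mod r n (D ∪ S) M) (hvS : v ∉ S) {j : Fin n} (hu : u ∈ M j)
    (hv : v ∈ M j) : Mod (ctr r u v) n ((D \ {v}) ∪ S) (fun i => M i \ {v}) := by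
  have hvi : ∀ i, i ≠ j → v ∉ M i := fun i hij h =>
    Set.disjoint_left.1 (hM.disj i j hij) h hv
  refine ⟨fun i w hw => ?_, fun i => ?_, fun i => ?_, fun i k hik => ?_, fun i k hik => ?_⟩
  · rcases hM.sub i hw.1 with h | h
    · exact Or.inl ⟨h, hw.2⟩
    · exact Or.inr h
  · by_cases hij : i = j
    · subst hij
      exact ⟨u, hu, hne⟩
    · obtain ⟨a, ha⟩ := hM.ne i
      exact ⟨a, ha, fun h => hvi i hij ((Set.mem_singleton_iff.1 h) ▸ ha)⟩
  · by_cases hij : i = j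
    · subst hij
      exact con_ctr_of_mem hr huv hne (hM.con i) hu
    · rw [Set.sdiff_singleton_eq_self (hvi i hij)]
      exact con_ctr_of_notMem (hM.con i) (hvi i hij)
  · exact (hM.disj i k hik).mono Set.sdiff_subset Set.sdiff_subset
  · obtain ⟨a, ha, b, hb, hab⟩ := hM.adj i k hik
    by_cases hav : a = v
    · subst hav
      have hij : i = j := by
        by_contra h
        exact hvi i h ha
      subst hij
      have hbv : b ≠ a := fun h => hvi k (Ne.symm hik) (h ▸ hb)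
      exact ⟨u, ⟨hu, hne⟩, b, ⟨hb, hbv⟩, hne, hbv, Or.inr (Or.inl ⟨rfl, hab⟩)⟩
    · by_cases hbv : b = v
      · subst hbv
        have hkj : k = j := by
          by_contra h
          exact hvi k h hb
        subst hkj
        exact ⟨a, ⟨ha, hav⟩, u, ⟨hu, hne⟩, hav, hne, Or.inr (Or.inr ⟨rfl, hab⟩)⟩
      · exact ⟨a, ⟨ha, hav⟩, b, ⟨hb, hbv⟩, hav, hbv, Or.inl hab⟩

lemma ctr_hyp (hr : ∀ u v, r u v → r v u) (huv : r u v) (hne : u ≠ v)
    (hfin : (D ∪ S).Finite) (hSD : Disjoint S D)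
    (hW : ∀ u v, r u v → u ∈ D ∪ S ∧ v ∈ D ∪ S) {n : ℕ}
    {M : Fin n → Set V} (hM : Mod r n (D ∪ S) M) (hvS : v ∉ S) {j : Fin n} (hu : u ∈ M j)
    (hv : v ∈ M j)
    (hyp : ∀ L ⊆ D, Con r L → (∃ i, M i ⊆ L) → S.ncard ≤ (Nb r L).ncard)
    (hnot : ∀ L ⊆ D, Con r L → (∃ i, M i ⊆ L) → (Nb r L).ncard = S.ncard →
      L ∪ Nb r L = D ∪ S) :
    ∀ L ⊆ D \ {v}, Con (ctr r u v) L → (∃ i, M i \ {v} ⊆ L) →
      S.ncard ≤ (Nb (ctr r u v) L).ncard := by
  rintro L hL hLc ⟨i, hi⟩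
  have hvD : v ∈ D := (hM.sub j hv).resolve_right hvS
  have hvL : v ∉ L := fun h => (hL h).2 rfl
  have hcfin : (Nb (ctr r u v) L).Finite := by
    refine hfin.subset ?_
    rintro w ⟨-, a, ha, -, -, h⟩
    rcases h with h | h | h
    · exact (hW _ _ h).2
    · exact (hW _ _ h.2).2
    · rw [h.1]
      exact hM.sub j hu
  by_cases huL : u ∈ L
  · have h1 : Con r (insert v L) := con_of_ctr_mem hr huv hLc huL
    have h2 : insert v L ⊆ D := by
      rintro w (rfl | hw)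
      · exact hvD
      · exact (hL hw).1
    have h3 : M i ⊆ insert v L := by
      intro w hw
      by_cases hwv : w = v
      · exact Or.inl hwv
      · exact Or.inr (hi ⟨hw, hwv⟩)
    refine (hyp _ h2 h1 ⟨i, h3⟩).trans (Set.ncard_le_ncard ?_ hcfin)
    rintro w ⟨hw, a, ha, haw⟩
    have hwv : w ≠ v := fun h => hw (Or.inl h)
    have hwL : w ∉ L := fun h => hw (Or.inr h)
    rcases ha with rfl | ha
    · exact ⟨hwL, u, huL, hne, hwv, Or.inr (Or.inl ⟨rfl, haw⟩)⟩
    · exact ⟨hwL, a, ha, fun h => hvL (h ▸ ha), hwv, Or.inl haw⟩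
  · have h1 : Con r L := con_of_ctr_notMem hLc huL
    have hij : i ≠ j := by
      rintro rfl
      exact huL (hi ⟨hu, hne⟩)
    have h3 : M i ⊆ L := by
      intro w hw
      refine hi ⟨hw, fun h => ?_⟩
      exact Set.disjoint_left.1 (hM.disj i j hij) hw ((Set.mem_singleton_iff.1 h) ▸ hv)
    have h2 : L ⊆ D := fun w hw => (hL hw).1
    have h4 := hyp L h2 h1 ⟨i, h3⟩
    have h5 : Nb r L \ {v} ⊆ Nb (ctr r u v) L := by
      rintro w ⟨⟨hw, a, ha, haw⟩, hwv⟩
      exact ⟨hw, a, ha, fun h => hvL (h ▸ ha), hwv, Or.inl haw⟩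
    have h6 := Set.ncard_le_ncard h5 hcfin
    by_cases hvN : v ∈ Nb r L
    · have hNfin : (Nb r L).Finite := by
        refine hfin.subset ?_
        rintro w ⟨-, a, -, h⟩
        exact (hW _ _ h).2
      have h7 := Set.ncard_sdiff_singleton_add_one hvN hNfin
      by_cases h8 : (Nb r L).ncard = S.ncard
      · exfalso
        have h9 := hnot L h2 h1 ⟨i, h3⟩ h8
        have h10 : S ⊆ Nb r L := by
          intro x hx
          have : x ∈ L ∪ Nb r L := by
            rw [h9]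
            exact Or.inr hx
          refine this.resolve_left (fun h => ?_)
          exact Set.disjoint_left.1 hSD hx (h2 h)
        have h11 : S = Nb r L := Set.eq_of_subset_of_ncard_le h10 h8.le hNfin
        exact hvS (h11 ▸ hvN)
      · omega
    · rw [Set.sdiff_singleton_eq_self hvN] at h6
      omega

lemma Univ.of_ctr (hr : ∀ u v, r u v → r v u) (huv : r u v) (hvS : v ∉ S) (hvD : v ∈ D)
    {T : ℕ} (h : Univ (ctr r u v) T S (D \ {v})) : Univ r T S D := by
  obtain ⟨B, N, hB, hBd, hN, hNB⟩ := h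
  have hvB : ∀ x ∈ S, v ∉ B x := by
    intro x hx h
    rcases (hB x hx).2.2 h with h | h
    · exact hvS (h ▸ hx)
    · exact h.2 rfl
  have hvN : ∀ i, v ∉ N i := fun i h => (hN.sub i h).2 rfl
  refine ⟨fun x => ex u v (B x), fun i => ex u v (N i), fun x hx => ?_, fun x hx y hy hxy => ?_,
    ⟨fun i => ?_, fun i => ?_, fun i => ?_, fun i j hij => ?_, fun i j hij => ?_⟩,
    fun i x hx => ⟨?_, ?_⟩⟩
  · refine ⟨Or.inl (hB x hx).1, con_ex hr huv (hB x hx).2.1, ?_⟩
    rintro w (hw | hw)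
    · rcases (hB x hx).2.2 hw with h | h
      · exact Or.inl h
      · exact Or.inr h.1
    · rw [hw.1]
      exact Or.inr hvD
  · exact disjoint_ex (hBd x hx y hy hxy) (hvB x hx) (hvB y hy)
  · rintro w (hw | hw)
    · exact (hN.sub i hw).1
    · rw [hw.1]
      exact hvD
  · exact (hN.ne i).mono (subset_ex _ _ _)
  · exact con_ex hr huv (hN.con i)
  · exact disjoint_ex (hN.disj i j hij) (hvN i) (hvN j)
  · exact adj_ex (hN.adj i j hij)
  · exact disjoint_ex (hNB i x hx).1 (hvN i) (hvB x hx)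
  · exact adj_ex (hNB i x hx).2

lemma base (hr : ∀ u v, r u v → r v u) (hfin : (D ∪ S).Finite)
    (hW : ∀ u v, r u v → u ∈ D ∪ S ∧ v ∈ D ∪ S) {n : ℕ}
    {M : Fin n → Set V} (hM : Mod r n (D ∪ S) M) {T : ℕ} (hn : 2 * S.ncard + T ≤ n)
    (hyp : ∀ L ⊆ D, Con r L → (∃ i, M i ⊆ L) → S.ncard ≤ (Nb r L).ncard)
    (hbase : ∀ j, ∀ u ∈ M j, ∀ v ∈ M j, r u v → u ≠ v → v ∈ S) : Univ r T S D := by
  classical
  have hSfin : S.Finite := hfin.subset Set.subset_union_right
  set J : Finset (Fin n) := Finset.univ.filter (fun j => Disjoint (M j) S) with hJ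
  have hsing : ∀ j, ∃ m, j ∈ J → M j = {m} := by
    intro j
    by_cases hj : j ∈ J
    · have hjd : Disjoint (M j) S := (Finset.mem_filter.1 hj).2
      obtain ⟨m, hm⟩ := hM.ne j
      refine ⟨m, fun _ => ?_⟩
      ext w
      rw [Set.mem_singleton_iff]
      constructor
      · intro hw
        by_contra hne
        obtain ⟨a, ha, haZ, b, hb, hbZ, hab⟩ := exists_cross (Z := {m}) (hM.con j) hm rfl hw hne
        rw [Set.mem_singleton_iff] at haZ hbZ
        subst haZ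
        exact Set.disjoint_left.1 hjd hb (hbase j a ha b hb hab (Ne.symm hbZ))
      · rintro rfl
        exact hm
    · obtain ⟨m, -⟩ := hM.ne j
      exact ⟨m, fun h => absurd h hj⟩
  choose m hm using hsing
  have hJc : Jᶜ.card ≤ S.ncard := by
    have h1 : ∀ j, ∃ x, j ∈ Jᶜ → x ∈ M j ∧ x ∈ S := by
      intro j
      by_cases hj : Disjoint (M j) S
      · obtain ⟨x, -⟩ := hM.ne j
        refine ⟨x, fun h => ?_⟩
        exact absurd (Finset.mem_filter.2 ⟨Finset.mem_univ j, hj⟩) (Finset.mem_compl.1 h)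
      · obtain ⟨x, hx, hxS⟩ := Set.not_disjoint_iff.1 hj
        exact ⟨x, fun _ => ⟨hx, hxS⟩⟩
    choose g hg using h1
    rw [Set.ncard_eq_toFinset_card _ hSfin]
    refine Finset.card_le_card_of_injOn g (fun j hj => ?_) (fun i hi j hj hij => ?_)
    · exact Finset.mem_coe.2 (hSfin.mem_toFinset.2 (hg j hj).2)
    · by_contra hne
      exact Set.disjoint_left.1 (hM.disj i j hne) (hg i hi).1 (hij ▸ (hg j hj).1)
  have hJcard : S.ncard + T ≤ J.card := by
    have := Finset.card_add_card_compl J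
    rw [Fintype.card_fin] at this
    omega
  have hminj : Set.InjOn m (J : Set (Fin n)) := by
    intro i hi j hj hij
    by_contra hne
    have h1 : m i ∈ M i := by rw [hm i hi]; rfl
    have h2 : m i ∈ M j := by rw [hm j hj, hij]; rfl
    exact Set.disjoint_left.1 (hM.disj i j hne) h1 h2
  have hmen : Linked r ((J.image m : Finset V) : Set V) (hSfin.toFinset : Set V)
      hSfin.toFinset.card := by
    refine menger hr _ _ _ (fun X hX => ?_)
    by_contra hlt
    push Not at hlt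
    rw [← Set.ncard_eq_toFinset_card _ hSfin] at hlt
    have h1 : ¬ (J.image m ⊆ X) := by
      intro h
      have := Finset.card_le_card h
      rw [Finset.card_image_of_injOn hminj] at this
      omega
    obtain ⟨z, hz, hzX⟩ := Finset.not_subset.1 h1
    obtain ⟨j, hj, rfl⟩ := Finset.mem_image.1 hz
    have hjd : Disjoint (M j) S := (Finset.mem_filter.1 hj).2
    have hmj : m j ∈ M j := by rw [hm j hj]; rfl
    have hLsub : ∀ v ∈ cc r ((X : Set V)ᶜ) (m j), v ∈ D := by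
      intro v hv
      have h2 : v ∈ D ∪ S :=
        rtg_closed (Z := D ∪ S) (fun a _ b hab => (hW _ _ hab.1).2) (hM.sub j hmj) hv
      refine h2.resolve_right (fun hvS => ?_)
      refine hX (m j) (Finset.mem_coe.2 hz) hzX v ?_ ?_
      · exact Finset.mem_coe.2 (hSfin.mem_toFinset.2 hvS)
      · exact rtg_mono (fun _ _ h => h) hv
    have h3 := hyp (cc r ((X : Set V)ᶜ) (m j)) hLsub (con_cc hr _) ⟨j, by
      rw [hm j hj, Set.singleton_subset_iff]
      exact mem_cc _ _⟩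
    have h4 : Nb r (cc r ((X : Set V)ᶜ) (m j)) ⊆ (X : Set V) := by
      rintro v ⟨hv, a, ha, hav⟩
      by_contra hvX
      exact hv (cc_closed ha (cc_subset (C := (X : Set V)ᶜ) hzX ha) hvX hav)
    have h5 : (Nb r (cc r ((X : Set V)ᶜ) (m j))).ncard ≤ X.card := by
      rw [← Set.ncard_coe_finset X]
      exact Set.ncard_le_ncard h4 X.finite_toSet
    omega
  obtain ⟨c, hc1, hc2⟩ := Linked.index hmen
  have hfirst : ∀ x : S, ∃ (E : Set V) (j : Fin n), E ⊆ c x ∧ Con r E ∧ x.1 ∈ E ∧ j ∈ J ∧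
      m j ∈ E ∧ ∀ v ∈ E, (∃ i ∈ J, m i = v) → v = m j := by
    intro x
    obtain ⟨h1, h2, z, hz1, hz2⟩ := hc1 x (hSfin.mem_toFinset.2 x.2)
    obtain ⟨E, hE, w, hEc, hxE, hwE, hwZ, hu⟩ := exists_first hr h1 h2 hz1 hz2
    obtain ⟨j, hj, rfl⟩ := Finset.mem_image.1 (Finset.mem_coe.1 hwZ)
    refine ⟨E, j, hE, hEc, hxE, hj, hwE, ?_⟩
    rintro v hv ⟨i, hi, rfl⟩
    exact hu _ hv (Finset.mem_coe.2 (Finset.mem_image_of_mem _ hi))
  choose E j hE using hfirst
  have hEd : ∀ x y : S, x ≠ y → Disjoint (E x) (E y) := by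
    intro x y hxy
    exact (hc2 x (hSfin.mem_toFinset.2 x.2) y (hSfin.mem_toFinset.2 y.2)
      (fun h => hxy (Subtype.ext h))).mono (hE x).1 (hE y).1
  have hEsub : ∀ x : S, E x ⊆ insert x.1 D := by
    intro x v hv
    have h2 : v ∈ D ∪ S := by
      refine rtg_closed (Z := D ∪ S) (fun a _ b hab => (hW _ _ hab.1).2) (Or.inr x.2)
        ((hE x).2.1 x (hE x).2.2.1 v hv)
    rcases h2 with h2 | h2
    · exact Or.inr h2
    · left
      by_contra hne
      exact Set.disjoint_left.1 (hEd x ⟨v, h2⟩ (fun h => hne (congrArg Subtype.val h).symm)) hv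
        (hE ⟨v, h2⟩).2.2.1
  have : Fintype S := hSfin.fintype
  set U : Finset (Fin n) := Finset.univ.image j with hU
  have hUc : U.card ≤ S.ncard := by
    refine Finset.card_image_le.trans ?_
    rw [Finset.card_univ, Set.ncard_eq_toFinset_card _ hSfin, Fintype.card_of_finset' hSfin.toFinset
      (fun x => hSfin.mem_toFinset)]
  have hJU : T ≤ (J \ U).card := by
    have := Finset.le_card_sdiff U J
    omega
  obtain ⟨t, ht, htc⟩ := Finset.exists_subset_card_eq hJU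
  set e : Fin T → Fin n := fun i => t.orderEmbOfFin htc i with he
  have heinj : ∀ i k, i ≠ k → e i ≠ e k := fun i k hik h =>
    hik ((t.orderEmbOfFin htc).injective h)
  have heJ : ∀ i, e i ∈ J ∧ e i ∉ U := by
    intro i
    exact Finset.mem_sdiff.1 (ht (Finset.orderEmbOfFin_mem t htc i))
  refine ⟨fun x => if h : x ∈ S then E ⟨x, h⟩ else ∅, fun i => M (e i), fun x hx => ?_,
    fun x hx y hy hxy => ?_, ⟨fun i => ?_, fun i => hM.ne _, fun i => hM.con _,
      fun i k hik => hM.disj _ _ (heinj i k hik), fun i k hik => hM.adj _ _ (heinj i k hik)⟩,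
      fun i x hx => ?_⟩
  · dsimp only
    rw [dif_pos hx]
    exact ⟨(hE ⟨x, hx⟩).2.2.1, (hE ⟨x, hx⟩).2.1, hEsub ⟨x, hx⟩⟩
  · dsimp only
    rw [dif_pos hx, dif_pos hy]
    exact hEd _ _ (fun h => hxy (congrArg Subtype.val h))
  · intro w hw
    exact (hM.sub _ hw).resolve_right (fun h =>
      Set.disjoint_left.1 (Finset.mem_filter.1 (heJ i).1).2 hw h)
  · dsimp only
    rw [dif_pos hx]
    obtain ⟨h1, h2, h3, h4, h5, h6⟩ := hE ⟨x, hx⟩
    have hne : e i ≠ j ⟨x, hx⟩ := fun h => (heJ i).2 (h ▸ Finset.mem_image_of_mem _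
      (Finset.mem_univ _))
    constructor
    · rw [Set.disjoint_left]
      intro w hw hwE
      rw [hm _ (heJ i).1, Set.mem_singleton_iff] at hw
      subst hw
      have h7 := h6 _ hwE ⟨e i, (heJ i).1, rfl⟩
      exact hne (hminj (heJ i).1 h4 h7)
    · obtain ⟨a, ha, b, hb, hab⟩ := hM.adj _ _ hne
      rw [hm _ h4, Set.mem_singleton_iff] at hb
      subst hb
      exact ⟨a, ha, _, h5, hab⟩

/-- the rooted clique minor lemma -/
theorem rooted (T : ℕ) : ∀ (k : ℕ) (r : V → V → Prop), (∀ u v, r u v → r v u) →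
    ∀ (S D : Set V), (D ∪ S).Finite → (D ∪ S).ncard ≤ k → Disjoint S D →
    (∀ u v, r u v → u ∈ D ∪ S ∧ v ∈ D ∪ S) → ∀ (n : ℕ) (M : Fin n → Set V),
    Mod r n (D ∪ S) M → 2 * S.ncard + T ≤ n →
    (∀ L ⊆ D, Con r L → (∃ i, M i ⊆ L) → S.ncard ≤ (Nb r L).ncard) → Univ r T S D := by
  intro k
  induction k with
  | zero =>
    intro r hr S D hfin hk hSD hW n M hM hn hyp
    have h0 : D ∪ S = ∅ := by
      rw [← Set.ncard_eq_zero hfin]
      omega
    refine base hr hfin hW hM hn hyp (fun j u hu v hv _ _ => ?_)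
    have := hM.sub j hu
    rw [h0] at this
    exact absurd this (Set.notMem_empty u)
  | succ k ih =>
    intro r hr S D hfin hk hSD hW n M hM hn hyp
    by_cases h1 : ∃ L ⊆ D, Con r L ∧ (∃ i, M i ⊆ L) ∧ (Nb r L).ncard = S.ncard ∧
        L ∪ Nb r L ≠ D ∪ S
    · obtain ⟨L, hL, hLc, ⟨i, hi⟩, hcard, hne⟩ := h1
      obtain ⟨l, hl⟩ := hM.ne i
      have hsub : L ∪ Nb r L ⊆ D ∪ S := by
        rintro w (hw | ⟨-, a, -, h⟩)
        · exact Or.inl (hL hw)
        · exact (hW _ _ h).2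
      have hlt : (L ∪ Nb r L).ncard < (D ∪ S).ncard :=
        Set.ncard_lt_ncard (Set.ssubset_iff_subset_ne.2 ⟨hsub, hne⟩) hfin
      refine case1 hr hfin hSD hW hL hLc (hi hl)
        (fun X hX hXc hLX => hyp X hX hXc ⟨i, hi.trans hLX⟩) hcard ?_
      refine ih (loc r L (Nb r L)) (loc_symm hr) (Nb r L) L (hfin.subset hsub) (by omega)
        (Set.disjoint_left.2 fun v h h' => h.1 h') (fun u v h => h.2) n _ (hM.restrict hr hi)
        (by omega) ?_
      rintro X hXL hX ⟨i', hi'⟩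
      obtain ⟨h2, h3, h4⟩ := restrict_hyp hM hi hXL hX hi'
      rw [h4, hcard]
      exact hyp X (hXL.trans hL) h2 ⟨i', h3⟩
    · have hnot : ∀ L ⊆ D, Con r L → (∃ i, M i ⊆ L) → (Nb r L).ncard = S.ncard →
          L ∪ Nb r L = D ∪ S := by
        intro L hL hLc hi hcard
        by_contra hne
        exact h1 ⟨L, hL, hLc, hi, hcard, hne⟩
      by_cases h2 : ∃ j, ∃ u ∈ M j, ∃ v ∈ M j, r u v ∧ u ≠ v ∧ v ∉ S
      · obtain ⟨j, u, hu, v, hv, huv, hne, hvS⟩ := h2
        have hvD : v ∈ D := (hM.sub j hv).resolve_right hvS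
        have hset : (D \ {v}) ∪ S = (D ∪ S) \ {v} := by
          ext w
          constructor
          · rintro (h | h)
            · exact ⟨Or.inl h.1, h.2⟩
            · exact ⟨Or.inr h, fun h' => hvS ((Set.mem_singleton_iff.1 h') ▸ h)⟩
          · rintro ⟨h | h, h'⟩
            · exact Or.inl ⟨h, h'⟩
            · exact Or.inr h
        have hcard : ((D \ {v}) ∪ S).ncard + 1 = (D ∪ S).ncard := by
          rw [hset]
          exact Set.ncard_sdiff_singleton_add_one (Or.inl hvD) hfin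
        refine Univ.of_ctr hr huv hvS hvD ?_
        refine ih (ctr r u v) (ctr_symm hr) S (D \ {v}) (by rw [hset]; exact hfin.sdiff)
          (by omega) (hSD.mono_right Set.sdiff_subset) ?_ n _ (hM.ctr hr huv hne hvS hu hv) hn
          (ctr_hyp hr huv hne hfin hSD hW hM hvS hu hv hyp hnot)
        rintro a b ⟨ha, hb, h⟩
        rw [hset]
        have huW := hM.sub j hu
        rcases h with h | h | h
        · exact ⟨⟨(hW _ _ h).1, ha⟩, ⟨(hW _ _ h).2, hb⟩⟩
        · exact ⟨⟨h.1 ▸ huW, ha⟩, ⟨(hW _ _ h.2).2, hb⟩⟩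
        · exact ⟨⟨(hW _ _ h.2).1, ha⟩, ⟨h.1 ▸ huW, hb⟩⟩
      · push Not at h2
        exact base hr hfin hW hM hn hyp (fun j u hu v hv h h' => h2 j u hu v hv h h')

end SelfMinorPk
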