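import Pool.Agent.SelfMinorPk.Elim

/-!
# Either universal or bounded elimination height down to few outer neighbours
-/

namespace SelfMinorPk

open Relation SelfMinor

universe u

variable {V : Type u} {r r' : V → V → Prop} {C D E F L S X Y Z W Q : Set V}

/-- the graph without `L` and with `F` made complete -/
def cut (r : V → V → Prop) (L F : Set V) (a b : V) : Prop :=
  (r a b ∨ (a ∈ F ∧ b ∈ F)) ∧ a ∉ L ∧ b ∉ L

lemma cut_symm (hr : ∀ u v, r u v → r v u) : ∀ u v, cut r L F u v → cut r L F v u := by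
  intro u v h
  exact ⟨h.1.imp (hr _ _) (fun h => ⟨h.2, h.1⟩), h.2.2, h.2.1⟩

/-- removing `L` from a connected set keeps it connected when `Nb L` is made complete -/
lemma con_remove (hr : ∀ u v, r u v → r v u) (hX : Con r X) :
    Con (cut r L (Nb r L)) (X \ L) := by
  set F := Nb r L with hF
  by_cases hFX : ∃ f ∈ X, f ∈ F
  · obtain ⟨f, hfX, hfF⟩ := hFX
    have key : ∀ u, ReflTransGen (fun x y => r x y ∧ x ∈ X ∧ y ∈ X) f u → u ∉ L →
        ReflTransGen (fun x y => cut r L F x y ∧ x ∈ X \ L ∧ y ∈ X \ L) f u := by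
      intro u hu
      induction hu with
      | refl => exact fun _ => .refl
      | @tail b c h1 h2 ih =>
        intro hc
        by_cases hb : b ∈ L
        · have hcF : c ∈ F := ⟨hc, b, hb, h2.1⟩
          exact .single ⟨⟨Or.inr ⟨hfF, hcF⟩, hfF.1, hc⟩, ⟨hfX, hfF.1⟩, ⟨h2.2.2, hc⟩⟩
        · exact (ih hb).tail ⟨⟨Or.inl h2.1, hb, hc⟩, ⟨h2.2.1, hb⟩, ⟨h2.2.2, hc⟩⟩
    refine con_of_star (a := f) (fun u hu => ?_)
    exact ⟨cc (cut r L F) (X \ L) f, cc_subset ⟨hfX, hfF.1⟩,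
      con_cc (cut_symm hr) f, mem_cc _ _, key u (hX f hfX u hu.1) hu.2⟩
  · push Not at hFX
    intro u hu v hv
    have hsub : ∀ w ∈ X, w ∉ L := by
      intro w hw hwL
      exact hu.2 (con_sub_of_nb hX hw hwL hFX hu.1)
    exact rtg_mono (fun a b h => ⟨⟨Or.inl h.1, hsub a h.2.1, hsub b h.2.2⟩,
      ⟨h.2.1, hsub a h.2.1⟩, ⟨h.2.2, hsub b h.2.2⟩⟩) (hX u hu.1 v hv.1)

lemma con_of_cut (hE : Con (cut r L F) E) (hEF : ∀ f ∈ E, f ∉ F) : Con r E := by
  refine Con.congr (fun u hu v _ h _ => ?_) hE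
  rcases h.1 with h1 | h1
  · exact h1
  · exact absurd h1.1 (hEF u hu)

lemma con_add (hr : ∀ u v, r u v → r v u) (hL : Con r L) (hE : Con (cut r L (Nb r L)) E)
    {f : V} (hf : f ∈ E) (hfF : f ∈ Nb r L) : Con r (E ∪ L) := by
  set R : V → V → Prop := fun x y => r x y ∧ x ∈ E ∪ L ∧ y ∈ E ∪ L with hR
  have hRs : ∀ x y, R x y → R y x := fun x y h => ⟨hr _ _ h.1, h.2.2, h.2.1⟩
  have hLR : ∀ a ∈ L, ∀ b ∈ L, ReflTransGen R a b := fun a ha b hb =>
    rtg_mono (fun _ _ h => ⟨h.1, Or.inr h.2.1, Or.inr h.2.2⟩) (hL a ha b hb)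
  have hFL : ∀ a ∈ E, a ∈ Nb r L → ∀ l ∈ L, ReflTransGen R a l := by
    rintro a ha ⟨-, l', hl', hla⟩ l hl
    exact .head ⟨hr _ _ hla, Or.inl ha, Or.inr hl'⟩ (hLR l' hl' l hl)
  have key : ∀ u, ReflTransGen (fun x y => cut r L (Nb r L) x y ∧ x ∈ E ∧ y ∈ E) f u →
      ReflTransGen R f u := by
    intro u hu
    induction hu with
    | refl => exact .refl
    | @tail b c h1 h2 ih =>
      rcases h2.1.1 with h | h
      · exact ih.tail ⟨h, Or.inl h2.2.1, Or.inl h2.2.2⟩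
      · obtain ⟨-, l, hl, -⟩ := h.1
        exact (ih.trans (hFL b h2.2.1 h.1 l hl)).trans (rtg_symm hRs (hFL c h2.2.2 h.2 l hl))
  refine con_of_star (a := f) (fun u hu => ?_)
  refine ⟨cc r (E ∪ L) f, cc_subset (Or.inl hf), con_cc hr f, mem_cc _ _, ?_⟩
  rcases hu with hu | hu
  · exact key u (hE f hf u hu)
  · exact hFL f hf hfF u hu

/-- adding `L` if `F` is met -/
def plus (L F E : Set V) : Set V := E ∪ {w | w ∈ L ∧ (E ∩ F).Nonempty}

lemma plus_of_meets (h : (E ∩ F).Nonempty) : plus L F E = E ∪ L := by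
  ext w
  constructor
  · rintro (hw | hw)
    · exact Or.inl hw
    · exact Or.inr hw.1
  · rintro (hw | hw)
    · exact Or.inl hw
    · exact Or.inr ⟨hw, h⟩

lemma plus_of_not (h : ¬ (E ∩ F).Nonempty) : plus L F E = E := by
  ext w
  constructor
  · rintro (hw | hw)
    · exact hw
    · exact absurd hw.2 h
  · exact fun hw => Or.inl hw

lemma con_plus (hr : ∀ u v, r u v → r v u) (hL : Con r L) (hE : Con (cut r L (Nb r L)) E) :
    Con r (plus L (Nb r L) E) := by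
  by_cases h : (E ∩ Nb r L).Nonempty
  · rw [plus_of_meets h]
    obtain ⟨f, hf, hfF⟩ := h
    exact con_add hr hL hE hf hfF
  · rw [plus_of_not h]
    exact con_of_cut hE (fun f hf hfF => h ⟨f, hf, hfF⟩)

lemma Nb_plus (hr : ∀ u v, r u v → r v u) (hE : Disjoint E L) :
    Nb r (plus L (Nb r L) E) ⊆ Nb (cut r L (Nb r L)) E := by
  rintro v ⟨hv, u, hu, huv⟩
  have hvE : v ∉ E := fun h => hv (Or.inl h)
  by_cases hvL : v ∈ L
  · exfalso
    rcases hu with hu | hu
    · exact hv (Or.inr ⟨hvL, u, hu, fun h => Set.disjoint_left.1 hE hu h, v, hvL, hr _ _ huv⟩)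
    · exact hv (Or.inr ⟨hvL, hu.2⟩)
  · rcases hu with hu | hu
    · exact ⟨hvE, u, hu, Or.inl huv, Set.disjoint_left.1 hE hu, hvL⟩
    · obtain ⟨f, hf, hfF⟩ := hu.2
      exact ⟨hvE, f, hf, Or.inr ⟨hfF, hvL, u, hu.1, huv⟩, hfF.1, hvL⟩

lemma cc_plus (hr : ∀ u v, r u v → r v u) (hL : Con r L) (hE : Disjoint E L) {v a : V}
    (hv : v ∈ E) (ha : a ∈ E \ {v}) {b : V}
    (hb : b ∈ plus L (Nb r L) (cc (cut r L (Nb r L)) (E \ {v}) a)) :
    cc r (plus L (Nb r L) E \ {v}) b = plus L (Nb r L) (cc (cut r L (Nb r L)) (E \ {v}) a) := by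
  set X := cc (cut r L (Nb r L)) (E \ {v}) a with hX
  have hXE : X ⊆ E \ {v} := cc_subset ha
  have hvL : v ∉ L := Set.disjoint_left.1 hE hv
  refine cc_eq ?_ hb (con_plus hr hL (con_cc (cut_symm hr) a)) ?_
  · rintro w (hw | ⟨hw, f, hf, hfF⟩)
    · exact ⟨Or.inl (hXE hw).1, (hXE hw).2⟩
    · exact ⟨Or.inr ⟨hw, f, (hXE hf).1, hfF⟩, fun h => hvL ((Set.mem_singleton_iff.1 h) ▸ hw)⟩
  · rintro u hu w ⟨hw, hwv⟩ huw
    have hnotL : ∀ z ∈ E, z ∉ L := fun z hz => Set.disjoint_left.1 hE hz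
    rcases hu with hu | ⟨hu, f, hf, hfF⟩
    · rcases hw with hw | ⟨hw, -⟩
      · exact Or.inl (cc_closed hu (hXE hu) ⟨hw, hwv⟩ ⟨Or.inl huw, hnotL u (hXE hu).1, hnotL w hw⟩)
      · exact Or.inr ⟨hw, u, hu, hnotL u (hXE hu).1, w, hw, hr _ _ huw⟩
    · rcases hw with hw | ⟨hw, -⟩
      · left
        exact cc_closed hf (hXE hf) ⟨hw, hwv⟩ ⟨Or.inr ⟨hfF, hnotL w hw, u, hu, huw⟩, hfF.1,
          hnotL w hw⟩
      · exact Or.inr ⟨hw, f, hf, hfF⟩

/-- lifting the elimination -/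
lemma El.lift (hr : ∀ u v, r u v → r v u) (hL : Con r L) {s : ℕ} (hF : (Nb r L).ncard < s)
    (hfin : (D ∪ S).Finite) (hcl : ∀ u ∈ D, ∀ v, r u v → v ∈ D ∪ S) (hFD : Nb r L ⊆ D ∪ S) :
    ∀ (h : ℕ) (E : Set V), E ⊆ D \ L →
      El (cut r L (Nb r L)) (fun X => (Nb (cut r L (Nb r L)) X).ncard < s) h E →
      El r (fun X => (Nb r X).ncard < s) h (plus L (Nb r L) E) := by
  have hleaf : ∀ E ⊆ D \ L, (Nb (cut r L (Nb r L)) E).ncard < s →
      (Nb r (plus L (Nb r L) E)).ncard < s := by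
    intro E hE h
    refine (Set.ncard_le_ncard (Nb_plus hr ?_) ?_).trans_lt h
    · exact Set.disjoint_left.2 fun x hx => (hE hx).2
    · refine hfin.subset ?_
      rintro w ⟨-, u, hu, huw, -, -⟩
      rcases huw with h | h
      · exact hcl u (hE hu).1 w h
      · exact hFD h.2
  intro h
  induction h with
  | zero => exact hleaf
  | succ h ih =>
    rintro E hE (h1 | ⟨v, hv, h1⟩)
    · exact Or.inl (hleaf E hE h1)
    · have hEL : Disjoint E L := Set.disjoint_left.2 fun x hx => (hE hx).2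
      have hgood : ∀ a ∈ E \ {v}, ∀ b ∈ plus L (Nb r L) (cc (cut r L (Nb r L)) (E \ {v}) a),
          El r (fun X => (Nb r X).ncard < s) h (cc r (plus L (Nb r L) E \ {v}) b) := by
        intro a ha b hb
        rw [cc_plus hr hL hEL hv ha hb]
        exact ih _ ((cc_subset ha).trans (Set.sdiff_subset.trans hE)) (h1 a ha)
      refine Or.inr ⟨v, Or.inl hv, ?_⟩
      rintro b ⟨hb | ⟨hb, f, hf, hfF⟩, hbv⟩
      · exact hgood b ⟨hb, hbv⟩ b (Or.inl (mem_cc _ _))
      · by_cases h2 : ∃ g ∈ E, g ≠ v ∧ g ∈ Nb r L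
        · obtain ⟨g, hg, hgv, hgF⟩ := h2
          exact hgood g ⟨hg, hgv⟩ b (Or.inr ⟨hb, g, mem_cc _ _, hgF⟩)
        · have h3 : cc r (plus L (Nb r L) E \ {v}) b = L := by
            refine cc_eq ?_ hb hL ?_
            · intro w hw
              refine ⟨Or.inr ⟨hw, f, hf, hfF⟩, fun h => ?_⟩
              exact Set.disjoint_left.1 hEL hv ((Set.mem_singleton_iff.1 h) ▸ hw)
            · rintro u hu w ⟨hw | hw, hwv⟩ huw
              · exfalso
                exact h2 ⟨w, hw, hwv, Set.disjoint_left.1 hEL hw, u, hu, huw⟩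
              · exact hw.1
          rw [h3]
          exact El.of_leaf h hF

/-- replacing the elements of `F` by the sets `A f` -/
def th (F : Set V) (A : V → Set V) (v : V) : Set V :=
  {w | (v ∈ F ∧ w ∈ A v) ∨ (v ∉ F ∧ w = v)}

lemma th_of_mem {A : V → Set V} {v : V} (h : v ∈ F) : th F A v = A v := by
  ext w
  constructor
  · rintro (h1 | h1)
    · exact h1.2
    · exact absurd h h1.1
  · exact fun h1 => Or.inl ⟨h, h1⟩

lemma th_of_notMem {A : V → Set V} {v : V} (h : v ∉ F) : th F A v = {v} := by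
  ext w
  constructor
  · rintro (h1 | h1)
    · exact absurd h1.1 h
    · exact h1.2
  · exact fun h1 => Or.inr ⟨h, h1⟩

/-- lifting universality -/
lemma Univ.lift {T : ℕ} {A : V → Set V} (hLD : L ⊆ D) (hSD : Disjoint S D)
    (hA : ∀ f ∈ F, f ∈ A f ∧ Con r (A f) ∧ A f ⊆ insert f L)
    (hAA : ∀ f ∈ F, ∀ g ∈ F, f ≠ g → Disjoint (A f) (A g) ∧ ∃ a ∈ A f, ∃ b ∈ A g, r a b)
    (h : Univ (cut r L F) T S (D \ L)) : Univ r T S D := by
  obtain ⟨B, N, hB, hBd, hN, hNB⟩ := h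
  have hself : ∀ v, v ∈ th F A v := by
    intro v
    by_cases hv : v ∈ F
    · rw [th_of_mem hv]; exact (hA v hv).1
    · rw [th_of_notMem hv]; rfl
  have hthc : ∀ v, Con r (th F A v) := by
    intro v
    by_cases hv : v ∈ F
    · rw [th_of_mem hv]; exact (hA v hv).2.1
    · rw [th_of_notMem hv]; exact con_singleton r v
  have hths : ∀ v, th F A v ⊆ insert v L := by
    intro v
    by_cases hv : v ∈ F
    · rw [th_of_mem hv]; exact (hA v hv).2.2
    · rw [th_of_notMem hv]; exact Set.singleton_subset_iff.2 (Or.inl rfl)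
  have hthd : ∀ u v, u ∉ L → v ∉ L → u ≠ v → Disjoint (th F A u) (th F A v) := by
    intro u v hu hv huv
    by_cases huF : u ∈ F
    · by_cases hvF : v ∈ F
      · rw [th_of_mem huF, th_of_mem hvF]
        exact (hAA u huF v hvF huv).1
      · rw [th_of_notMem hvF, Set.disjoint_singleton_right]
        intro h
        rcases hths u h with h | h
        · exact huv h.symm
        · exact hv h
    · rw [th_of_notMem huF, Set.disjoint_singleton_left]
      intro h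
      rcases hths v h with h | h
      · exact huv h
      · exact hu h
  have hedge : ∀ u v, cut r L F u v → u ≠ v → ∃ a ∈ th F A u, ∃ b ∈ th F A v, r a b := by
    intro u v huv hne
    rcases huv.1 with h | h
    · exact ⟨u, hself u, v, hself v, h⟩
    · rw [th_of_mem h.1, th_of_mem h.2]
      exact (hAA u h.1 v h.2 hne).2
  have hcon : ∀ X : Set V, Con (cut r L F) X → Con r (⋃ v ∈ X, th F A v) := fun X hX =>
    con_biUnion hX (fun v _ => hthc v) (fun u _ v _ huv hne => hedge u v huv hne)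
  have hsub : ∀ X : Set V, X ⊆ ⋃ v ∈ X, th F A v := fun X v hv =>
    Set.mem_iUnion₂.2 ⟨v, hv, hself v⟩
  have hdis : ∀ X Y : Set V, (∀ x ∈ X, x ∉ L) → (∀ y ∈ Y, y ∉ L) → Disjoint X Y →
      Disjoint (⋃ v ∈ X, th F A v) (⋃ v ∈ Y, th F A v) := by
    intro X Y hX hY hXY
    rw [Set.disjoint_left]
    intro w hw hw'
    obtain ⟨u, hu, hwu⟩ := Set.mem_iUnion₂.1 hw
    obtain ⟨v, hv, hwv⟩ := Set.mem_iUnion₂.1 hw'
    have huv : u ≠ v := fun h => Set.disjoint_left.1 hXY hu (h ▸ hv)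
    exact Set.disjoint_left.1 (hthd u v (hX u hu) (hY v hv) huv) hwu hwv
  have hadj : ∀ X Y : Set V, Disjoint X Y → (∃ a ∈ X, ∃ b ∈ Y, cut r L F a b) →
      ∃ a ∈ ⋃ v ∈ X, th F A v, ∃ b ∈ ⋃ v ∈ Y, th F A v, r a b := by
    rintro X Y hXY ⟨a, ha, b, hb, hab⟩
    have hne : a ≠ b := fun h => Set.disjoint_left.1 hXY ha (h ▸ hb)
    obtain ⟨c, hc, d, hd, hcd⟩ := hedge a b hab hne
    exact ⟨c, Set.mem_iUnion₂.2 ⟨a, ha, hc⟩, d, Set.mem_iUnion₂.2 ⟨b, hb, hd⟩, hcd⟩
  have hBL : ∀ x ∈ S, ∀ y ∈ B x, y ∉ L := by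
    intro x hx y hy hyL
    rcases (hB x hx).2.2 hy with h | h
    · exact Set.disjoint_left.1 hSD hx (hLD (h ▸ hyL))
    · exact h.2 hyL
  have hNL : ∀ i, ∀ y ∈ N i, y ∉ L := fun i y hy => (hN.sub i hy).2
  refine ⟨fun x => ⋃ v ∈ B x, th F A v, fun i => ⋃ v ∈ N i, th F A v, fun x hx => ?_,
    fun x hx y hy hxy => ?_, ⟨fun i => ?_, fun i => ?_, fun i => ?_, fun i j hij => ?_,
      fun i j hij => ?_⟩, fun i x hx => ⟨?_, ?_⟩⟩
  · refine ⟨hsub _ (hB x hx).1, hcon _ (hB x hx).2.1, ?_⟩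
    intro w hw
    obtain ⟨v, hv, hwv⟩ := Set.mem_iUnion₂.1 hw
    rcases hths v hwv with h | h
    · subst h
      rcases (hB x hx).2.2 hv with h | h
      · exact Or.inl h
      · exact Or.inr h.1
    · exact Or.inr (hLD h)
  · exact hdis _ _ (hBL x hx) (hBL y hy) (hBd x hx y hy hxy)
  · intro w hw
    obtain ⟨v, hv, hwv⟩ := Set.mem_iUnion₂.1 hw
    rcases hths v hwv with h | h
    · subst h
      exact (hN.sub i hv).1
    · exact hLD h
  · exact (hN.ne i).mono (hsub _)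
  · exact hcon _ (hN.con i)
  · exact hdis _ _ (hNL i) (hNL j) (hN.disj i j hij)
  · exact hadj _ _ (hN.disj i j hij) (hN.adj i j hij)
  · exact hdis _ _ (hNL i) (hBL x hx) (hNB i x hx).1
  · exact hadj _ _ (hNB i x hx).1 (hNB i x hx).2

/-- the fan in `L ∪ F` -/
lemma fan (hr : ∀ u v, r u v → r v u) {m : ℕ} (hFfin : (Nb r L).Finite)
    (hm : (Nb r L).ncard = m) (hU : Univ (loc r L (Nb r L)) m (Nb r L) L) :
    ∃ A : V → Set V, (∀ f ∈ Nb r L, f ∈ A f ∧ Con r (A f) ∧ A f ⊆ insert f L) ∧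
      ∀ f ∈ Nb r L, ∀ g ∈ Nb r L, f ≠ g →
        Disjoint (A f) (A g) ∧ ∃ a ∈ A f, ∃ b ∈ A g, r a b := by
  classical
  obtain ⟨B, N, hB, hBd, hN, hNB⟩ := hU
  have hcard : hFfin.toFinset.card = m := by
    rw [← Set.ncard_eq_toFinset_card _ hFfin, hm]
  set e := hFfin.toFinset.equivFinOfCardEq hcard with he
  set idx : ∀ f, f ∈ Nb r L → Fin m := fun f hf => e ⟨f, hFfin.mem_toFinset.2 hf⟩ with hidx
  have hinj : ∀ f (hf : f ∈ Nb r L) g (hg : g ∈ Nb r L), f ≠ g → idx f hf ≠ idx g hg := by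
    intro f hf g hg hne h
    exact hne (congrArg Subtype.val (e.injective h))
  set A : V → Set V := fun f => if h : f ∈ Nb r L then B f ∪ N (idx f h) else ∅ with hA
  have hAe : ∀ f (hf : f ∈ Nb r L), A f = B f ∪ N (idx f hf) := fun f hf => dif_pos hf
  refine ⟨A, fun f hf => ?_, fun f hf g hg hfg => ?_⟩
  · rw [hAe f hf]
    have hsub : B f ∪ N (idx f hf) ⊆ insert f L := by
      rintro w (hw | hw)
      · exact (hB f hf).2.2 hw
      · exact Or.inr (hN.sub _ hw)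
    refine ⟨Or.inl (hB f hf).1, ?_, hsub⟩
    obtain ⟨-, a, ha, b, hb, hab⟩ := hNB (idx f hf) f hf
    refine con_of_loc (f := f) (con_union (loc_symm hr) (hB f hf).2.1 (hN.con _) hb ha
      (Or.inr (loc_symm hr _ _ hab))) ?_
    intro c hc hcF
    rcases hsub hc with h | h
    · exact h
    · exact absurd h hcF.1
  · rw [hAe f hf, hAe g hg]
    constructor
    · rw [Set.disjoint_union_left, Set.disjoint_union_right, Set.disjoint_union_right]
      exact ⟨⟨hBd f hf g hg hfg, (hNB _ f hf).1.symm⟩, (hNB _ g hg).1,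
        hN.disj _ _ (hinj f hf g hg hfg)⟩
    · obtain ⟨a, ha, b, hb, hab⟩ := hN.adj _ _ (hinj f hf g hg hfg)
      refine ⟨a, Or.inr ha, b, Or.inr hb, ?_⟩
      rcases hab.1 with h | h
      · exact h
      · exact absurd (hN.sub _ ha) h.1.1

lemma Mod.congr {n : ℕ} {M : Fin n → Set V} (hM : Mod r n D M)
    (h : ∀ u ∈ D, ∀ v ∈ D, r u v → r' u v) (hDC : D ⊆ C) : Mod r' n C M := by
  refine ⟨fun i => (hM.sub i).trans hDC, hM.ne, fun i => ?_, hM.disj, fun i j hij => ?_⟩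
  · exact Con.congr (fun u hu v hv huv _ => h u (hM.sub i hu) v (hM.sub i hv) huv) (hM.con i)
  · obtain ⟨a, ha, b, hb, hab⟩ := hM.adj i j hij
    exact ⟨a, ha, b, hb, h a (hM.sub i ha) b (hM.sub j hb) hab⟩

lemma Univ.mono_rel {T : ℕ} (h : ∀ u v, r u v → r' u v) (hU : Univ r T S D) :
    Univ r' T S D := by
  obtain ⟨B, N, hB, hBd, hN, hNB⟩ := hU
  refine ⟨B, N, fun x hx => ⟨(hB x hx).1, (hB x hx).2.1.mono h, (hB x hx).2.2⟩, hBd,
    hN.congr (fun u _ v _ huv => h u v huv) subset_rfl, fun i x hx => ⟨(hNB i x hx).1, ?_⟩⟩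
  obtain ⟨a, ha, b, hb, hab⟩ := (hNB i x hx).2
  exact ⟨a, ha, b, hb, h _ _ hab⟩

/-- either universal or bounded elimination height down to fewer than `s` outer neighbours -/
theorem decomp (k T s : ℕ) : ∀ (n : ℕ) (r : V → V → Prop), (∀ u v, r u v → r v u) →
    ∀ (S D : Set V), S.Finite → S.ncard = s → D.Finite → D.ncard ≤ n → Disjoint S D →
    D.Nonempty → Con r D → (∀ u ∈ D, ∀ v, r u v → v ∈ D ∪ S) → (∀ x ∈ S, ∃ u ∈ D, r u x) →
    DP r k D → ¬ Univ r T S D →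
    El r (fun X => (Nb r X).ncard < s) (hh k (3 * s + T) 0) D := by
  intro n
  induction n with
  | zero =>
    intro r hr S D _ _ hDf hDn _ hne
    exfalso
    have h0 : D = ∅ := by
      rw [← Set.ncard_eq_zero hDf]
      omega
    exact hne.ne_empty h0
  | succ n ih =>
    intro r hr S D hSf hSs hDf hDn hSD hne hcon hcl hnb hDP hnU
    rcases elim_or_model hr k (3 * s + T) [] D hDP hcon hne with hmod | hel
    swap
    · refine El.mono_leaf (fun E hE => ?_) _ _ hel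
      obtain ⟨Z, hZ, -⟩ := hE
      exact absurd hZ List.not_mem_nil
    obtain ⟨M, hM, -⟩ := hmod
    have hfin : (D ∪ S).Finite := hDf.union hSf
    -- a connected set with few outer neighbours
    set r1 : V → V → Prop := fun a b => r a b ∧ a ∈ D ∪ S ∧ b ∈ D ∪ S with hr1
    have hr1s : ∀ u v, r1 u v → r1 v u := fun u v h => ⟨hr _ _ h.1, h.2.2, h.2.1⟩
    have hex : ∃ m, m < s ∧ ∃ L ⊆ D, Con r L ∧ (∃ i, M i ⊆ L) ∧ (Nb r L).ncard = m := by
      by_contra hcon'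
      push Not at hcon'
      refine hnU (Univ.mono_rel (r := r1) (fun _ _ h => h.1) ?_)
      refine rooted T _ r1 hr1s S D hfin le_rfl hSD (fun u v h => h.2) (3 * s + T) M
        (hM.congr (fun u hu v hv h => ⟨h, Or.inl hu, Or.inl hv⟩) Set.subset_union_left)
        (by omega) ?_
      intro L hL hLc hi
      have h1 : Nb r1 L = Nb r L := by
        ext w
        constructor
        · rintro ⟨hw, u, hu, huw⟩
          exact ⟨hw, u, hu, huw.1⟩
        · rintro ⟨hw, u, hu, huw⟩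
          exact ⟨hw, u, hu, huw, Or.inl (hL hu), hcl u (hL hu) w huw⟩
      rw [h1]
      by_contra hlt
      push Not at hlt
      exact hcon' _ (hSs ▸ hlt) L hL (hLc.mono (fun _ _ h => h.1)) hi rfl
    obtain ⟨m, ⟨hms, L, hLD, hLc, ⟨i, hi⟩, hLm⟩, hmin⟩ : ∃ m, (m < s ∧ ∃ L ⊆ D, Con r L ∧
        (∃ i, M i ⊆ L) ∧ (Nb r L).ncard = m) ∧ ∀ L ⊆ D, Con r L → (∃ i, M i ⊆ L) →
        m ≤ (Nb r L).ncard := by
      classical
      refine ⟨Nat.find hex, Nat.find_spec hex, fun L hL hLc hi => ?_⟩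
      by_contra hlt
      push Not at hlt
      exact Nat.find_min hex hlt ⟨hlt.trans (Nat.find_spec hex).1, L, hL, hLc, hi, rfl⟩
    obtain ⟨l, hl⟩ := hM.ne i
    have hlL : l ∈ L := hi hl
    have hFsub : Nb r L ⊆ D ∪ S := by
      rintro w ⟨-, u, hu, huw⟩
      exact hcl u (hLD hu) w huw
    have hFfin : (Nb r L).Finite := hfin.subset hFsub
    -- the fan
    have hU : Univ (loc r L (Nb r L)) m (Nb r L) L := by
      refine rooted m _ (loc r L (Nb r L)) (loc_symm hr) (Nb r L) L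
        (hfin.subset (Set.union_subset (hLD.trans Set.subset_union_left) hFsub)) le_rfl
        (Set.disjoint_left.2 fun v h h' => h.1 h') (fun u v h => h.2) (3 * s + T) _
        (hM.restrict hr hi) (by omega) ?_
      rintro X hXL hX ⟨i', hi'⟩
      obtain ⟨h2, h3, h4⟩ := restrict_hyp hM hi hXL hX hi'
      rw [h4, hLm]
      exact hmin X (hXL.trans hLD) h2 ⟨i', h3⟩
    obtain ⟨A, hA, hAA⟩ := fan hr hFfin hLm hU
    -- the smaller graph
    have hLS : ∀ v ∈ S, v ∉ L := fun v hv h => Set.disjoint_left.1 hSD hv (hLD h)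
    have hDL : ∃ a ∈ D, a ∉ L := by
      by_contra h
      push Not at h
      have h1 : S ⊆ Nb r L := by
        intro x hx
        obtain ⟨u, hu, hux⟩ := hnb x hx
        exact ⟨hLS x hx, u, h u hu, hux⟩
      have := Set.ncard_le_ncard h1 hFfin
      omega
    obtain ⟨a, haD, haL⟩ := hDL
    obtain ⟨f, hfD, hfF⟩ := meets_nb (L := L) hcon (hLD hlL) hlL haD haL
    have hconD : Con (cut r L (Nb r L)) (D \ L) := con_remove hr hcon
    have hDlt : (D \ L).ncard < D.ncard := by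
      refine Set.ncard_lt_ncard ⟨Set.sdiff_subset, fun h => ?_⟩ hDf
      exact (h (hLD hlL)).2 hlL
    have hIH : El (cut r L (Nb r L)) (fun X => (Nb (cut r L (Nb r L)) X).ncard < s)
        (hh k (3 * s + T) 0) (D \ L) := by
      refine ih (cut r L (Nb r L)) (cut_symm hr) S (D \ L) hSf hSs hDf.sdiff (by omega)
        (hSD.mono_right Set.sdiff_subset) ⟨a, haD, haL⟩ hconD ?_ ?_ ?_ ?_
      · rintro u hu v ⟨h | h, -, hvL⟩
        · rcases hcl u hu.1 v h with h' | h'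
          · exact Or.inl ⟨h', hvL⟩
          · exact Or.inr h'
        · rcases hFsub h.2 with h' | h'
          · exact Or.inl ⟨h', hvL⟩
          · exact Or.inr h'
      · intro x hx
        obtain ⟨u, hu, hux⟩ := hnb x hx
        by_cases huL : u ∈ L
        · exact ⟨f, ⟨hfD, hfF.1⟩, Or.inr ⟨hfF, hLS x hx, u, huL, hux⟩, hfF.1, hLS x hx⟩
        · exact ⟨u, ⟨hu, huL⟩, Or.inl hux, huL, hLS x hx⟩
      · intro C hC hCc b hb c hc
        have hCL : Disjoint C L := Set.disjoint_left.2 fun x hx => (hC hx).2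
        have h1 : plus L (Nb r L) C ⊆ D := by
          rintro w (hw | hw)
          · exact (hC hw).1
          · exact hLD hw.1
        obtain ⟨W, hW, hWc, hbW, hcW, hWf, hWn⟩ := hDP _ h1 (con_plus hr hLc hCc) b (Or.inl hb)
          c (Or.inl hc)
        refine ⟨W \ L, ?_, con_remove hr hWc, ⟨hbW, Set.disjoint_left.1 hCL hb⟩,
          ⟨hcW, Set.disjoint_left.1 hCL hc⟩, hWf.sdiff,
          (Set.ncard_le_ncard Set.sdiff_subset hWf).trans hWn⟩
        rintro w ⟨hw, hwL⟩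
        rcases hW hw with h | h
        · exact h
        · exact absurd h.1 hwL
      · intro hUn
        exact hnU (Univ.lift hLD hSD hA hAA hUn)
    have hlift := El.lift hr hLc (hLm ▸ hms) hfin hcl hFsub _ (D \ L) subset_rfl hIH
    have hne2 : ((D \ L) ∩ Nb r L).Nonempty := ⟨f, ⟨hfD, hfF.1⟩, hfF⟩
    rw [plus_of_meets hne2, Set.sdiff_union_of_subset hLD] at hlift
    exact hlift

end SelfMinorPk
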