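import Pool.Agent.SelfMinorPk.Contract

/-!
# Elimination height
-/

namespace SelfMinorPk

open Relation SelfMinor

universe u

variable {V : Type u} {r r' : V → V → Prop} {C D E F L S X Y Z W Q : Set V}

/-- `C` is reduced to leaves by deleting at most `h` vertices one after the other, each time
passing to a component -/
def El (r : V → V → Prop) (leaf : Set V → Prop) : ℕ → Set V → Prop
  | 0, C => leaf C
  | h + 1, C => leaf C ∨ ∃ v ∈ C, ∀ a ∈ C \ {v}, El r leaf h (cc r (C \ {v}) a)

variable {leaf leaf' : Set V → Prop}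

lemma El.of_leaf (h : ℕ) (hC : leaf C) : El r leaf h C := by
  cases h with
  | zero => exact hC
  | succ h => exact Or.inl hC

lemma El.succ : ∀ (h : ℕ) (C : Set V), El r leaf h C → El r leaf (h + 1) C := by
  intro h
  induction h with
  | zero => exact fun C hC => Or.inl hC
  | succ h ih =>
    rintro C (hC | ⟨v, hv, hC⟩)
    · exact Or.inl hC
    · exact Or.inr ⟨v, hv, fun a ha => ih _ (hC a ha)⟩

lemma El.mono {h h' : ℕ} (hh : h ≤ h') (hC : El r leaf h C) : El r leaf h' C := by
  induction hh with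
  | refl => exact hC
  | step _ ih => exact El.succ _ _ ih

lemma El.mono_leaf (hl : ∀ E, leaf E → leaf' E) : ∀ (h : ℕ) (C : Set V), El r leaf h C →
    El r leaf' h C := by
  intro h
  induction h with
  | zero => exact fun C hC => hl C hC
  | succ h ih =>
    rintro C (hC | ⟨v, hv, hC⟩)
    · exact Or.inl (hl C hC)
    · exact Or.inr ⟨v, hv, fun a ha => ih _ (hC a ha)⟩

lemma El.comp (hr : ∀ u v, r u v → r v u) {h2 : ℕ}
    (hl : ∀ E ⊆ D, E.Nonempty → Con r E → leaf E → El r leaf' h2 E) :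
    ∀ (h1 : ℕ) (C : Set V), C ⊆ D → C.Nonempty → Con r C → El r leaf h1 C →
      El r leaf' (h1 + h2) C := by
  intro h1
  induction h1 with
  | zero =>
    intro C hCD hne hC h
    rw [Nat.zero_add]
    exact hl C hCD hne hC h
  | succ h1 ih =>
    intro C hCD hne hC h
    rcases h with h | ⟨v, hv, h⟩
    · exact El.mono (by omega) (hl C hCD hne hC h)
    · rw [show h1 + 1 + h2 = (h1 + h2) + 1 by omega]
      refine Or.inr ⟨v, hv, fun a ha => ?_⟩
      exact ih _ ((cc_subset ha).trans (Set.sdiff_subset.trans hCD)) ⟨a, mem_cc _ _⟩ (con_cc hr a)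
        (h a ha)

lemma El.del (hr : ∀ u v, r u v → r v u) (h : ℕ) : ∀ (n : ℕ) (C Q : Set V), Q.Finite →
    Q.ncard ≤ n → C.Nonempty → Con r C → (∀ a ∈ C \ Q, El r leaf h (cc r (C \ Q) a)) →
    El r leaf (h + n) C := by
  intro n
  induction n with
  | zero =>
    intro C Q hQ hQn hne hC h1
    have h0 : Q = ∅ := by
      rw [← Set.ncard_eq_zero hQ]
      omega
    obtain ⟨a, ha⟩ := hne
    have h2 := h1 a ⟨ha, by rw [h0]; exact Set.notMem_empty a⟩
    rw [h0, Set.sdiff_empty, cc_eq subset_rfl ha hC (fun _ _ v hv _ => hv)] at h2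
    exact h2
  | succ n ih =>
    intro C Q hQ hQn hne hC h1
    by_cases hq : ∃ q ∈ Q, q ∈ C
    · obtain ⟨q, hqQ, hqC⟩ := hq
      rw [show h + (n + 1) = (h + n) + 1 by omega]
      refine Or.inr ⟨q, hqC, fun a ha => ?_⟩
      have hsub : cc r (C \ {q}) a ⊆ C \ {q} := cc_subset ha
      refine ih _ (Q \ {q}) hQ.sdiff ?_ ⟨a, mem_cc _ _⟩ (con_cc hr a) (fun b hb => ?_)
      · have := Set.ncard_sdiff_singleton_add_one hqQ hQ
        omega
      · have hbQ : b ∉ Q := fun h => hb.2 ⟨h, fun h' => (hsub hb.1).2 h'⟩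
        have h3 : cc r (C \ Q) b = cc r (cc r (C \ {q}) a \ (Q \ {q})) b := by
          refine cc_eq ?_ (mem_cc _ _) (con_cc hr b) ?_
          · intro w hw
            have hw' := cc_subset hb hw
            exact ⟨(hsub hw'.1).1, fun h => hw'.2 ⟨h, (hsub hw'.1).2⟩⟩
          · intro u hu v hv huv
            have hu' := cc_subset hb hu
            have hvq : v ≠ q := fun h => hv.2 (h ▸ hqQ)
            refine cc_closed hu hu' ⟨?_, fun h => hv.2 h.1⟩ huv
            exact cc_closed hu'.1 (hsub hu'.1) ⟨hv.1, hvq⟩ huv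
        rw [← h3]
        exact h1 b ⟨(hsub hb.1).1, hbQ⟩
    · push Not at hq
      have hCQ : C \ Q = C := by
        ext w
        exact ⟨fun h => h.1, fun h => ⟨h, fun h' => hq w h' h⟩⟩
      obtain ⟨a, ha⟩ := hne
      have h2 := h1 a (by rw [hCQ]; exact ha)
      rw [hCQ, cc_eq subset_rfl ha hC (fun _ _ v hv _ => hv)] at h2
      exact h2.mono (by omega)

/-- the height bound -/
def hh (k : ℕ) : ℕ → ℕ → ℕ
  | 0, _ => 0
  | n + 1, m => k * hh k n (m + 1) + (k * m + 1)

/-- a model of a complete graph whose branch sets meet all sets of the list -/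
def LMod (r : V → V → Prop) (l : List (Set V)) (n : ℕ) (E : Set V) : Prop :=
  ∃ M : Fin n → Set V, Mod r n E M ∧ ∀ i, ∀ Z ∈ l, (M i ∩ Z).Nonempty

lemma exists_Q (hr : ∀ u v, r u v → r v u) {k : ℕ} (hC : Con r C) (hD : DP r k C) {a : V}
    (ha : a ∈ C) : ∀ l : List (Set V), (∀ Z ∈ l, (C ∩ Z).Nonempty) →
    ∃ Q ⊆ C, Con r Q ∧ a ∈ Q ∧ Q.Finite ∧ Q.ncard ≤ k * l.length + 1 ∧
      ∀ Z ∈ l, (Q ∩ Z).Nonempty := by
  intro l
  induction l with
  | nil =>
    intro _
    refine ⟨{a}, Set.singleton_subset_iff.2 ha, con_singleton r a, rfl, Set.finite_singleton a,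
      ?_, fun Z hZ => absurd hZ List.not_mem_nil⟩
    rw [Set.ncard_singleton]
    omega
  | cons Z l ih =>
    intro h
    obtain ⟨Q, hQ, hQc, haQ, hQf, hQn, hQl⟩ := ih (fun Z' hZ' => h Z' (List.mem_cons_of_mem _ hZ'))
    obtain ⟨z, hz, hzZ⟩ := h Z List.mem_cons_self
    obtain ⟨W, hW, hWc, haW, hzW, hWf, hWn⟩ := hD C subset_rfl hC a ha z hz
    refine ⟨Q ∪ W, Set.union_subset hQ hW, con_union hr hQc hWc haQ haW (Or.inl rfl), Or.inl haQ,
      hQf.union hWf, ?_, ?_⟩
    · refine (Set.ncard_union_le Q W).trans ?_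
      rw [List.length_cons, Nat.mul_add]
      omega
    · intro Z' hZ'
      rcases List.mem_cons.1 hZ' with rfl | hZ'
      · exact ⟨z, Or.inr hzW, hzZ⟩
      · obtain ⟨w, hw, hwZ⟩ := hQl Z' hZ'
        exact ⟨w, Or.inl hw, hwZ⟩

/-- balls in `C` around `Q` -/
def ball (r : V → V → Prop) (C Q : Set V) : ℕ → Set V
  | 0 => Q
  | j + 1 => ball r C Q j ∪ {v | v ∈ C ∧ ∃ u ∈ ball r C Q j, r u v}

lemma ball_sub (hQ : Q ⊆ C) : ∀ j, ball r C Q j ⊆ C := by
  intro j
  induction j with
  | zero => exact hQ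
  | succ j ih =>
    rintro w (hw | hw)
    · exact ih hw
    · exact hw.1

lemma ball_succ_sub (j : ℕ) : ball r C Q j ⊆ ball r C Q (j + 1) := Set.subset_union_left

lemma sub_ball : ∀ j, Q ⊆ ball r C Q j := by
  intro j
  induction j with
  | zero => exact subset_rfl
  | succ j ih => exact ih.trans (ball_succ_sub j)

lemma con_ball (hr : ∀ u v, r u v → r v u) (hQ : Con r Q) {a : V} (ha : a ∈ Q) :
    ∀ j, Con r (ball r C Q j) := by
  intro j
  induction j with
  | zero => exact hQ
  | succ j ih =>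
    refine con_of_star (a := a) (fun u hu => ?_)
    rcases hu with hu | ⟨huC, w, hw, hwu⟩
    · exact ⟨_, ball_succ_sub j, ih, sub_ball j ha, hu⟩
    · refine ⟨insert u (ball r C Q j), ?_, con_insert hr ih hw hwu, Or.inr (sub_ball j ha),
        Or.inl rfl⟩
      rintro x (rfl | hx)
      · exact Or.inr ⟨huC, w, hw, hwu⟩
      · exact ball_succ_sub j hx

lemma ball_fill {a : V} (ha : a ∈ Q) (hWC : W ⊆ C) (hW : Con r W) (haW : a ∈ W)
    (hWf : W.Finite) : ∀ j, W ⊆ ball r C Q j ∨ j + 1 ≤ (W ∩ ball r C Q j).ncard := by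
  intro j
  induction j with
  | zero =>
    right
    have h1 : a ∈ W ∩ ball r C Q 0 := ⟨haW, ha⟩
    have h2 := Set.ncard_ne_zero_of_mem h1 (hWf.inter_of_left _)
    omega
  | succ j ih =>
    rcases ih with ih | ih
    · exact Or.inl (ih.trans (ball_succ_sub j))
    · by_cases h : W ⊆ ball r C Q j
      · exact Or.inl (h.trans (ball_succ_sub j))
      · right
        obtain ⟨b, hb, hbB⟩ := Set.not_subset.1 h
        obtain ⟨u, hu, huB, v, hv, hvB, huv⟩ := exists_cross hW haW (sub_ball j ha) hb hbB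
        have h1 : insert v (W ∩ ball r C Q j) ⊆ W ∩ ball r C Q (j + 1) := by
          rintro x (rfl | hx)
          · exact ⟨hv, Or.inr ⟨hWC hv, u, huB, huv⟩⟩
          · exact ⟨hx.1, ball_succ_sub j hx.2⟩
        have h2 := Set.ncard_le_ncard h1 (hWf.inter_of_left _)
        rw [Set.ncard_insert_of_notMem (fun h => hvB h.2) (hWf.inter_of_left _)] at h2
        omega

lemma Mod.cons {n : ℕ} {M : Fin n → Set V} (hr : ∀ u v, r u v → r v u) (hM : Mod r n E M)
    (hEC : E ⊆ C)
    {B : Set V} (hBC : B ⊆ C) (hBne : B.Nonempty) (hB : Con r B) (hBE : Disjoint B E)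
    (hadj : ∀ i, ∃ a ∈ M i, ∃ b ∈ B, r b a) :
    Mod r (n + 1) C (Fin.cons B M) := by
  refine ⟨fun i => ?_, fun i => ?_, fun i => ?_, fun i j hij => ?_, fun i j hij => ?_⟩
  · refine Fin.cases ?_ (fun i => ?_) i
    · exact hBC
    · exact (hM.sub i).trans hEC
  · refine Fin.cases ?_ (fun i => ?_) i
    · exact hBne
    · exact hM.ne i
  · refine Fin.cases ?_ (fun i => ?_) i
    · exact hB
    · exact hM.con i
  · revert hij
    refine Fin.cases ?_ (fun i => ?_) i
    · refine Fin.cases ?_ (fun j => ?_) j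
      · exact fun h => absurd rfl h
      · exact fun _ => hBE.mono_right (hM.sub j)
    · refine Fin.cases ?_ (fun j => ?_) j
      · exact fun _ => (hBE.mono_right (hM.sub i)).symm
      · exact fun h => hM.disj i j (fun h' => h (h' ▸ rfl))
  · revert hij
    refine Fin.cases ?_ (fun i => ?_) i
    · refine Fin.cases ?_ (fun j => ?_) j
      · exact fun h => absurd rfl h
      · intro _
        obtain ⟨a, ha, b, hb, h⟩ := hadj j
        exact ⟨b, hb, a, ha, h⟩
    · refine Fin.cases ?_ (fun j => ?_) j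
      · intro _
        obtain ⟨a, ha, b, hb, h⟩ := hadj i
        exact ⟨a, ha, b, hb, hr _ _ h⟩
      · exact fun h => hM.adj i j (fun h' => h (h' ▸ rfl))

/-- either a complete minor whose branch sets meet all labels, or bounded elimination height down
to sets that miss a label -/
theorem elim_or_model (hr : ∀ u v, r u v → r v u) (k : ℕ) : ∀ (n : ℕ) (l : List (Set V))
    (C : Set V), DP r k C → Con r C → C.Nonempty →
    LMod r l n C ∨ El r (fun E => ∃ Z ∈ l, E ∩ Z = ∅) (hh k n l.length) C := by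
  intro n
  induction n with
  | zero =>
    intro l C _ _ _
    exact Or.inl ⟨fun i => i.elim0, ⟨fun i => i.elim0, fun i => i.elim0, fun i => i.elim0,
      fun i => i.elim0, fun i => i.elim0⟩, fun i => i.elim0⟩
  | succ n ih =>
    intro l C hD hC hne
    by_cases hmod : LMod r l (n + 1) C
    · exact Or.inl hmod
    right
    by_cases hmiss : ∃ Z ∈ l, C ∩ Z = ∅
    · exact El.of_leaf _ hmiss
    push Not at hmiss
    obtain ⟨a, ha⟩ := hne
    obtain ⟨Q, hQ, hQc, haQ, hQf, hQn, hQl⟩ := exists_Q hr hC hD ha l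
      (fun Z hZ => hmiss Z hZ)
    set H := hh k n (l.length + 1) with hH
    have hfull : C ⊆ ball r C Q k := by
      intro c hc
      obtain ⟨W, hW, hWc, haW, hcW, hWf, hWn⟩ := hD C subset_rfl hC a ha c hc
      rcases ball_fill haQ hW hWc haW hWf k with h | h
      · exact h hcW
      · have := Set.ncard_le_ncard (Set.inter_subset_left (s := W) (t := ball r C Q k)) hWf
        omega
    have claim : ∀ (t j : ℕ), j + t = k → ∀ E ⊆ C, Disjoint (ball r C Q j) E → Con r E →
        E.Nonempty → El r (fun E => ∃ Z ∈ l, E ∩ Z = ∅) (t * H) E := by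
      intro t
      induction t with
      | zero =>
        intro j hj E hE hdis _ hEne
        obtain ⟨e, he⟩ := hEne
        rw [Nat.add_zero] at hj
        subst hj
        exact absurd he (Set.disjoint_left.1 hdis (hfull (hE he)))
      | succ t iht =>
        intro j hj E hE hdis hEc hEne
        rcases ih ({v | ∃ u ∈ ball r C Q j, r u v} :: l) E (hD.mono hE) hEc hEne with h | h
        · exfalso
          obtain ⟨M, hM, hMl⟩ := h
          refine hmod ⟨Fin.cons (ball r C Q j) M, Mod.cons hr hM hE (ball_sub hQ j)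
            ⟨a, sub_ball j haQ⟩ (con_ball hr hQc haQ j) hdis (fun i => ?_), fun i Z hZ => ?_⟩
          · obtain ⟨v, hv, u, hu, huv⟩ := hMl i _ List.mem_cons_self
            exact ⟨v, hv, u, hu, huv⟩
          · refine Fin.cases ?_ (fun i => ?_) i
            · obtain ⟨w, hw, hwZ⟩ := hQl Z hZ
              exact ⟨w, sub_ball j hw, hwZ⟩
            · exact hMl i Z (List.mem_cons_of_mem _ hZ)
        · rw [show (t + 1) * H = H + t * H by ring]
          refine El.comp hr (D := E) (fun E' hE' hE'ne hE'c hleaf => ?_) _ E subset_rfl hEne hEc h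
          obtain ⟨Z, hZ, hEZ⟩ := hleaf
          rcases List.mem_cons.1 hZ with rfl | hZ
          · refine iht (j + 1) (by omega) E' (hE'.trans hE) ?_ hE'c hE'ne
            rw [Set.disjoint_left]
            rintro x (hx | hx) hxE
            · exact Set.disjoint_left.1 hdis hx (hE' hxE)
            · have : x ∈ E' ∩ {v | ∃ u ∈ ball r C Q j, r u v} := ⟨hxE, hx.2⟩
              rw [hEZ] at this
              exact this
          · exact El.of_leaf _ ⟨Z, hZ, hEZ⟩
    refine El.del hr (k * H) _ C Q hQf hQn ⟨a, ha⟩ hC (fun b hb => ?_)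
    refine claim k 0 (by omega) _ ((cc_subset hb).trans Set.sdiff_subset) ?_ (con_cc hr b)
      ⟨b, mem_cc _ _⟩
    rw [Set.disjoint_left]
    intro x hx hx'
    exact (cc_subset hb hx').2 hx

end SelfMinorPk
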