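import Pool.Agent.SelfMinorPk.Thick

/-!
# Graphs without induced paths on `k` vertices
-/

namespace SelfMinorPk

open Relation SelfMinor

universe u

variable {V : Type u} {r : V → V → Prop} {C D S U X Y : Set V}

/-- a geodesic to a point of the `n`-th sphere -/
lemma exists_geo {a : V} : ∀ (n : ℕ) (b : V),
    b ∈ ball r C {a} n → (∀ m < n, b ∉ ball r C {a} m) → ∃ p : ℕ → V, p 0 = a ∧ p n = b ∧
      (∀ i ≤ n, p i ∈ ball r C {a} i ∧ ∀ m < i, p i ∉ ball r C {a} m) ∧
      ∀ i < n, r (p i) (p (i + 1)) := by
  intro n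
  induction n with
  | zero =>
    intro b hb _
    have hba : b = a := hb
    subst hba
    refine ⟨fun _ => b, rfl, rfl, fun i hi => ?_, fun i hi => absurd hi (Nat.not_lt_zero i)⟩
    obtain rfl : i = 0 := Nat.le_zero.1 hi
    exact ⟨rfl, fun m hm => absurd hm (Nat.not_lt_zero m)⟩
  | succ n ih =>
    intro b hb hmin
    rcases hb with hb | ⟨hbC, u, hu, hub⟩
    · exact absurd hb (hmin n (Nat.lt_succ_self n))
    · have humin : ∀ m < n, u ∉ ball r C {a} m := by
        intro m hm h
        exact hmin (m + 1) (by omega) (Or.inr ⟨hbC, u, h, hub⟩)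
      obtain ⟨p, hp0, hpn, hp, hpr⟩ := ih u hu humin
      obtain ⟨q, hq1, hq2⟩ : ∃ q : ℕ → V, (∀ i ≤ n, q i = p i) ∧ q (n + 1) = b :=
        ⟨fun i => if i ≤ n then p i else b, fun i hi => if_pos hi, if_neg (by omega)⟩
      refine ⟨q, ?_, hq2, fun i hi => ?_, fun i hi => ?_⟩
      · rw [hq1 0 (Nat.zero_le n)]
        exact hp0
      · by_cases h : i ≤ n
        · rw [hq1 i h]
          exact hp i h
        · obtain rfl : i = n + 1 := by omega
          rw [hq2]
          exact ⟨Or.inr ⟨hbC, u, hu, hub⟩, hmin⟩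
      · by_cases h : i + 1 ≤ n
        · rw [hq1 i (by omega), hq1 (i + 1) h]
          exact hpr i (by omega)
        · have hin : i = n := by omega
          rw [hin, hq2, hq1 n le_rfl, hpn]
          exact hub

lemma dp_of_pathFree (G : SimpleGraph V) (k : ℕ) (U : Set V)
    (h : IsEmpty (SimpleGraph.pathGraph k ↪g G.induce U)) : DP G.Adj k U := by
  classical
  intro C hCU hC a ha b hb
  have hr : ∀ u v, G.Adj u v → G.Adj v u := fun u v h => h.symm
  have hball : ∃ n, b ∈ ball G.Adj C {a} n := by
    by_contra hcon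
    push Not at hcon
    obtain ⟨u, hu, huZ, v, hv, hvZ, huv⟩ := exists_cross (Z := ⋃ n, ball G.Adj C {a} n) hC ha
      (Set.mem_iUnion.2 ⟨0, rfl⟩) hb (fun h => by
        obtain ⟨n, hn⟩ := Set.mem_iUnion.1 h
        exact hcon n hn)
    obtain ⟨n, hn⟩ := Set.mem_iUnion.1 huZ
    exact hvZ (Set.mem_iUnion.2 ⟨n + 1, Or.inr ⟨hv, u, hn, huv⟩⟩)
  set n := Nat.find hball with hn
  have hbn : b ∈ ball G.Adj C {a} n := Nat.find_spec hball
  have hbm : ∀ m < n, b ∉ ball G.Adj C {a} m := fun m hm => Nat.find_min hball hm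
  obtain ⟨p, hp0, hpn, hp, hpr⟩ := exists_geo (C := C) n b hbn hbm
  have hballsub : ∀ j, ball G.Adj C {a} j ⊆ C := ball_sub (Set.singleton_subset_iff.2 ha)
  have hpC : ∀ i ≤ n, p i ∈ C := fun i hi => hballsub i (hp i hi).1
  by_cases hnk : n + 1 ≤ k
  · refine ⟨p '' Set.Iic n, ?_, ?_, ⟨0, Set.mem_Iic.2 (Nat.zero_le n), hp0⟩, ⟨n, Set.mem_Iic.2 le_rfl, hpn⟩,
      (Set.finite_Iic n).image p, ?_⟩
    · rintro _ ⟨i, hi, rfl⟩
      exact hpC i hi
    · have key : ∀ i ≤ n, Con G.Adj (p '' Set.Iic i) := by
        intro i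
        induction i with
        | zero =>
          intro _
          have : p '' Set.Iic 0 = {p 0} := by
            ext w
            constructor
            · rintro ⟨j, hj, rfl⟩
              rw [Set.mem_Iic, Nat.le_zero] at hj
              rw [hj]
              rfl
            · rintro rfl
              exact ⟨0, Set.mem_Iic.2 le_rfl, rfl⟩
          rw [this]
          exact con_singleton _ _
        | succ i ih =>
          intro hi
          have h1 : p '' Set.Iic (i + 1) = insert (p (i + 1)) (p '' Set.Iic i) := by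
            ext w
            constructor
            · rintro ⟨j, hj, rfl⟩
              rcases Nat.lt_or_eq_of_le (Set.mem_Iic.1 hj) with h | h
              · exact Or.inr ⟨j, Nat.lt_succ_iff.1 h, rfl⟩
              · rw [h]
                exact Or.inl rfl
            · rintro (rfl | ⟨j, hj, rfl⟩)
              · exact ⟨i + 1, Set.mem_Iic.2 le_rfl, rfl⟩
              · exact ⟨j, (Set.mem_Iic.1 hj).trans (Nat.le_succ i), rfl⟩
          rw [h1]
          exact con_insert hr (ih (by omega)) ⟨i, Set.mem_Iic.2 le_rfl, rfl⟩ (hpr i (by omega))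
      exact key n le_rfl
    · refine (Set.ncard_image_le (Set.finite_Iic n)).trans ?_
      rw [Set.ncard_eq_toFinset_card']
      simpa using hnk
  · exfalso
    have hcons : ∀ i j, i ≤ n → j ≤ n → G.Adj (p i) (p j) → j ≤ i + 1 := by
      intro i j hi hj hij
      by_contra hcon
      push Not at hcon
      refine (hp j hj).2 (i + 1) hcon (Or.inr ⟨hpC j hj, p i, (hp i hi).1, hij⟩)
    have hinj : ∀ i j, i ≤ n → j ≤ n → i < j → p i ≠ p j := by
      intro i j hi hj hij h
      exact (hp j hj).2 i hij (h ▸ (hp i hi).1)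
    refine h.false ⟨⟨fun i => ⟨p i, hCU (hpC i (by omega))⟩, ?_⟩, ?_⟩
    · intro i j hij
      have h1 : p i = p j := congrArg Subtype.val hij
      rcases lt_trichotomy i j with h2 | h2 | h2
      · exact absurd h1 (hinj i j (by omega) (by omega) h2)
      · exact h2
      · exact absurd h1.symm (hinj j i (by omega) (by omega) h2)
    · intro i j
      rw [SimpleGraph.pathGraph_adj]
      change G.Adj (p i) (p j) ↔ _
      constructor
      · intro hij
        have h1 := hcons i j (by omega) (by omega) hij
        have h2 := hcons j i (by omega) (by omega) hij.symm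
        have h3 : (i : ℕ) ≠ j := fun h => G.loopless.irrefl _ (by
          rw [h] at hij
          exact hij)
        omega
      · rintro (hij | hij)
        · rw [← hij]
          exact hpr i (by omega)
        · rw [← hij]
          exact (hpr j (by omega)).symm

end SelfMinorPk
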