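import Pool.Agent.SelfMinorPk.Decomp

/-!
# Rooted pieces and the rooted minor relation
-/

namespace SelfMinorPk

open Relation SelfMinor

universe u

/-- a finite set of vertices of a graph with `m` roots outside -/
structure Piece (m : ℕ) : Type (u + 1) where
  V : Type u
  r : V → V → Prop
  symm : ∀ u v, r u v → r v u
  C : Set V
  fin : C.Finite
  x : Fin m → V
  inj : Function.Injective x
  out : ∀ i, x i ∉ C

/-- rooted minors; adjacency between roots is not considered -/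
def Le {m : ℕ} (P Q : Piece.{u} m) : Prop :=
  ∃ θ : P.V → Set Q.V,
    (∀ v ∈ P.C, (θ v).Nonempty ∧ Con Q.r (θ v) ∧ θ v ⊆ Q.C) ∧
    (∀ i, Q.x i ∈ θ (P.x i) ∧ Con Q.r (θ (P.x i)) ∧ θ (P.x i) ⊆ insert (Q.x i) Q.C) ∧
    (∀ u ∈ P.C ∪ Set.range P.x, ∀ v ∈ P.C ∪ Set.range P.x, u ≠ v → Disjoint (θ u) (θ v)) ∧
    (∀ u ∈ P.C, ∀ v ∈ P.C ∪ Set.range P.x, P.r u v → u ≠ v → ∃ a ∈ θ u, ∃ b ∈ θ v, Q.r a b)

lemma Le.refl {m : ℕ} (P : Piece.{u} m) : Le P P := by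
  refine ⟨fun v => {v}, fun v hv => ⟨Set.singleton_nonempty v, con_singleton _ _,
    Set.singleton_subset_iff.2 hv⟩, fun i => ⟨rfl, con_singleton _ _,
    Set.singleton_subset_iff.2 (Or.inl rfl)⟩, fun u _ v _ huv => Set.disjoint_singleton.2 huv,
    fun u _ v _ huv _ => ⟨u, rfl, v, rfl, huv⟩⟩

lemma Le.trans {m : ℕ} {P Q R : Piece.{u} m} (h1 : Le P Q) (h2 : Le Q R) : Le P R := by
  obtain ⟨θ, a1, a2, a3, a4⟩ := h1
  obtain ⟨η, b1, b2, b3, b4⟩ := h2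
  have hsub : ∀ v ∈ P.C ∪ Set.range P.x, θ v ⊆ Q.C ∪ Set.range Q.x := by
    rintro v (hv | ⟨i, rfl⟩) w hw
    · exact Or.inl ((a1 v hv).2.2 hw)
    · rcases (a2 i).2.2 hw with h | h
      · exact Or.inr ⟨i, h.symm⟩
      · exact Or.inl h
  have hηne : ∀ w ∈ Q.C ∪ Set.range Q.x, (η w).Nonempty := by
    rintro w (hw | ⟨i, rfl⟩)
    · exact (b1 w hw).1
    · exact ⟨_, (b2 i).1⟩
  have hηc : ∀ w ∈ Q.C ∪ Set.range Q.x, Con R.r (η w) := by
    rintro w (hw | ⟨i, rfl⟩)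
    · exact (b1 w hw).2.1
    · exact (b2 i).2.1
  refine ⟨fun v => ⋃ w ∈ θ v, η w, fun v hv => ⟨?_, ?_, ?_⟩, fun i => ⟨?_, ?_, ?_⟩,
    fun u hu v hv huv => ?_, fun u hu v hv huv hne => ?_⟩
  · obtain ⟨w, hw⟩ := (a1 v hv).1
    obtain ⟨z, hz⟩ := (b1 w ((a1 v hv).2.2 hw)).1
    exact ⟨z, Set.mem_iUnion₂.2 ⟨w, hw, hz⟩⟩
  · refine con_biUnion (a1 v hv).2.1 (fun w hw => hηc w (Or.inl ((a1 v hv).2.2 hw)))
      (fun w hw w' hw' h hne => ?_)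
    exact b4 w ((a1 v hv).2.2 hw) w' (Or.inl ((a1 v hv).2.2 hw')) h hne
  · intro z hz
    obtain ⟨w, hw, hz⟩ := Set.mem_iUnion₂.1 hz
    exact (b1 w ((a1 v hv).2.2 hw)).2.2 hz
  · exact Set.mem_iUnion₂.2 ⟨Q.x i, (a2 i).1, (b2 i).1⟩
  · refine con_biUnion (a2 i).2.1 (fun w hw => hηc w (hsub _ (Or.inr ⟨i, rfl⟩) hw))
      (fun w hw w' hw' h hne => ?_)
    rcases (a2 i).2.2 hw with h1 | h1
    · rcases (a2 i).2.2 hw' with h2 | h2
      · exact absurd (h1.trans h2.symm) hne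
      · obtain ⟨a, ha, b, hb, hab⟩ := b4 w' h2 w (Or.inr ⟨i, h1.symm⟩) (Q.symm _ _ h) hne.symm
        exact ⟨b, hb, a, ha, R.symm _ _ hab⟩
    · exact b4 w h1 w' (hsub _ (Or.inr ⟨i, rfl⟩) hw') h hne
  · intro z hz
    obtain ⟨w, hw, hz⟩ := Set.mem_iUnion₂.1 hz
    rcases (a2 i).2.2 hw with h1 | h1
    · subst h1
      exact (b2 i).2.2 hz
    · exact Or.inr ((b1 w h1).2.2 hz)
  · rw [Set.disjoint_left]
    intro z hz hz'
    obtain ⟨w, hw, hz⟩ := Set.mem_iUnion₂.1 hz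
    obtain ⟨w', hw', hz'⟩ := Set.mem_iUnion₂.1 hz'
    have hne : w ≠ w' := fun h => Set.disjoint_left.1 (a3 u hu v hv huv) hw (h ▸ hw')
    exact Set.disjoint_left.1 (b3 w (hsub u hu hw) w' (hsub v hv hw') hne) hz hz'
  · obtain ⟨a, ha, b, hb, hab⟩ := a4 u hu v hv huv hne
    have hne' : a ≠ b := fun h =>
      Set.disjoint_left.1 (a3 u (Or.inl hu) v hv hne) ha (h ▸ hb)
    obtain ⟨c, hc, d, hd, hcd⟩ := b4 a ((a1 u hu).2.2 ha) b (hsub v hv hb) hab hne'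
    exact ⟨c, Set.mem_iUnion₂.2 ⟨a, ha, hc⟩, d, Set.mem_iUnion₂.2 ⟨b, hb, hd⟩, hcd⟩

instance {m : ℕ} : IsPreorder (Piece.{u} m) Le where
  refl := Le.refl
  trans _ _ _ := Le.trans

/-- the basic class: connected, short connections, all outer neighbours are roots -/
structure Basic (k : ℕ) {m : ℕ} (P : Piece.{u} m) : Prop where
  ne : P.C.Nonempty
  con : Con P.r P.C
  dp : DP P.r k P.C
  cl : ∀ u ∈ P.C, ∀ v, P.r u v → v ∈ P.C ∨ v ∈ Set.range P.x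

/-- all roots are outer neighbours -/
def WW (k s : ℕ) : Set (Piece.{u} s) :=
  {P | Basic k P ∧ ∀ i, ∃ u ∈ P.C, P.r u (P.x i)}

/-- bounded elimination height -/
def GG (k s h m : ℕ) : Set (Piece.{u} m) :=
  {P | Basic k P ∧ El P.r (fun X => (Nb P.r X).ncard < s) h P.C}

/-- from universality -/
lemma le_of_univ {T m : ℕ} {P Q : Piece.{u} m} (hT : P.C.ncard ≤ T)
    (hQ : Univ Q.r T (Set.range Q.x) Q.C) : Le P Q := by
  classical
  obtain ⟨B, N, hB, hBd, hN, hNB⟩ := hQ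
  have hcard : P.fin.toFinset.card ≤ T := by
    rw [← Set.ncard_eq_toFinset_card _ P.fin]
    exact hT
  set e : ∀ v, v ∈ P.C → Fin T := fun v hv =>
    Fin.castLE hcard (P.fin.toFinset.equivFin ⟨v, P.fin.mem_toFinset.2 hv⟩) with he
  have hinj : ∀ u (hu : u ∈ P.C) v (hv : v ∈ P.C), u ≠ v → e u hu ≠ e v hv := by
    intro u hu v hv hne h
    have h1 := Fin.castLE_injective hcard h
    exact hne (congrArg Subtype.val (P.fin.toFinset.equivFin.injective h1))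
  set θ : P.V → Set Q.V := fun v => if h : v ∈ P.C then N (e v h)
    else {w | ∃ i, P.x i = v ∧ w ∈ B (Q.x i)} with hθ
  have t1 : ∀ v (hv : v ∈ P.C), θ v = N (e v hv) := fun v hv => dif_pos hv
  have t2 : ∀ i, θ (P.x i) = B (Q.x i) := by
    intro i
    have : θ (P.x i) = {w | ∃ j, P.x j = P.x i ∧ w ∈ B (Q.x j)} := dif_neg (P.out i)
    rw [this]
    ext w
    constructor
    · rintro ⟨j, hj, hw⟩
      rwa [P.inj hj] at hw
    · exact fun hw => ⟨i, rfl, hw⟩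
  refine ⟨θ, fun v hv => ?_, fun i => ?_, ?_, ?_⟩
  · rw [t1 v hv]
    exact ⟨hN.ne _, hN.con _, hN.sub _⟩
  · rw [t2 i]
    exact hB _ ⟨i, rfl⟩
  · rintro u (hu | ⟨i, rfl⟩) v (hv | ⟨j, rfl⟩) huv
    · rw [t1 u hu, t1 v hv]
      exact hN.disj _ _ (hinj u hu v hv huv)
    · rw [t1 u hu, t2 j]
      exact (hNB _ _ ⟨j, rfl⟩).1
    · rw [t1 v hv, t2 i]
      exact (hNB _ _ ⟨i, rfl⟩).1.symm
    · rw [t2 i, t2 j]
      exact hBd _ ⟨i, rfl⟩ _ ⟨j, rfl⟩ (fun h => huv (congrArg P.x (Q.inj h)))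
  · rintro u hu v (hv | ⟨j, rfl⟩) _ huv
    · rw [t1 u hu, t1 v hv]
      exact hN.adj _ _ (hinj u hu v hv huv)
    · rw [t1 u hu, t2 j]
      exact (hNB _ _ ⟨j, rfl⟩).2

/-- constant subsequences -/
lemma exists_const_subseq {α : Type*} [Finite α] (f : ℕ → α) :
    ∃ g : ℕ ↪o ℕ, ∀ n, f (g n) = f (g 0) := by
  have h : (Set.univ : Set α).PartiallyWellOrderedOn (· = ·) :=
    (Set.toFinite _).partiallyWellOrderedOn
  obtain ⟨g, hg⟩ := h.exists_monotone_subseq (f := f) (fun n => Set.mem_univ _)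
  exact ⟨g, fun n => (hg 0 n (Nat.zero_le n)).symm⟩

end SelfMinorPk
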