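import Pool.Agent.SelfMinorPk.Basic

/-!
# Rooted clique minors

`rooted`: if a finite graph has a clique minor of order at least `2 s + T` and no connected set
outside the `s` roots that contains a branch set has fewer than `s` outer neighbours, then there
are disjoint connected sets rooted at the roots and `T` further ones, pairwise adjacent and
adjacent to all the rooted ones.
-/

namespace SelfMinorPk

open Relation SelfMinor

universe u

variable {V : Type u} {r r' : V → V → Prop} {C D F L S X Y Z W : Set V}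

/-- `n` pairwise disjoint, pairwise adjacent connected subsets of `D` -/
structure Mod (r : V → V → Prop) (n : ℕ) (D : Set V) (M : Fin n → Set V) : Prop where
  sub : ∀ i, M i ⊆ D
  ne : ∀ i, (M i).Nonempty
  con : ∀ i, Con r (M i)
  disj : ∀ i j, i ≠ j → Disjoint (M i) (M j)
  adj : ∀ i j, i ≠ j → ∃ a ∈ M i, ∃ b ∈ M j, r a b

/-- disjoint connected sets rooted at the elements of `S` and `T` further ones in `D`, pairwise
adjacent and adjacent to the rooted ones -/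
def Univ (r : V → V → Prop) (T : ℕ) (S D : Set V) : Prop :=
  ∃ (B : V → Set V) (N : Fin T → Set V),
    (∀ x ∈ S, x ∈ B x ∧ Con r (B x) ∧ B x ⊆ insert x D) ∧
    (∀ x ∈ S, ∀ y ∈ S, x ≠ y → Disjoint (B x) (B y)) ∧
    Mod r T D N ∧
    (∀ i, ∀ x ∈ S, Disjoint (N i) (B x) ∧ ∃ a ∈ N i, ∃ b ∈ B x, r a b)

/-- the graph on `L ∪ F` with `F` made complete -/
def loc (r : V → V → Prop) (L F : Set V) (a b : V) : Prop :=
  (r a b ∨ (a ∈ F ∧ b ∈ F)) ∧ a ∈ L ∪ F ∧ b ∈ L ∪ F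

lemma loc_symm (hr : ∀ u v, r u v → r v u) : ∀ u v, loc r L F u v → loc r L F v u := by
  intro u v h
  exact ⟨h.1.imp (hr _ _) (fun h => ⟨h.2, h.1⟩), h.2.2, h.2.1⟩

lemma con_of_loc {X : Set V} (hX : Con (loc r L F) X) {f : V} (hf : ∀ a ∈ X, a ∈ F → a = f) :
    Con r X := by
  refine Con.congr (fun u hu v hv h hne => ?_) hX
  rcases h.1 with h1 | h1
  · exact h1
  · exact absurd ((hf u hu h1.1).trans (hf v hv h1.2).symm) hne

/-- a connected set restricted to `L ∪ Nb L` is connected when `Nb L` is made complete -/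
lemma con_restrict (hr : ∀ u v, r u v → r v u) {X : Set V} (hX : Con r X) :
    Con (loc r L (Nb r L)) (X ∩ (L ∪ Nb r L)) := by
  set F := Nb r L with hF
  by_cases hFX : ∃ f ∈ X, f ∈ F
  · obtain ⟨f, hfX, hfF⟩ := hFX
    have key : ∀ u, ReflTransGen (fun x y => r x y ∧ x ∈ X ∧ y ∈ X) f u → u ∈ L ∪ F →
        ReflTransGen (fun x y => loc r L F x y ∧ x ∈ X ∩ (L ∪ F) ∧ y ∈ X ∩ (L ∪ F)) f u := by
      intro u hu
      induction hu with
      | refl => exact fun _ => .refl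
      | @tail b c h1 h2 ih =>
        intro hc
        by_cases hcF : c ∈ F
        · exact .single ⟨⟨Or.inr ⟨hfF, hcF⟩, Or.inr hfF, hc⟩, ⟨hfX, Or.inr hfF⟩, ⟨h2.2.2, hc⟩⟩
        · have hcL : c ∈ L := hc.resolve_right hcF
          have hb : b ∈ L ∪ F := by
            by_cases hbL : b ∈ L
            · exact Or.inl hbL
            · exact Or.inr ⟨hbL, c, hcL, hr _ _ h2.1⟩
          exact (ih hb).tail ⟨⟨Or.inl h2.1, hb, hc⟩, ⟨h2.2.1, hb⟩, ⟨h2.2.2, hc⟩⟩
    refine con_of_star (a := f) (fun u hu => ?_)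
    have h1 := key u (hX f hfX u hu.1) hu.2
    refine ⟨cc (loc r L F) (X ∩ (L ∪ F)) f, cc_subset ⟨hfX, Or.inr hfF⟩,
      con_cc (loc_symm hr) f, mem_cc _ _, h1⟩
  · push Not at hFX
    intro u hu v hv
    have hsub : X ⊆ L := con_sub_of_nb hX hu.1 (hu.2.resolve_right (hFX u hu.1)) hFX
    exact rtg_mono (fun a b h => ⟨⟨Or.inl h.1, Or.inl (hsub h.2.1), Or.inl (hsub h.2.2)⟩,
      ⟨h.2.1, Or.inl (hsub h.2.1)⟩, ⟨h.2.2, Or.inl (hsub h.2.2)⟩⟩) (hX u hu.1 v hv.1)

/-- if a connected set meets `L` then it is in `L` or meets `Nb L` -/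
lemma meets_nb (hC : Con r C) {a b : V} (ha : a ∈ C) (haL : a ∈ L) (hb : b ∈ C) (hbL : b ∉ L) :
    ∃ f ∈ C, f ∈ Nb r L := by
  obtain ⟨u, hu, huL, v, hv, hvL, huv⟩ := exists_cross hC ha haL hb hbL
  exact ⟨v, hv, hvL, u, huL, huv⟩

lemma Mod.meets {n : ℕ} {M : Fin n → Set V} (hM : Mod r n D M)
    {j : Fin n} (hj : M j ⊆ L) (i : Fin n) : (M i ∩ (L ∪ Nb r L)).Nonempty := by
  by_cases hij : i = j
  · subst hij
    obtain ⟨a, ha⟩ := hM.ne i
    exact ⟨a, ha, Or.inl (hj ha)⟩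
  · obtain ⟨a, ha, b, hb, hab⟩ := hM.adj j i (Ne.symm hij)
    by_cases hbL : b ∈ L
    · exact ⟨b, hb, Or.inl hbL⟩
    · exact ⟨b, hb, Or.inr ⟨hbL, a, hj ha, hab⟩⟩

/-- restricting a model -/
lemma Mod.restrict (hr : ∀ u v, r u v → r v u) {n : ℕ} {M : Fin n → Set V} (hM : Mod r n D M)
    {j : Fin n} (hj : M j ⊆ L) :
    Mod (loc r L (Nb r L)) n (L ∪ Nb r L) (fun i => M i ∩ (L ∪ Nb r L)) := by
  refine ⟨fun i => Set.inter_subset_right, fun i => hM.meets hj i,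
    fun i => con_restrict hr (hM.con i), fun i k hik => ?_, fun i k hik => ?_⟩
  · exact (hM.disj i k hik).mono Set.inter_subset_left Set.inter_subset_left
  · obtain ⟨a, ha, b, hb, hab⟩ := hM.adj i k hik
    have hmeet : ∀ i, ∀ c ∈ M i, c ∉ L ∪ Nb r L → ∃ f ∈ M i, f ∈ Nb r L := by
      intro i c hc hcL
      obtain ⟨d, hd, hdL⟩ := hM.meets hj i
      rcases hdL with hdL | hdF
      · exact meets_nb (hM.con i) hd hdL hc (fun h => hcL (Or.inl h))
      · exact ⟨d, hd, hdF⟩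
    by_cases haW : a ∈ L ∪ Nb r L
    · by_cases hbW : b ∈ L ∪ Nb r L
      · exact ⟨a, ⟨ha, haW⟩, b, ⟨hb, hbW⟩, Or.inl hab, haW, hbW⟩
      · have haF : a ∈ Nb r L := by
          refine haW.resolve_left (fun haL => hbW (Or.inr ⟨fun h => hbW (Or.inl h), a, haL, hab⟩))
        obtain ⟨f, hf, hfF⟩ := hmeet k b hb hbW
        exact ⟨a, ⟨ha, haW⟩, f, ⟨hf, Or.inr hfF⟩, Or.inr ⟨haF, hfF⟩, haW, Or.inr hfF⟩
    · obtain ⟨f, hf, hfF⟩ := hmeet i a ha haW
      by_cases hbW : b ∈ L ∪ Nb r L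
      · have hbF : b ∈ Nb r L := by
          refine hbW.resolve_left (fun hbL =>
            haW (Or.inr ⟨fun h => haW (Or.inl h), b, hbL, hr _ _ hab⟩))
        exact ⟨f, ⟨hf, Or.inr hfF⟩, b, ⟨hb, hbW⟩, Or.inr ⟨hfF, hbF⟩, Or.inr hfF, hbW⟩
      · obtain ⟨g, hg, hgF⟩ := hmeet k b hb hbW
        exact ⟨f, ⟨hf, Or.inr hfF⟩, g, ⟨hg, Or.inr hgF⟩, Or.inr ⟨hfF, hgF⟩, Or.inr hfF,
          Or.inr hgF⟩

/-- what a connected subset of `L` in the local graph that contains a restricted branch set is in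
the old graph -/
lemma restrict_hyp {n : ℕ} {M : Fin n → Set V} (hM : Mod r n D M)
    {j : Fin n} (hj : M j ⊆ L) {X : Set V} (hXL : X ⊆ L) (hX : Con (loc r L (Nb r L)) X)
    {i : Fin n} (hi : M i ∩ (L ∪ Nb r L) ⊆ X) :
    Con r X ∧ M i ⊆ X ∧ Nb (loc r L (Nb r L)) X = Nb r X := by
  have hXF : ∀ a ∈ X, a ∉ Nb r L := fun a ha h => h.1 (hXL ha)
  refine ⟨?_, ?_, ?_⟩
  · refine Con.congr (fun u hu v hv h _ => ?_) hX
    rcases h.1 with h1 | h1
    · exact h1
    · exact absurd h1.1 (hXF u hu)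
  · obtain ⟨a, ha, haL⟩ := hM.meets hj i
    have haX : a ∈ X := hi ⟨ha, haL⟩
    have hsub : M i ⊆ L := con_sub_of_nb (hM.con i) ha (hXL haX) (fun v hv hvF =>
      hXF v (hi ⟨hv, Or.inr hvF⟩) hvF)
    exact fun v hv => hi ⟨hv, Or.inl (hsub hv)⟩
  · ext v
    constructor
    · rintro ⟨hv, u, hu, huv⟩
      refine ⟨hv, u, hu, ?_⟩
      rcases huv.1 with h1 | h1
      · exact h1
      · exact absurd h1.1 (hXF u hu)
    · rintro ⟨hv, u, hu, huv⟩
      refine ⟨hv, u, hu, Or.inl huv, Or.inl (hXL hu), ?_⟩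
      by_cases hvL : v ∈ L
      · exact Or.inl hvL
      · exact Or.inr ⟨hvL, u, hXL hu, huv⟩

/-- the graph without `L` -/
def del (r : V → V → Prop) (L : Set V) (a b : V) : Prop := r a b ∧ a ∉ L ∧ b ∉ L

lemma con_del_disjoint {X : Set V} (hX : Con (del r L) X) {f : V} (hf : f ∈ X) (hfL : f ∉ L) :
    Disjoint X L := by
  rw [Set.disjoint_left]
  intro v hv
  exact rtg_closed (Z := Lᶜ) (fun _ _ _ h => h.1.2.2) hfL (hX f hf v hv)

lemma con_del {X : Set V} (hX : Con (del r L) X) : Con r X :=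
  Con.mono (fun _ _ h => h.1) hX

/-- the linkage from the roots to the outer neighbours of `L` -/
lemma exists_link (hr : ∀ u v, r u v → r v u) (hfin : (D ∪ S).Finite) (hSD : Disjoint S D)
    (hW : ∀ u v, r u v → u ∈ D ∪ S ∧ v ∈ D ∪ S) (hL : L ⊆ D) (hLc : Con r L)
    {l : V} (hl : l ∈ L) (hyp : ∀ X ⊆ D, Con r X → L ⊆ X → S.ncard ≤ (Nb r X).ncard)
    (hcard : (Nb r L).ncard = S.ncard) :
    ∃ A : V → Set V, (∀ f ∈ Nb r L, f ∈ A f ∧ Con r (A f) ∧ Disjoint (A f) L ∧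
      (A f ∩ S).Nonempty ∧ A f ⊆ D ∪ S) ∧
      ∀ f ∈ Nb r L, ∀ g ∈ Nb r L, f ≠ g → Disjoint (A f) (A g) := by
  classical
  have hNsub : ∀ X : Set V, Nb r X ⊆ D ∪ S := by
    rintro X v ⟨-, u, -, huv⟩
    exact (hW u v huv).2
  have hFfin : (Nb r L).Finite := hfin.subset (hNsub L)
  have hSfin : S.Finite := hfin.subset Set.subset_union_right
  have hLD : ∀ v ∈ L, v ∉ S := fun v hv hvS => Set.disjoint_left.1 hSD hvS (hL hv)
  set q := del r L with hq
  have hqs : ∀ u v, q u v → q v u := fun u v h => ⟨hr _ _ h.1, h.2.2, h.2.1⟩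
  have hmen : Linked q (hSfin.toFinset : Set V) (hFfin.toFinset : Set V) (Nb r L).ncard := by
    refine menger hqs hSfin.toFinset hFfin.toFinset _ (fun X hX => ?_)
    by_contra hlt
    push Not at hlt
    rw [Set.Finite.coe_toFinset, Set.Finite.coe_toFinset] at hX
    set Y : Set V := (X : Set V) \ L with hY
    set L' : Set V := cc r Yᶜ l with hL'
    have hlY : l ∈ Yᶜ := fun h => h.2 hl
    have hLL' : L ⊆ L' := con_subset_cc hLc (fun v hv h => h.2 hv) hl
    set Z : Set V := L ∪ {v | ∃ f ∈ Nb r L, f ∉ (X : Set V) ∧ Reach q X f v} with hZ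
    have hL'Z : L' ⊆ Z := by
      intro v hv
      refine rtg_closed (Z := Z) (fun a ha b hab => ?_) (Or.inl hl) hv
      obtain ⟨hab, haY, hbY⟩ := hab
      by_cases hbL : b ∈ L
      · exact Or.inl hbL
      · have hbX : b ∉ (X : Set V) := fun h => hbY ⟨h, hbL⟩
        rcases ha with ha | ⟨f, hf, hfX, hfa⟩
        · exact Or.inr ⟨b, ⟨hbL, a, ha, hab⟩, hbX, .refl⟩
        · have haX : a ∉ (X : Set V) := hfa.notMem hfX
          have haL : a ∉ L := rtg_closed (Z := Lᶜ) (fun _ _ _ h => h.1.2.2) hf.1 hfa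
          exact Or.inr ⟨f, hf, hfX, hfa.tail ⟨⟨hab, haL, hbL⟩, haX, hbX⟩⟩
    have hL'S : ∀ v ∈ L', v ∉ S := by
      intro v hv hvS
      rcases hL'Z hv with h | ⟨f, hf, hfX, hfv⟩
      · exact hLD v h hvS
      · have hvX : v ∉ (X : Set V) := hfv.notMem hfX
        exact hX v hvS hvX f hf (hfv.symm hqs)
    have hL'D : L' ⊆ D := by
      intro v hv
      have : v ∈ D ∪ S := by
        refine rtg_closed (Z := D ∪ S) (fun a _ b hab => (hW _ _ hab.1).2) (Or.inl (hL hl)) hv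
      exact this.resolve_right (hL'S v hv)
    have h1 := hyp L' hL'D (con_cc hr l) hLL'
    have h2 : Nb r L' ⊆ (X : Set V) := by
      rintro v ⟨hv, u, hu, huv⟩
      by_contra hvX
      exact hv (cc_closed hu (cc_subset hlY hu) (fun h => hvX h.1) huv)
    have h3 : (Nb r L').ncard ≤ X.card := by
      rw [← Set.ncard_coe_finset X]
      exact Set.ncard_le_ncard h2 X.finite_toSet
    omega
  rw [Set.ncard_eq_toFinset_card _ hFfin] at hmen
  obtain ⟨c, hc1, hc2⟩ := Linked.index hmen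
  refine ⟨c, fun f hf => ?_, fun f hf g hg => hc2 f (hFfin.mem_toFinset.2 hf) g
    (hFfin.mem_toFinset.2 hg)⟩
  obtain ⟨h1, h2, h3⟩ := hc1 f (hFfin.mem_toFinset.2 hf)
  rw [Set.Finite.coe_toFinset] at h3
  refine ⟨h2, con_del h1, con_del_disjoint h1 h2 hf.1, h3, ?_⟩
  intro v hv
  exact rtg_closed (Z := D ∪ S) (fun a _ b hab => (hW _ _ hab.1.1).2) (hNsub L hf) (h1 f h2 v hv)

lemma case1 (hr : ∀ u v, r u v → r v u) (hfin : (D ∪ S).Finite) (hSD : Disjoint S D)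
    (hW : ∀ u v, r u v → u ∈ D ∪ S ∧ v ∈ D ∪ S) (hL : L ⊆ D) (hLc : Con r L)
    {l : V} (hl : l ∈ L) (hyp : ∀ X ⊆ D, Con r X → L ⊆ X → S.ncard ≤ (Nb r X).ncard)
    (hcard : (Nb r L).ncard = S.ncard) {T : ℕ}
    (hU : Univ (loc r L (Nb r L)) T (Nb r L) L) : Univ r T S D := by
  classical
  obtain ⟨A, hA, hAd⟩ := exists_link hr hfin hSD hW hL hLc hl hyp hcard
  obtain ⟨B, N, hB, hBd, hN, hNB⟩ := hU
  have hSfin : S.Finite := hfin.subset Set.subset_union_right
  have hmem : ∀ f, ∃ x, f ∈ Nb r L → x ∈ A f ∧ x ∈ S := by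
    intro f
    by_cases hf : f ∈ Nb r L
    · obtain ⟨x, hx⟩ := (hA f hf).2.2.2.1
      exact ⟨x, fun _ => hx⟩
    · exact ⟨f, fun h => absurd h hf⟩
  choose g hg using hmem
  have hinj : Set.InjOn g (Nb r L) := by
    intro f hf f' hf' h
    by_contra hne
    exact Set.disjoint_left.1 (hAd f hf f' hf' hne) (hg f hf).1 (h ▸ (hg f' hf').1)
  have himg : g '' Nb r L = S := by
    refine Set.eq_of_subset_of_ncard_le ?_ ?_ hSfin
    · rintro _ ⟨f, hf, rfl⟩
      exact (hg f hf).2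
    · rw [Set.InjOn.ncard_image hinj, hcard]
  have hphi : ∀ x, ∃ f, x ∈ S → f ∈ Nb r L ∧ g f = x := by
    intro x
    by_cases hx : x ∈ S
    · rw [← himg] at hx
      obtain ⟨f, hf, hfx⟩ := hx
      exact ⟨f, fun _ => ⟨hf, hfx⟩⟩
    · exact ⟨x, fun h => absurd h hx⟩
  choose φ hφ using hphi
  have hAS : ∀ f ∈ Nb r L, ∀ y ∈ A f, y ∈ S → y = g f := by
    intro f hf y hy hyS
    obtain ⟨hf', hgf'⟩ := hφ y hyS
    by_cases hff : f = φ y
    · rw [hff, hgf']
    · have h5 := (hg _ hf').1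
      rw [hgf'] at h5
      exact absurd h5 (Set.disjoint_left.1 (hAd f hf _ hf' hff) hy)
  have hφinj : ∀ x ∈ S, ∀ y ∈ S, x ≠ y → φ x ≠ φ y := by
    intro x hx y hy hxy h
    exact hxy ((hφ x hx).2.symm.trans (h ▸ (hφ y hy).2))
  have hBL : ∀ f ∈ Nb r L, ∀ v ∈ B f, v = f ∨ v ∈ L := fun f hf v hv => (hB f hf).2.2 hv
  have hAB : ∀ f ∈ Nb r L, ∀ g ∈ Nb r L, f ≠ g → Disjoint (A f) (B g) := by
    intro f hf g hg hfg
    rw [Set.disjoint_left]
    intro v hv hvB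
    rcases hBL g hg v hvB with rfl | hvL
    · exact Set.disjoint_left.1 (hAd f hf v hg hfg) hv (hA v hg).1
    · exact Set.disjoint_left.1 (hA f hf).2.2.1 hv hvL
  refine ⟨fun x => A (φ x) ∪ B (φ x), N, fun x hx => ?_, fun x hx y hy hxy => ?_, ?_,
    fun i x hx => ?_⟩
  · obtain ⟨hf, hgf⟩ := hφ x hx
    refine ⟨Or.inl (by
      have := (hg _ hf).1
      rwa [hgf] at this), ?_, ?_⟩
    · refine con_union hr (hA _ hf).2.1 (con_of_loc (hB _ hf).2.1 (f := φ x) ?_) (hA _ hf).1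
        (hB _ hf).1 (Or.inl rfl)
      intro a ha haF
      rcases hBL _ hf a ha with h | h
      · exact h
      · exact absurd h haF.1
    · rintro v (hv | hv)
      · rcases (hA _ hf).2.2.2.2 hv with h | h
        · exact Or.inr h
        · exact Or.inl ((hAS _ hf v hv h).trans hgf)
      · rcases hBL _ hf v hv with h | h
        · subst h
          have h1 := (hA _ hf).1
          rcases (hA _ hf).2.2.2.2 h1 with h | h
          · exact Or.inr h
          · exact Or.inl ((hAS _ hf _ h1 h).trans hgf)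
        · exact Or.inr (hL h)
  · have hf := (hφ x hx).1
    have hf' := (hφ y hy).1
    have hne := hφinj x hx y hy hxy
    rw [Set.disjoint_union_left, Set.disjoint_union_right, Set.disjoint_union_right]
    exact ⟨⟨hAd _ hf _ hf' hne, hAB _ hf _ hf' hne⟩, (hAB _ hf' _ hf hne.symm).symm,
      hBd _ hf _ hf' hne⟩
  · refine ⟨fun i => (hN.sub i).trans hL, hN.ne, fun i => ?_, hN.disj, fun i j hij => ?_⟩
    · refine Con.congr (fun u hu v _ h _ => ?_) (hN.con i)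
      rcases h.1 with h1 | h1
      · exact h1
      · exact absurd (hN.sub i hu) h1.1.1
    · obtain ⟨a, ha, b, hb, hab⟩ := hN.adj i j hij
      refine ⟨a, ha, b, hb, ?_⟩
      rcases hab.1 with h1 | h1
      · exact h1
      · exact absurd (hN.sub i ha) h1.1.1
  · have hf := (hφ x hx).1
    obtain ⟨hd, a, ha, b, hb, hab⟩ := hNB i (φ x) hf
    refine ⟨?_, a, ha, b, Or.inr hb, ?_⟩
    · rw [Set.disjoint_union_right]
      exact ⟨((hA _ hf).2.2.1.mono_right (hN.sub i)).symm, hd⟩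
    · rcases hab.1 with h1 | h1
      · exact h1
      · exact absurd (hN.sub i ha) h1.1.1

end SelfMinorPk
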