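import Pool.Agent.SelfMinorPk.Wqo

/-!
# Infinitely many finite components attached to the same finite set
-/

namespace SelfMinorPk

open Relation SelfMinor

universe u

variable {V : Type u} {r : V → V → Prop} {C D S U X Y : Set V}

/-- a model of the graph in the graph minus `x` -/
def SM (r : V → V → Prop) (x : V) : Prop :=
  ∃ B : V → Set V, (∀ v, (B v).Nonempty ∧ Con r (B v)) ∧ (∀ u v, u ≠ v → Disjoint (B u) (B v)) ∧
    (∀ u v, r u v → u ≠ v → ∃ a ∈ B u, ∃ b ∈ B v, r a b) ∧ ∀ v, x ∉ B v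

/-- the shift along a sequence of pieces -/
theorem shift (hr : ∀ u v, r u v → r v u) {s : ℕ} (x : Fin s → V) (hx : Function.Injective x)
    (C : ℕ → Set V) (hne : ∀ j, (C j).Nonempty) (hfin : ∀ j, (C j).Finite)
    (hdis : ∀ i j, i ≠ j → Disjoint (C i) (C j)) (hout : ∀ j a, x a ∉ C j)
    (hcl : ∀ j, ∀ u ∈ C j, ∀ v, r u v → v ∈ C j ∨ v ∈ Set.range x)
    (hle : ∀ j, Le (⟨V, r, hr, C j, hfin j, x, hx, hout j⟩ : Piece.{u} s)
      ⟨V, r, hr, C (j + 1), hfin (j + 1), x, hx, hout (j + 1)⟩) :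
    ∃ y, y ∈ C 0 ∧ SM r y := by
  obtain ⟨y, hy⟩ := hne 0
  refine ⟨y, hy, ?_⟩
  choose η b1 b2 b3 b4 using hle
  have c1 : ∀ j, ∀ u ∈ C j, (η j u).Nonempty ∧ Con r (η j u) ∧ η j u ⊆ C (j + 1) := b1
  have c2 : ∀ j a, x a ∈ η j (x a) ∧ Con r (η j (x a)) ∧ η j (x a) ⊆ insert (x a) (C (j + 1)) :=
    b2
  have c3 : ∀ j, ∀ u ∈ C j ∪ Set.range x, ∀ v ∈ C j ∪ Set.range x, u ≠ v →
      Disjoint (η j u) (η j v) := b3
  have c4 : ∀ j, ∀ u ∈ C j, ∀ v ∈ C j ∪ Set.range x, r u v → u ≠ v →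
      ∃ a ∈ η j u, ∃ b ∈ η j v, r a b := b4
  have huniq : ∀ i j v, v ∈ C i → v ∈ C j → i = j := by
    intro i j v hi hj
    by_contra hne
    exact Set.disjoint_left.1 (hdis i j hne) hi hj
  set B : V → Set V := fun v => {w | (∃ j, v ∈ C j ∧ w ∈ η j v) ∨
    (∃ a, v = x a ∧ (w = v ∨ ∃ j, w ∈ η j v)) ∨
    ((∀ a, v ≠ x a) ∧ (∀ j, v ∉ C j) ∧ w = v)} with hB
  have t1 : ∀ j, ∀ v ∈ C j, B v = η j v := by
    intro j v hv
    ext w
    constructor
    · rintro (⟨i, hi, hw⟩ | ⟨a, rfl, -⟩ | ⟨-, h, -⟩)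
      · rw [huniq j i v hv hi]
        exact hw
      · exact absurd hv (hout j a)
      · exact absurd hv (h j)
    · exact fun hw => Or.inl ⟨j, hv, hw⟩
  have t2 : ∀ a, B (x a) = insert (x a) (⋃ j, η j (x a)) := by
    intro a
    ext w
    constructor
    · rintro (⟨i, hi, -⟩ | ⟨b, -, hw⟩ | ⟨h, -, -⟩)
      · exact absurd hi (hout i a)
      · rcases hw with hw | ⟨j, hw⟩
        · exact Or.inl hw
        · exact Or.inr (Set.mem_iUnion.2 ⟨j, hw⟩)
      · exact absurd rfl (h a)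
    · rintro (hw | hw)
      · exact Or.inr (Or.inl ⟨a, rfl, Or.inl hw⟩)
      · exact Or.inr (Or.inl ⟨a, rfl, Or.inr (Set.mem_iUnion.1 hw)⟩)
  have t3 : ∀ v, (∀ a, v ≠ x a) → (∀ j, v ∉ C j) → B v = {v} := by
    intro v h1 h2
    ext w
    constructor
    · rintro (⟨i, hi, -⟩ | ⟨b, hb, -⟩ | ⟨-, -, hw⟩)
      · exact absurd hi (h2 i)
      · exact absurd hb (h1 b)
      · exact hw
    · exact fun hw => Or.inr (Or.inr ⟨h1, h2, hw⟩)
  have hcase : ∀ v, (∃ j, v ∈ C j) ∨ (∃ a, v = x a) ∨ ((∀ a, v ≠ x a) ∧ ∀ j, v ∉ C j) := by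
    intro v
    by_cases h1 : ∃ j, v ∈ C j
    · exact Or.inl h1
    · by_cases h2 : ∃ a, v = x a
      · exact Or.inr (Or.inl h2)
      · push Not at h1 h2
        exact Or.inr (Or.inr ⟨h2, h1⟩)
  have t4 : ∀ a, ∀ w ∈ B (x a), w = x a ∨ ∃ j, w ∈ C (j + 1) ∧ w ∈ η j (x a) := by
    intro a w hw
    rw [t2] at hw
    rcases hw with hw | hw
    · exact Or.inl hw
    · obtain ⟨j, hj⟩ := Set.mem_iUnion.1 hw
      rcases (c2 j a).2.2 hj with h | h
      · exact Or.inl h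
      · exact Or.inr ⟨j, h, hj⟩
  have d1 : ∀ j, ∀ u ∈ C j, ∀ a, Disjoint (B u) (B (x a)) := by
    intro j u hu a
    rw [Set.disjoint_left, t1 j u hu]
    intro w hw hw'
    have hwC := (c1 j u hu).2.2 hw
    rcases t4 a w hw' with rfl | ⟨i, hi, hwi⟩
    · exact hout _ a hwC
    · have hij : j = i := by
        have := huniq _ _ w hwC hi
        omega
      subst hij
      have hne : u ≠ x a := fun h => hout j a (h ▸ hu)
      exact Set.disjoint_left.1 (c3 j u (Or.inl hu) (x a) (Or.inr ⟨a, rfl⟩) hne) hw hwi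
  have d2 : ∀ j, ∀ u ∈ C j, ∀ v, (∀ a, v ≠ x a) → (∀ i, v ∉ C i) → Disjoint (B u) (B v) := by
    intro j u hu v h1 h2
    rw [t1 j u hu, t3 v h1 h2, Set.disjoint_singleton_right]
    exact fun h => h2 _ ((c1 j u hu).2.2 h)
  have d3 : ∀ a, ∀ v, (∀ a, v ≠ x a) → (∀ i, v ∉ C i) → Disjoint (B (x a)) (B v) := by
    intro a v h1 h2
    rw [t3 v h1 h2, Set.disjoint_singleton_right]
    intro h
    rcases t4 a v h with h | ⟨i, hi, -⟩
    · exact h1 a h
    · exact h2 _ hi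
  refine ⟨B, fun v => ?_, fun u v huv => ?_, fun u v huv hne => ?_, fun v hv => ?_⟩
  · rcases hcase v with ⟨j, hj⟩ | ⟨a, rfl⟩ | ⟨h1, h2⟩
    · rw [t1 j v hj]
      exact ⟨(c1 j v hj).1, (c1 j v hj).2.1⟩
    · refine ⟨⟨x a, by rw [t2]; exact Or.inl rfl⟩, ?_⟩
      rw [t2]
      refine con_of_star (a := x a) (fun u hu => ?_)
      rcases hu with rfl | hu
      · exact ⟨{x a}, Set.singleton_subset_iff.2 (Or.inl rfl), con_singleton _ _, rfl, rfl⟩
      · obtain ⟨i, hi⟩ := Set.mem_iUnion.1 hu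
        exact ⟨η i (x a), fun z hz => Or.inr (Set.mem_iUnion.2 ⟨i, hz⟩), (c2 i a).2.1,
          (c2 i a).1, hi⟩
    · rw [t3 v h1 h2]
      exact ⟨Set.singleton_nonempty v, con_singleton _ _⟩
  · rcases hcase u with ⟨i, hi⟩ | ⟨a, rfl⟩ | ⟨h1, h2⟩
    · rcases hcase v with ⟨j, hj⟩ | ⟨b, rfl⟩ | ⟨h3, h4⟩
      · rw [t1 i u hi, t1 j v hj]
        by_cases hij : i = j
        · subst hij
          exact c3 i u (Or.inl hi) v (Or.inl hj) huv
        · rw [Set.disjoint_left]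
          intro z hz hz'
          have := huniq _ _ z ((c1 i u hi).2.2 hz) ((c1 j v hj).2.2 hz')
          omega
      · exact d1 i u hi b
      · exact d2 i u hi v h3 h4
    · rcases hcase v with ⟨j, hj⟩ | ⟨b, rfl⟩ | ⟨h3, h4⟩
      · exact (d1 j v hj a).symm
      · rw [Set.disjoint_left]
        intro z hz hz'
        rcases t4 a z hz with rfl | ⟨i, hi, hzi⟩
        · rcases t4 b _ hz' with h | ⟨j, hj, -⟩
          · exact huv h
          · exact hout _ _ hj
        · rcases t4 b _ hz' with h | ⟨j, hj, hzj⟩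
          · rw [h] at hi
            exact hout _ _ hi
          · have hij : i = j := by
              have := huniq _ _ z hi hj
              omega
            subst hij
            exact Set.disjoint_left.1 (c3 i (x a) (Or.inr ⟨a, rfl⟩) (x b) (Or.inr ⟨b, rfl⟩)
              huv) hzi hzj
      · exact d3 a v h3 h4
    · rcases hcase v with ⟨j, hj⟩ | ⟨b, rfl⟩ | ⟨h3, h4⟩
      · exact (d2 j v hj u h1 h2).symm
      · exact (d3 b u h1 h2).symm
      · rw [t3 u h1 h2, t3 v h3 h4, Set.disjoint_singleton]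
        exact huv
  · -- adjacency
    have hCx : ∀ j, ∀ u ∈ C j, ∀ v, r u v → u ≠ v → ∃ a ∈ B u, ∃ b ∈ B v, r a b := by
      intro j u hu v huv hne
      rcases hcl j u hu v huv with hv | ⟨a, rfl⟩
      · rw [t1 j u hu, t1 j v hv]
        exact c4 j u hu v (Or.inl hv) huv hne
      · obtain ⟨c, hc, d, hd, hcd⟩ := c4 j u hu (x a) (Or.inr ⟨a, rfl⟩) huv hne
        refine ⟨c, by rw [t1 j u hu]; exact hc, d, ?_, hcd⟩
        rw [t2]
        exact Or.inr (Set.mem_iUnion.2 ⟨j, hd⟩)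
    have hself : ∀ v, (∀ j, v ∉ C j) → v ∈ B v := by
      intro v h
      rcases hcase v with ⟨j, hj⟩ | ⟨a, rfl⟩ | ⟨h1, h2⟩
      · exact absurd hj (h j)
      · rw [t2]; exact Or.inl rfl
      · rw [t3 v h1 h2]; rfl
    by_cases hu : ∃ j, u ∈ C j
    · obtain ⟨j, hj⟩ := hu
      exact hCx j u hj v huv hne
    · by_cases hv : ∃ j, v ∈ C j
      · obtain ⟨j, hj⟩ := hv
        obtain ⟨a, ha, b, hb, hab⟩ := hCx j v hj u (hr _ _ huv) hne.symm
        exact ⟨b, hb, a, ha, hr _ _ hab⟩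
      · push Not at hu hv
        exact ⟨u, hself u hu, v, hself v hv, huv⟩
  · rcases hcase v with ⟨j, hj⟩ | ⟨a, rfl⟩ | ⟨h1, h2⟩
    · rw [t1 j v hj] at hv
      have := huniq _ _ y hy ((c1 j v hj).2.2 hv)
      omega
    · rcases t4 a y hv with rfl | ⟨j, hj, -⟩
      · exact hout 0 a hy
      · have := huniq _ _ y hy hj
        omega
    · rw [t3 v h1 h2] at hv
      rw [Set.mem_singleton_iff.1 hv] at hy
      exact h2 0 hy

/-- the finite connected subsets of `U` with outer neighbours in `X` -/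
def Comps (r : V → V → Prop) (U X : Set V) : Set (Set V) :=
  {C | C ⊆ U ∧ C.Finite ∧ C.Nonempty ∧ Con r C ∧ Disjoint C X ∧ Nb r C ⊆ X}

lemma comps_disjoint {C C' : Set V} (hC : C ∈ Comps r U X)
    (hC' : C' ∈ Comps r U X) (hne : C ≠ C') : Disjoint C C' := by
  rw [Set.disjoint_left]
  intro a ha ha'
  apply hne
  obtain ⟨-, -, -, h1, h2, h3⟩ := hC
  obtain ⟨-, -, -, h1', h2', h3'⟩ := hC'
  have e1 : cc r Xᶜ a = C := cc_eq (fun v hv => Set.disjoint_left.1 h2 hv) ha h1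
    (fun u hu v hv huv => by
      by_contra hvC
      exact hv (h3 ⟨hvC, u, hu, huv⟩))
  have e2 : cc r Xᶜ a = C' := cc_eq (fun v hv => Set.disjoint_left.1 h2' hv) ha' h1'
    (fun u hu v hv huv => by
      by_contra hvC
      exact hv (h3' ⟨hvC, u, hu, huv⟩))
  exact e1.symm.trans e2

/-- the star case -/
theorem star (hr : ∀ u v, r u v → r v u) {k : ℕ} (hD : DP r k U) (hX : X.Finite)
    (hinf : (Comps r U X).Infinite) : ∃ y ∈ U, SM r y := by
  classical
  -- same outer neighbours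
  obtain ⟨S, hS⟩ : ∃ S : Set V, {C | C ∈ Comps r U X ∧ Nb r C = S}.Infinite := by
    by_contra hcon
    push Not at hcon
    refine hinf (Set.Finite.subset (hX.finite_subsets.biUnion (t := fun S =>
      {C | C ∈ Comps r U X ∧ Nb r C = S}) (fun S _ => Set.not_infinite.1 (by
        have := hcon S
        simpa using this))) ?_)
    intro C hC
    exact Set.mem_iUnion₂.2 ⟨Nb r C, hC.2.2.2.2.2, hC, rfl⟩
  have e := hS.natEmbedding
  set C : ℕ → Set V := fun n => (e n).1 with hCdef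
  have hC : ∀ n, C n ∈ Comps r U X := fun n => (e n).2.1
  have hN : ∀ n, Nb r (C n) = S := fun n => (e n).2.2
  have hSfin : S.Finite := by
    rw [← hN 0]
    exact hX.subset (hC 0).2.2.2.2.2
  have hdis : ∀ i j, i ≠ j → Disjoint (C i) (C j) := by
    intro i j hij
    refine comps_disjoint (hC i) (hC j) (fun h => hij ?_)
    exact e.injective (Subtype.ext h)
  set s := hSfin.toFinset.card with hs
  set x : Fin s → V := fun i => (hSfin.toFinset.equivFin.symm i).1 with hx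
  have hxinj : Function.Injective x := fun i j h =>
    hSfin.toFinset.equivFin.symm.injective (Subtype.ext h)
  have hrange : Set.range x = S := by
    ext v
    constructor
    · rintro ⟨i, rfl⟩
      exact hSfin.mem_toFinset.1 (hSfin.toFinset.equivFin.symm i).2
    · intro hv
      refine ⟨hSfin.toFinset.equivFin ⟨v, hSfin.mem_toFinset.2 hv⟩, ?_⟩
      simp [hx]
  have hout : ∀ n a, x a ∉ C n := by
    intro n a
    have h1 : x a ∈ Nb r (C n) := by
      rw [hN n, ← hrange]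
      exact ⟨a, rfl⟩
    exact h1.1
  set P : ℕ → Piece.{u} s := fun n => ⟨V, r, hr, C n, (hC n).2.1, x, hxinj, hout n⟩ with hP
  have hmem : ∀ n, P n ∈ WW k s := by
    intro n
    refine ⟨⟨(hC n).2.2.1, (hC n).2.2.2.1, hD.mono (hC n).1, fun u hu v huv => ?_⟩, fun i => ?_⟩
    · by_cases hv : v ∈ C n
      · exact Or.inl hv
      · right
        change v ∈ Set.range x
        rw [hrange, ← hN n]
        exact ⟨hv, u, hu, huv⟩
    · have h1 : x i ∈ Nb r (C n) := by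
        rw [hN n, ← hrange]
        exact ⟨i, rfl⟩
      exact h1.2
  obtain ⟨g, hg⟩ := (ww_pwo k s).exists_monotone_subseq hmem
  obtain ⟨y, hy, hsm⟩ := shift hr x hxinj (fun j => C (g j)) (fun j => (hC _).2.2.1)
    (fun j => (hC _).2.1) (fun i j hij => hdis _ _ (fun h => hij (g.injective h)))
    (fun j => hout _) (fun j => (hmem (g j)).1.cl) (fun j => hg j (j + 1) (Nat.le_succ j))
  exact ⟨y, (hC _).1 hy, hsm⟩

end SelfMinorPk
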