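import Pool.Agent.SelfMinorPk.Star

/-!
# The thick case: a complete minor on infinitely many vertices
-/

namespace SelfMinorPk

open Relation SelfMinor

universe u

variable {V : Type u} {r : V → V → Prop} {C D S U X Y : Set V}

lemma strong_seq {α : Type*} (R : ℕ → (ℕ → α) → α → Prop)
    (hR : ∀ n f g a, (∀ m < n, f m = g m) → R n f a → R n g a)
    (h : ∀ n f, (∀ m < n, R m f (f m)) → ∃ a, R n f a) (a0 : α) : ∃ f : ℕ → α, ∀ n, R n f (f n) := by
  classical
  -- finite approximations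
  have hstep : ∀ n (F : {F : ℕ → α // ∀ m < n, R m F (F m)}), ∃ a, R n F.1 a := fun n F =>
    h n F.1 F.2
  choose c hc using hstep
  let g : (n : ℕ) → {F : ℕ → α // ∀ m < n, R m F (F m)} := fun n =>
    Nat.rec ⟨fun _ => a0, fun m hm => absurd hm (Nat.not_lt_zero m)⟩ (fun n F =>
      ⟨Function.update F.1 n (c n F), fun m hm => by
        rcases Nat.lt_succ_iff_lt_or_eq.1 hm with hm | rfl
        · rw [Function.update_of_ne hm.ne]
          refine hR m F.1 _ _ (fun i hi => ?_) (F.2 m hm)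
          rw [Function.update_of_ne (hi.trans hm).ne]
        · rw [Function.update_self]
          refine hR m F.1 _ _ (fun i hi => ?_) (hc m F)
          rw [Function.update_of_ne hi.ne]⟩) n
  have hg : ∀ n, (g (n + 1)).1 = Function.update (g n).1 n (c n (g n)) := fun n => rfl
  have hst : ∀ n m, m < n → (g n).1 m = (g (m + 1)).1 m := by
    intro n m hm
    induction n with
    | zero => exact absurd hm (Nat.not_lt_zero m)
    | succ n ih =>
      rcases Nat.lt_succ_iff_lt_or_eq.1 hm with hm | rfl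
      · rw [hg n, Function.update_of_ne hm.ne]
        exact ih hm
      · rfl
  refine ⟨fun n => (g (n + 1)).1 n, fun n => ?_⟩
  have h1 := (g (n + 1)).2 n (Nat.lt_succ_self n)
  exact hR n _ _ _ (fun m hm => hst (n + 1) m (hm.trans (Nat.lt_succ_self n))) h1

/-- an infinite component -/
lemma exists_inf (hr : ∀ u v, r u v → r v u)
    (hstar : ∀ X : Set V, X.Finite → (Comps r U X).Finite) (hY : Y ⊆ U) (hYi : Y.Infinite)
    (hN : (Nb r Y).Finite) : ∃ a ∈ Y, (cc r Y a).Infinite ∧ Nb r (cc r Y a) ⊆ Nb r Y := by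
  have hNb : ∀ a ∈ Y, Nb r (cc r Y a) ⊆ Nb r Y := by
    rintro a ha v ⟨hv, u, hu, huv⟩
    exact ⟨fun h => hv (cc_closed hu (cc_subset ha hu) h huv), u, cc_subset ha hu, huv⟩
  by_contra hcon
  push Not at hcon
  apply hYi
  have h1 : ∀ a ∈ Y, cc r Y a ∈ Comps r U (Nb r Y) := by
    intro a ha
    refine ⟨(cc_subset ha).trans hY, ?_, ⟨a, mem_cc _ _⟩, con_cc hr a, ?_, hNb a ha⟩
    · by_contra hinf
      exact hcon a ha hinf (hNb a ha)
    · rw [Set.disjoint_left]
      exact fun v hv hv' => hv'.1 (cc_subset ha hv)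
  refine Set.Finite.subset ((hstar _ hN).biUnion (t := fun C => C) (fun C hC => hC.2.1)) ?_
  intro a ha
  exact Set.mem_iUnion₂.2 ⟨_, h1 a ha, mem_cc _ _⟩

/-- the nested sequence -/
lemma exists_nested (hr : ∀ u v, r u v → r v u) [Countable V]
    (hstar : ∀ X : Set V, X.Finite → (Comps r U X).Finite) (hU : U.Infinite)
    (hN : (Nb r U).Finite) : ∃ C : ℕ → Set V, (∀ n, (C n).Infinite ∧ Con r (C n) ∧ C n ⊆ U ∧
      (Nb r (C n)).Finite) ∧ (∀ n, C (n + 1) ⊆ C n) ∧ ∀ v, ∃ n, v ∉ C n := by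
  obtain ⟨a, ha, hinf, hNb⟩ := exists_inf hr hstar subset_rfl hU hN
  have hne : Nonempty V := ⟨a⟩
  obtain ⟨enc, henc⟩ := exists_surjective_nat V
  let Good : Set V → Prop := fun C => C.Infinite ∧ Con r C ∧ C ⊆ U ∧ (Nb r C).Finite
  have hstep : ∀ (v : V) (C : {C : Set V // Good C}), ∃ C' : {C : Set V // Good C},
      C'.1 ⊆ C.1 ∧ v ∉ C'.1 := by
    rintro v ⟨C, h1, h2, h3, h4⟩
    have hfin : (Nb r (C \ {v})).Finite := by
      refine (h4.insert v).subset ?_
      rintro w ⟨hw, u, hu, huw⟩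
      by_cases hwv : w = v
      · exact Or.inl hwv
      · exact Or.inr ⟨fun h => hw ⟨h, hwv⟩, u, hu.1, huw⟩
    obtain ⟨b, hb, hbi, hbN⟩ := exists_inf hr hstar (Set.sdiff_subset.trans h3)
      (h1.sdiff (Set.finite_singleton v)) hfin
    exact ⟨⟨cc r (C \ {v}) b, hbi, con_cc hr b, (cc_subset hb).trans (Set.sdiff_subset.trans h3),
      hfin.subset hbN⟩, (cc_subset hb).trans Set.sdiff_subset, fun h => (cc_subset hb h).2 rfl⟩
  choose nx hnx using hstep
  let C : ℕ → {C : Set V // Good C} := fun n =>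
    Nat.rec ⟨cc r U a, hinf, con_cc hr a, cc_subset ha, hN.subset hNb⟩ (fun n C => nx (enc n) C) n
  have hC : ∀ n, C (n + 1) = nx (enc n) (C n) := fun n => rfl
  refine ⟨fun n => (C n).1, fun n => (C n).2, fun n => ?_, fun v => ?_⟩
  · dsimp only
    rw [hC n]
    exact (hnx (enc n) (C n)).1
  · obtain ⟨n, rfl⟩ := henc v
    refine ⟨n + 1, ?_⟩
    change enc n ∉ (C (n + 1)).1
    rw [hC n]
    exact (hnx (enc n) (C n)).2

/-- infinitely many vertices are adjacent to all sets of the sequence -/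
lemma dom_infinite {k : ℕ} (hD : DP r k U) {C : ℕ → Set V}
    (hC : ∀ n, (C n).Infinite ∧ Con r (C n) ∧ C n ⊆ U ∧ (Nb r (C n)).Finite)
    (hmono : ∀ m n, m ≤ n → C n ⊆ C m) (hempty : ∀ v, ∃ n, v ∉ C n) :
    {v | ∀ n, ∃ u ∈ C n, r u v}.Infinite := by
  classical
  intro hfin
  set D : Set V := {v | ∀ n, ∃ u ∈ C n, r u v} with hDdef
  -- late sets avoid a finite set
  have hlate : ∀ F : Set V, F.Finite → ∃ n, ∀ v ∈ F, v ∉ C n := by
    intro F hF
    choose f hf using hempty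
    obtain ⟨N, hN⟩ := (hF.image f).bddAbove
    exact ⟨N, fun v hv h => hf v (hmono _ _ (hN ⟨v, hv, rfl⟩) h)⟩
  -- the next separator
  have hnext : ∀ n, ∃ m, n < m ∧ ∀ v ∈ Nb r (C m), v ∉ D → v ∈ C n := by
    intro n
    have h1 : ∀ v, ∃ m, v ∉ D → ∀ u ∈ C m, ¬ r u v := by
      intro v
      by_cases hv : v ∈ D
      · exact ⟨0, fun h => absurd hv h⟩
      · have : ∃ m, ∀ u ∈ C m, ¬ r u v := by
          by_contra hcon
          push Not at hcon
          exact hv hcon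
        obtain ⟨m, hm⟩ := this
        exact ⟨m, fun _ => hm⟩
    choose f hf using h1
    obtain ⟨N, hN⟩ := ((hC n).2.2.2.image f).bddAbove
    refine ⟨max (n + 1) N, by omega, ?_⟩
    rintro v ⟨hv, u, hu, huv⟩ hvD
    have huC : u ∈ C n := hmono n _ (by omega) hu
    by_contra hvn
    have h2 : v ∈ Nb r (C n) := ⟨hvn, u, huC, huv⟩
    have h3 : f v ≤ N := hN ⟨v, h2, rfl⟩
    exact hf v hvD u (hmono (f v) _ (by omega) hu) huv
  choose nx hnx using hnext
  obtain ⟨n0, hn0⟩ := hlate D hfin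
  -- first step: leave a point of `C n0`
  obtain ⟨a, ha⟩ := (hC n0).1.nonempty
  obtain ⟨n1, hn1⟩ := hempty a
  let p : ℕ → ℕ := fun i => Nat.rec (max n0 n1) (fun _ q => nx q) i
  have hp : ∀ i, p (i + 1) = nx (p i) := fun i => rfl
  have hplt : ∀ i, p i < p (i + 1) := fun i => by rw [hp i]; exact (hnx (p i)).1
  have hpm : StrictMono p := strictMono_nat_of_lt_succ hplt
  have hp0 : p 0 = max n0 n1 := rfl
  clear_value p
  obtain ⟨b, hb⟩ := (hC (p (k + 1))).1.nonempty
  have hn0p : ∀ i, n0 ≤ p i := fun i => by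
    have := hpm.monotone (Nat.zero_le i)
    omega
  have hbC : b ∈ C n0 := hmono n0 (p (k + 1)) (hn0p (k + 1)) hb
  obtain ⟨W, hW, hWc, haW, hbW, hWf, hWn⟩ := hD (C n0) (hC n0).2.2.1 (hC n0).2.1 a ha b hbC
  have hcross : ∀ i : Fin (k + 1), ∃ w, w ∈ W ∧ w ∈ C (p i) ∧ w ∉ C (p (i + 1)) := by
    intro i
    have h1 : b ∈ C (p (i + 1)) := by
      refine hmono (p (i + 1)) (p (k + 1)) (hpm.monotone ?_) hb
      have := i.2
      omega
    have h2 : a ∉ C (p (i + 1)) := by
      intro h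
      refine hn1 (hmono n1 _ ?_ h)
      have := hpm.monotone (Nat.zero_le (i.1 + 1))
      omega
    obtain ⟨u, hu, huC, w, hw, hwC, huw⟩ := exists_cross hWc hbW h1 haW h2
    have h3 : w ∉ D := fun h => hn0 w h (hW hw)
    refine ⟨w, hw, ?_, hwC⟩
    rw [hp i] at hwC huC
    exact (hnx (p i)).2 w ⟨hwC, u, huC, huw⟩ h3
  choose w hw1 hw2 hw3 using hcross
  have hinj : Function.Injective w := by
    have key : ∀ i j : Fin (k + 1), i < j → w i ≠ w j := by
      intro i j hij h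
      refine hw3 i (hmono (p (i + 1)) (p j) (hpm.monotone ?_) (h ▸ hw2 j))
      exact hij
    intro i j h
    rcases lt_trichotomy i j with h1 | h1 | h1
    · exact absurd h (key i j h1)
    · exact h1
    · exact absurd h.symm (key j i h1)
  have h1 : (Set.range w).ncard = k + 1 := by
    rw [← Set.image_univ, Set.ncard_image_of_injective _ hinj, Set.ncard_univ,
      Nat.card_eq_fintype_card, Fintype.card_fin]
  have h2 : (Set.range w).ncard ≤ W.ncard :=
    Set.ncard_le_ncard (by rintro _ ⟨i, rfl⟩; exact hw1 i) hWf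
  omega

/-- the thick case -/
theorem thick (hr : ∀ u v, r u v → r v u) [Countable V] {k : ℕ} (hD : DP r k U)
    (hU : U.Infinite) (hN : (Nb r U).Finite)
    (hstar : ∀ X : Set V, X.Finite → (Comps r U X).Finite) : ∃ y ∈ U, SM r y := by
  classical
  obtain ⟨C, hC, hsub, hempty⟩ := exists_nested hr hstar hU hN
  have hmono : ∀ m n, m ≤ n → C n ⊆ C m := by
    intro m n hmn
    induction hmn with
    | refl => exact subset_rfl
    | step _ ih => exact (hsub _).trans ih
  have hinf := dom_infinite hD hC hmono hempty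
  set D : Set V := {v | ∀ n, ∃ u ∈ C n, r u v} with hDdef
  obtain ⟨y, hy⟩ := hU.nonempty
  have hlate : ∀ F : Set V, F.Finite → ∃ n, ∀ v ∈ F, v ∉ C n := by
    intro F hF
    choose f hf using hempty
    obtain ⟨N, hN⟩ := (hF.image f).bddAbove
    exact ⟨N, fun v hv h => hf v (hmono _ _ (hN ⟨v, hv, rfl⟩) h)⟩
  -- connectors
  have hconn : ∀ F : Set V, F.Finite → ∀ d ∈ D, ∀ d' ∈ D, ∃ E : Set V, E.Finite ∧ Con r E ∧
      Disjoint E F ∧ (∃ u ∈ E, r u d) ∧ ∃ u ∈ E, r u d' := by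
    intro F hF d hd d' hd'
    obtain ⟨n, hn⟩ := hlate F hF
    obtain ⟨u, hu, hud⟩ := hd n
    obtain ⟨u', hu', hud'⟩ := hd' n
    obtain ⟨W, hW, hWc, huW, huW', hWf, -⟩ := hD (C n) (hC n).2.2.1 (hC n).2.1 u hu u' hu'
    exact ⟨W, hWf, hWc, Set.disjoint_left.2 fun v hv hvF => hn v hvF (hW hv), ⟨u, huW, hud⟩,
      u', huW', hud'⟩
  obtain ⟨f, hf⟩ := strong_seq (α := V × Set V)
    (fun n f a => a.1 ∈ D ∧ a.1 ≠ y ∧ (∀ m < n, a.1 ≠ (f m).1 ∧ a.1 ∉ (f m).2) ∧ a.2.Finite ∧
      Con r a.2 ∧ y ∉ a.2 ∧ a.1 ∉ a.2 ∧ (∀ m < n, (f m).1 ∉ a.2 ∧ Disjoint a.2 (f m).2) ∧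
      (∀ c, (c = (Nat.unpair n).1 ∨ c = (Nat.unpair n).2) →
        ((c = n → ∃ u ∈ a.2, r u a.1) ∧ (c < n → ∃ u ∈ a.2, r u (f c).1))))
    (by
      rintro n f g a hfg ⟨h1, h2, h3, h4, h5, h6, h7, h8, h9⟩
      refine ⟨h1, h2, fun m hm => ?_, h4, h5, h6, h7, fun m hm => ?_, fun c hc =>
        ⟨(h9 c hc).1, fun hcn => ?_⟩⟩
      · rw [← hfg m hm]; exact h3 m hm
      · rw [← hfg m hm]; exact h8 m hm
      · rw [← hfg c hcn]; exact (h9 c hc).2 hcn)
    (by
      intro n f hprev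
      set Used : Set V := {y} ∪ ⋃ m ∈ Set.Iio n, ({(f m).1} ∪ (f m).2) with hUsed
      have hUf : Used.Finite := by
        refine (Set.finite_singleton y).union ((Set.finite_Iio n).biUnion fun m hm => ?_)
        exact (Set.finite_singleton _).union (hprev m hm).2.2.2.1
      have hU1 : ∀ m < n, (f m).1 ∈ Used := fun m hm =>
        Or.inr (Set.mem_iUnion₂.2 ⟨m, hm, Or.inl rfl⟩)
      have hU2 : ∀ m < n, ∀ v ∈ (f m).2, v ∈ Used := fun m hm v hv =>
        Or.inr (Set.mem_iUnion₂.2 ⟨m, hm, Or.inr hv⟩)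
      obtain ⟨d, hd, hdU⟩ := (hinf.sdiff hUf).nonempty
      have hdd : ∀ c, (if c < n then (f c).1 else d) ∈ D := by
        intro c
        split_ifs with h
        · exact (hprev c h).1
        · exact hd
      obtain ⟨E, hEf, hEc, hEd, he1, he2⟩ := hconn (insert d Used) (hUf.insert d)
        (if (Nat.unpair n).1 < n then (f (Nat.unpair n).1).1 else d) (hdd _)
        (if (Nat.unpair n).2 < n then (f (Nat.unpair n).2).1 else d) (hdd _)
      have hEn : ∀ v ∈ Used, v ∉ E := fun v hv h => Set.disjoint_left.1 hEd h (Or.inr hv)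
      refine ⟨(d, E), hd, fun h => hdU (Or.inl h), fun m hm => ⟨fun h => hdU (by
        have h' : d = (f m).1 := h
        rw [h']
        exact hU1 m hm), fun h => hdU (hU2 m hm d h)⟩, hEf, hEc, hEn y (Or.inl rfl),
        fun h => Set.disjoint_left.1 hEd h (Or.inl rfl), fun m hm => ⟨hEn _ (hU1 m hm),
        Set.disjoint_left.2 fun v hv hv' => hEn v (hU2 m hm v hv') hv⟩, ?_⟩
      rintro c (rfl | rfl)
      · constructor
        · intro h
          rw [if_neg (by omega)] at he1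
          exact he1
        · intro h
          rw [if_pos h] at he1
          exact he1
      · constructor
        · intro h
          rw [if_neg (by omega)] at he2
          exact he2
        · intro h
          rw [if_pos h] at he2
          exact he2) (y, ∅)
  -- the data
  have hne : ∀ m n, m ≠ n → (f m).1 ≠ (f n).1 := by
    intro m n hmn
    rcases Nat.lt_or_gt_of_ne hmn with h | h
    · exact fun h' => ((hf n).2.2.1 m h).1 h'.symm
    · exact ((hf m).2.2.1 n h).1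
  have hnE : ∀ m n, (f m).1 ∉ (f n).2 := by
    intro m n
    rcases Nat.lt_trichotomy m n with h | rfl | h
    · exact ((hf n).2.2.2.2.2.2.2.1 m h).1
    · exact (hf m).2.2.2.2.2.2.1
    · exact ((hf m).2.2.1 n h).2
  have hEE : ∀ m n, m ≠ n → Disjoint (f m).2 (f n).2 := by
    intro m n hmn
    rcases Nat.lt_or_gt_of_ne hmn with h | h
    · exact ((hf n).2.2.2.2.2.2.2.1 m h).2.symm
    · exact ((hf m).2.2.2.2.2.2.2.1 n h).2
  have hadj : ∀ n c, (c = (Nat.unpair n).1 ∨ c = (Nat.unpair n).2) → ∃ u ∈ (f n).2, r u (f c).1 := by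
    intro n c hc
    have hcn : c ≤ n := by
      rcases hc with rfl | rfl
      · exact Nat.unpair_left_le n
      · exact Nat.unpair_right_le n
    rcases Nat.lt_or_eq_of_le hcn with h | h
    · exact ((hf n).2.2.2.2.2.2.2.2 c hc).2 h
    · rw [h]
      exact ((hf n).2.2.2.2.2.2.2.2 c hc).1 h
  set B : ℕ → Set V := fun i => {w | w = (f i).1 ∨ ∃ n, (Nat.unpair n).1 = i ∧ w ∈ (f n).2} with hB
  have hBc : ∀ i, Con r (B i) := by
    intro i
    refine con_of_star (a := (f i).1) (fun u hu => ?_)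
    rcases hu with rfl | ⟨n, hn, hu⟩
    · exact ⟨{(f i).1}, Set.singleton_subset_iff.2 (Or.inl rfl), con_singleton _ _, rfl, rfl⟩
    · obtain ⟨w, hw, hwi⟩ := hadj n i (Or.inl hn.symm)
      refine ⟨insert (f i).1 (f n).2, ?_, con_insert hr (hf n).2.2.2.2.1 hw hwi, Or.inl rfl,
        Or.inr hu⟩
      rintro z (rfl | hz)
      · exact Or.inl rfl
      · exact Or.inr ⟨n, hn, hz⟩
  have hBd : ∀ i j, i ≠ j → Disjoint (B i) (B j) := by
    intro i j hij
    rw [Set.disjoint_left]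
    rintro w (rfl | ⟨n, hn, hw⟩) (hw' | ⟨n', hn', hw'⟩)
    · exact hne i j hij hw'
    · exact hnE i n' hw'
    · rw [hw'] at hw
      exact hnE j n hw
    · have : n ≠ n' := fun h => hij (by rw [← hn, ← hn', h])
      exact Set.disjoint_left.1 (hEE n n' this) hw hw'
  have hBa : ∀ i j, ∃ a ∈ B i, ∃ b ∈ B j, r a b := by
    intro i j
    obtain ⟨u, hu, huj⟩ := hadj (Nat.pair i j) j (Or.inr (by rw [Nat.unpair_pair]))
    exact ⟨u, Or.inr ⟨Nat.pair i j, by rw [Nat.unpair_pair], hu⟩, _, Or.inl rfl, huj⟩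
  have hBy : ∀ i, y ∉ B i := by
    rintro i (h | ⟨n, -, h⟩)
    · exact (hf i).2.1 h.symm
    · exact (hf n).2.2.2.2.2.1 h
  obtain ⟨ι, hι⟩ := exists_injective_nat V
  exact ⟨y, hy, fun v => B (ι v), fun v => ⟨⟨_, Or.inl rfl⟩, hBc _⟩,
    fun u v huv => hBd _ _ (fun h => huv (hι h)), fun u v _ _ => hBa _ _, fun v => hBy _⟩

/-- the local theorem -/
theorem main (hr : ∀ u v, r u v → r v u) [Countable V] {k : ℕ} (hD : DP r k U)
    (hU : U.Infinite) (hN : (Nb r U).Finite) : ∃ y ∈ U, SM r y := by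
  by_cases h : ∀ X : Set V, X.Finite → (Comps r U X).Finite
  · exact thick hr hD hU hN h
  · push Not at h
    obtain ⟨X, hX, hinf⟩ := h
    exact star hr hD hX hinf

end SelfMinorPk
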