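import Pool.Agent.SelfMinorPk.Piece

/-!
# Rooted pieces with short connections are well-quasi-ordered
-/

namespace SelfMinorPk

open Relation SelfMinor

universe u

/-- restricting the roots to the adjacent ones -/
def Piece.sel {m : ℕ} (P : Piece.{u} m) (J : Finset (Fin m)) : Piece.{u} J.card :=
  { P with
    x := fun t => P.x (J.orderEmbOfFin rfl t)
    inj := fun _ _ h => (J.orderEmbOfFin rfl).injective (P.inj h)
    out := fun _ => P.out _ }

lemma sel_range {m : ℕ} (P : Piece.{u} m) (J : Finset (Fin m)) {i : Fin m} (hi : i ∈ J) :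
    ∃ t, (P.sel J).x t = P.x i := by
  have : i ∈ Set.range (J.orderEmbOfFin rfl) := by
    rw [Finset.range_orderEmbOfFin]
    exact hi
  obtain ⟨t, ht⟩ := this
  exact ⟨t, congrArg P.x ht⟩

lemma sel_mem {m : ℕ} (P : Piece.{u} m) (J : Finset (Fin m)) (t : Fin J.card) :
    ∃ i ∈ J, (P.sel J).x t = P.x i :=
  ⟨J.orderEmbOfFin rfl t, Finset.orderEmbOfFin_mem J rfl t, rfl⟩

lemma le_of_sel {m : ℕ} {P Q : Piece.{u} m} {J : Finset (Fin m)}
    (hJ : ∀ u ∈ P.C, ∀ i, P.r u (P.x i) → i ∈ J) (h : Le (P.sel J) (Q.sel J)) : Le P Q := by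
  classical
  obtain ⟨η, a1, a2, a3, a4⟩ := h
  have hPC : (P.sel J).C = P.C := rfl
  set X : Set P.V := P.C ∪ Set.range (P.sel J).x with hX
  set θ : P.V → Set Q.V := fun v => if v ∈ X then η v
    else {w | ∃ i, P.x i = v ∧ w = Q.x i} with hθ
  have t1 : ∀ v ∈ X, θ v = η v := fun v hv => if_pos hv
  have t2 : ∀ i, i ∉ J → P.x i ∉ X := by
    rintro i hi (h | ⟨t, ht⟩)
    · exact P.out i h
    · obtain ⟨j, hj, hj'⟩ := sel_mem P J t
      rw [hj'] at ht
      exact hi (P.inj ht ▸ hj)
  have t3 : ∀ i, i ∉ J → θ (P.x i) = {Q.x i} := by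
    intro i hi
    have : θ (P.x i) = {w | ∃ j, P.x j = P.x i ∧ w = Q.x j} := if_neg (t2 i hi)
    rw [this]
    ext w
    constructor
    · rintro ⟨j, hj, hw⟩
      rw [P.inj hj] at hw
      exact hw
    · exact fun hw => ⟨i, rfl, hw⟩
  have t4 : ∀ i, i ∈ J → P.x i ∈ X := fun i hi => by
    obtain ⟨t, ht⟩ := sel_range P J hi
    exact Or.inr ⟨t, ht⟩
  -- images of elements of X
  have hsub : ∀ v ∈ X, ∀ i, i ∉ J → Q.x i ∉ η v := by
    rintro v (hv | ⟨t, rfl⟩) i hi h
    · exact Q.out i ((a1 v hv).2.2 h)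
    · rcases (a2 t).2.2 h with h' | h'
      · obtain ⟨j, hj, hj'⟩ := sel_mem Q J t
        rw [hj'] at h'
        exact hi (Q.inj h' ▸ hj)
      · exact Q.out i h'
  refine ⟨θ, fun v hv => ?_, fun i => ?_, ?_, ?_⟩
  · rw [t1 v (Or.inl hv)]
    exact a1 v hv
  · by_cases hi : i ∈ J
    · rw [t1 _ (t4 i hi)]
      have : i ∈ Set.range (J.orderEmbOfFin rfl) := by
        rw [Finset.range_orderEmbOfFin]
        exact hi
      obtain ⟨t, ht⟩ := this
      have h1 := a2 t
      have h2 : (P.sel J).x t = P.x i := congrArg P.x ht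
      have h3 : (Q.sel J).x t = Q.x i := congrArg Q.x ht
      rw [h2, h3] at h1
      exact h1
    · rw [t3 i hi]
      exact ⟨rfl, con_singleton _ _, Set.singleton_subset_iff.2 (Or.inl rfl)⟩
  · have hcase : ∀ u ∈ P.C ∪ Set.range P.x, u ∈ X ∨ ∃ i, i ∉ J ∧ P.x i = u := by
      rintro u (hu | ⟨i, rfl⟩)
      · exact Or.inl (Or.inl hu)
      · by_cases hi : i ∈ J
        · exact Or.inl (t4 i hi)
        · exact Or.inr ⟨i, hi, rfl⟩
    intro u hu v hv huv
    rcases hcase u hu with hu | ⟨i, hi, rfl⟩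
    · rcases hcase v hv with hv | ⟨j, hj, rfl⟩
      · rw [t1 u hu, t1 v hv]
        exact a3 u hu v hv huv
      · rw [t1 u hu, t3 j hj]
        exact Set.disjoint_singleton_right.2 (hsub u hu j hj)
    · rcases hcase v hv with hv | ⟨j, hj, rfl⟩
      · rw [t1 v hv, t3 i hi]
        exact Set.disjoint_singleton_left.2 (hsub v hv i hi)
      · rw [t3 i hi, t3 j hj, Set.disjoint_singleton]
        exact fun h => huv (congrArg P.x (Q.inj h))
  · intro u hu v hv huv hne
    have hvX : v ∈ X := by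
      rcases hv with hv | ⟨i, rfl⟩
      · exact Or.inl hv
      · exact t4 i (hJ u hu i huv)
    rw [t1 u (Or.inl hu), t1 v hvX]
    exact a4 u hu v hvX huv hne

lemma leaf_pwo (k s : ℕ) (hs : ∀ s' < s, (WW.{u} k s').PartiallyWellOrderedOn Le) (m : ℕ) :
    {P : Piece.{u} m | Basic k P ∧ (Nb P.r P.C).ncard < s}.PartiallyWellOrderedOn Le := by
  classical
  rw [Set.partiallyWellOrderedOn_iff_exists_lt]
  intro f hf
  set J : ℕ → Finset (Fin m) := fun n =>
    Finset.univ.filter (fun i => ∃ u ∈ (f n).C, (f n).r u ((f n).x i)) with hJ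
  obtain ⟨g, hg⟩ := exists_const_subseq J
  set J0 := J (g 0) with hJ0
  have hmem : ∀ n, (f (g n)).sel J0 ∈ WW k J0.card := by
    intro n
    obtain ⟨hb, -⟩ := hf (g n)
    refine ⟨⟨hb.ne, hb.con, hb.dp, fun u hu v huv => ?_⟩, fun t => ?_⟩
    · rcases hb.cl u hu v huv with h | ⟨i, rfl⟩
      · exact Or.inl h
      · right
        refine sel_range _ _ ?_
        rw [← hg n]
        exact Finset.mem_filter.2 ⟨Finset.mem_univ _, u, hu, huv⟩
    · obtain ⟨i, hi, hi'⟩ := sel_mem (f (g n)) J0 t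
      rw [← hg n] at hi
      rw [hi']
      exact (Finset.mem_filter.1 hi).2
  have hlt : J0.card < s := by
    obtain ⟨hb, hn⟩ := hf (g 0)
    refine lt_of_le_of_lt ?_ hn
    have h1 : ((f (g 0)).x '' (J0 : Set (Fin m))).ncard = J0.card := by
      rw [Set.ncard_image_of_injective _ (f (g 0)).inj, Set.ncard_coe_finset]
    rw [← h1]
    refine Set.ncard_le_ncard ?_ ?_
    · rintro _ ⟨i, hi, rfl⟩
      obtain ⟨u, hu, hux⟩ := (Finset.mem_filter.1 (Finset.mem_coe.1 hi)).2
      exact ⟨(f (g 0)).out i, u, hu, hux⟩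
    · refine (Set.finite_range (f (g 0)).x).subset ?_
      rintro v ⟨hv, u, hu, huv⟩
      exact (hb.cl u hu v huv).resolve_left hv
  obtain ⟨a, b, hab, hle⟩ := (hs _ hlt).exists_lt hmem
  refine ⟨g a, g b, g.strictMono hab, le_of_sel ?_ hle⟩
  intro u hu i hui
  rw [← hg a]
  exact Finset.mem_filter.2 ⟨Finset.mem_univ _, u, hu, hui⟩

/-- representatives of the components -/
lemma exists_reps {V : Type u} {r : V → V → Prop} (hr : ∀ u v, r u v → r v u) {C : Set V}
    (hC : C.Finite) : ∃ (t : ℕ) (e : Fin t → V), (∀ i, e i ∈ C) ∧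
      (∀ i j, i ≠ j → Disjoint (cc r C (e i)) (cc r C (e j))) ∧
      ∀ b ∈ C, ∃ i, b ∈ cc r C (e i) := by
  classical
  have key : ∀ A : Finset V, (A : Set V) ⊆ C → ∃ R : Finset V, (R : Set V) ⊆ C ∧
      (∀ a ∈ R, ∀ b ∈ R, a ≠ b → b ∉ cc r C a) ∧ ∀ b ∈ A, ∃ a ∈ R, b ∈ cc r C a := by
    intro A
    induction A using Finset.induction_on with
    | empty =>
      intro _
      refine ⟨∅, by simp, fun a ha => absurd ha (Finset.notMem_empty a),
        fun b hb => absurd hb (Finset.notMem_empty b)⟩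
    | insert b A hb ih =>
      intro hA
      rw [Finset.coe_insert] at hA
      obtain ⟨R, hR, hRR, hRA⟩ := ih (fun x hx => hA (Or.inr hx))
      have hbC : b ∈ C := hA (Or.inl rfl)
      by_cases hcov : ∃ a ∈ R, b ∈ cc r C a
      · refine ⟨R, hR, hRR, fun c hc => ?_⟩
        rcases Finset.mem_insert.1 hc with rfl | hc
        · exact hcov
        · exact hRA c hc
      · refine ⟨insert b R, ?_, ?_, ?_⟩
        · rw [Finset.coe_insert]
          rintro x (rfl | hx)
          · exact hbC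
          · exact hR hx
        · intro x hx y hy hxy h
          rcases Finset.mem_insert.1 hx with hxb | hxR
          · rcases Finset.mem_insert.1 hy with hyb | hyR
            · exact hxy (hxb.trans hyb.symm)
            · rw [hxb] at h
              refine hcov ⟨y, hyR, ?_⟩
              rw [cc_eq_of_mem hr hbC h]
              exact mem_cc _ _
          · rcases Finset.mem_insert.1 hy with hyb | hyR
            · exact hcov ⟨x, hxR, hyb ▸ h⟩
            · exact hRR x hxR y hyR hxy h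
        · intro c hc
          rcases Finset.mem_insert.1 hc with rfl | hc
          · exact ⟨c, Finset.mem_insert_self _ _, mem_cc _ _⟩
          · obtain ⟨a, ha, hca⟩ := hRA c hc
            exact ⟨a, Finset.mem_insert_of_mem ha, hca⟩
  obtain ⟨R, hR, hRR, hRA⟩ := key hC.toFinset (by rw [Set.Finite.coe_toFinset])
  refine ⟨R.card, fun i => (R.equivFin.symm i).1, fun i => hR (R.equivFin.symm i).2,
    fun i j hij => ?_, fun b hb => ?_⟩
  · rw [Set.disjoint_left]
    intro x hx hx'
    have hne : (R.equivFin.symm i).1 ≠ (R.equivFin.symm j).1 := fun h =>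
      hij (R.equivFin.symm.injective (Subtype.ext h))
    refine hRR _ (R.equivFin.symm i).2 _ (R.equivFin.symm j).2 hne ?_
    rw [← cc_eq_of_mem hr (hR (R.equivFin.symm i).2) hx,
      cc_eq_of_mem hr (hR (R.equivFin.symm j).2) hx']
    exact mem_cc _ _
  · obtain ⟨a, ha, hb⟩ := hRA b (hC.mem_toFinset.2 hb)
    refine ⟨R.equivFin ⟨a, ha⟩, ?_⟩
    have h1 : (R.equivFin.symm (R.equivFin ⟨a, ha⟩)).1 = a := by
      rw [Equiv.symm_apply_apply]
    simp only [h1]
    exact hb

/-- a piece with one deleted vertex and representatives of the remaining components -/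
structure Dec (k s h : ℕ) {m : ℕ} (P : Piece.{u} m) where
  v : P.V
  hv : v ∈ P.C
  t : ℕ
  e : Fin t → P.V
  he : ∀ i, e i ∈ P.C \ {v}
  disj : ∀ i j, i ≠ j → Disjoint (cc P.r (P.C \ {v}) (e i)) (cc P.r (P.C \ {v}) (e j))
  cov : ∀ b ∈ P.C \ {v}, ∃ i, b ∈ cc P.r (P.C \ {v}) (e i)
  el : ∀ i, El P.r (fun X => (Nb P.r X).ncard < s) h (cc P.r (P.C \ {v}) (e i))

namespace Dec

variable {k s h m : ℕ} {P Q : Piece.{u} m}

/-- the component pieces -/
def pc (D : Dec k s h P) (i : Fin D.t) : Piece.{u} (m + 1) where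
  V := P.V
  r := P.r
  symm := P.symm
  C := cc P.r (P.C \ {D.v}) (D.e i)
  fin := P.fin.subset ((cc_subset (D.he i)).trans Set.sdiff_subset)
  x := Fin.cons D.v P.x
  inj := by
    intro a b
    refine Fin.cases ?_ (fun a => ?_) a
    · refine Fin.cases (fun _ => rfl) (fun b => ?_) b
      intro h
      exact absurd D.hv (by
        have h1 : D.v = P.x b := h
        rw [h1]
        exact P.out b)
    · refine Fin.cases ?_ (fun b => ?_) b
      · intro h
        exact absurd D.hv (by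
          have h1 : P.x a = D.v := h
          rw [← h1]
          exact P.out a)
      · intro h
        have h1 : P.x a = P.x b := h
        rw [P.inj h1]
  out := by
    intro a
    refine Fin.cases ?_ (fun a => ?_) a
    · exact fun h => (cc_subset (D.he i) h).2 rfl
    · exact fun h => P.out a (cc_subset (D.he i) h).1

lemma pc_mem (D : Dec k s h P) (hP : Basic k P) (i : Fin D.t) : D.pc i ∈ GG k s h (m + 1) := by
  have hsub : cc P.r (P.C \ {D.v}) (D.e i) ⊆ P.C \ {D.v} := cc_subset (D.he i)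
  refine ⟨⟨⟨_, mem_cc _ _⟩, con_cc P.symm _, hP.dp.mono (hsub.trans Set.sdiff_subset), ?_⟩,
    D.el i⟩
  intro a ha b hab
  by_cases hb : b = D.v
  · exact Or.inr ⟨0, hb.symm⟩
  · rcases hP.cl a (hsub ha).1 b hab with h | ⟨j, hj⟩
    · exact Or.inl (cc_closed ha (hsub ha) ⟨h, hb⟩ hab)
    · exact Or.inr ⟨j.succ, hj⟩

/-- gluing the embeddings of the components -/
lemma glue (D : Dec k s h P) (D' : Dec k s h Q) (σ : Fin D.t → Fin D'.t)
    (hσ : Function.Injective σ) (hle : ∀ i, Le (D.pc i) (D'.pc (σ i)))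
    (hadj : ∀ j, P.r D.v (P.x j) → Q.r D'.v (Q.x j)) : Le P Q := by
  choose η b1 b2 b3 b4 using hle
  -- common names
  set U : Fin D.t → Set P.V := fun i => cc P.r (P.C \ {D.v}) (D.e i) with hU
  set U' : Fin D'.t → Set Q.V := fun i => cc Q.r (Q.C \ {D'.v}) (D'.e i) with hU'
  set y : Fin (m + 1) → P.V := Fin.cons D.v P.x with hy
  set y' : Fin (m + 1) → Q.V := Fin.cons D'.v Q.x with hy'
  have yinj : ∀ i : Fin D.t, Function.Injective y := fun i => (D.pc i).inj
  have hUsub : ∀ i, U i ⊆ P.C \ {D.v} := fun i => cc_subset (D.he i)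
  have hU'sub : ∀ i, U' i ⊆ Q.C \ {D'.v} := fun i => cc_subset (D'.he i)
  have yout : ∀ i a, y a ∉ U i := fun i a => (D.pc i).out a
  have yout' : ∀ i a, y' a ∉ U' i := fun i a => (D'.pc i).out a
  have yinj' : Function.Injective y := by
    intro a b
    refine Fin.cases ?_ (fun a => ?_) a
    · refine Fin.cases (fun _ => rfl) (fun b => ?_) b
      intro h
      have h1 : D.v = P.x b := h
      exact absurd D.hv (by rw [h1]; exact P.out b)
    · refine Fin.cases ?_ (fun b => ?_) b
      · intro h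
        have h1 : P.x a = D.v := h
        exact absurd D.hv (by rw [← h1]; exact P.out a)
      · intro h
        have h1 : P.x a = P.x b := h
        rw [P.inj h1]
  have y'inj : Function.Injective y' := by
    intro a b
    refine Fin.cases ?_ (fun a => ?_) a
    · refine Fin.cases (fun _ => rfl) (fun b => ?_) b
      intro h
      have h1 : D'.v = Q.x b := h
      exact absurd D'.hv (by rw [h1]; exact Q.out b)
    · refine Fin.cases ?_ (fun b => ?_) b
      · intro h
        have h1 : Q.x a = D'.v := h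
        exact absurd D'.hv (by rw [← h1]; exact Q.out a)
      · intro h
        have h1 : Q.x a = Q.x b := h
        rw [Q.inj h1]
  -- the facts on the embeddings
  have c1 : ∀ i, ∀ u ∈ U i, (η i u).Nonempty ∧ Con Q.r (η i u) ∧ η i u ⊆ U' (σ i) := b1
  have c2 : ∀ i a, y' a ∈ η i (y a) ∧ Con Q.r (η i (y a)) ∧ η i (y a) ⊆ insert (y' a) (U' (σ i)) :=
    b2
  have c3 : ∀ i, ∀ u ∈ U i ∪ Set.range y, ∀ v ∈ U i ∪ Set.range y, u ≠ v →
      Disjoint (η i u) (η i v) := b3
  have c4 : ∀ i, ∀ u ∈ U i, ∀ v ∈ U i ∪ Set.range y, P.r u v → u ≠ v →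
      ∃ a ∈ η i u, ∃ b ∈ η i v, Q.r a b := b4
  set θ : P.V → Set Q.V := fun u =>
    {w | (∃ i, u ∈ U i ∧ w ∈ η i u) ∨ ∃ a, u = y a ∧ (w = y' a ∨ ∃ i, w ∈ η i u)} with hθ
  have t1 : ∀ i, ∀ u ∈ U i, θ u = η i u := by
    intro i u hu
    ext w
    constructor
    · rintro (⟨j, hj, hw⟩ | ⟨a, rfl, -⟩)
      · have hij : i = j := by
          by_contra hne
          exact Set.disjoint_left.1 (D.disj i j hne) hu hj
        rw [hij]
        exact hw
      · exact absurd hu (yout i a)
    · exact fun hw => Or.inl ⟨i, hu, hw⟩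
  have t2 : ∀ a, θ (y a) = insert (y' a) (⋃ i, η i (y a)) := by
    intro a
    ext w
    constructor
    · rintro (⟨j, hj, -⟩ | ⟨b, hb, hw⟩)
      · exact absurd hj (yout j a)
      · rw [← yinj' hb] at hw
        rcases hw with hw | ⟨i, hw⟩
        · exact Or.inl hw
        · exact Or.inr (Set.mem_iUnion.2 ⟨i, hw⟩)
    · rintro (hw | hw)
      · exact Or.inr ⟨a, rfl, Or.inl hw⟩
      · exact Or.inr ⟨a, rfl, Or.inr (Set.mem_iUnion.1 hw)⟩
  have t3 : ∀ a, Con Q.r (θ (y a)) := by
    intro a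
    rw [t2 a]
    refine con_of_star (a := y' a) (fun u hu => ?_)
    rcases hu with rfl | hu
    · exact ⟨{y' a}, Set.singleton_subset_iff.2 (Or.inl rfl), con_singleton _ _, rfl, rfl⟩
    · obtain ⟨i, hi⟩ := Set.mem_iUnion.1 hu
      exact ⟨η i (y a), fun z hz => Or.inr (Set.mem_iUnion.2 ⟨i, hz⟩), (c2 i a).2.1,
        (c2 i a).1, hi⟩
  have t4 : ∀ a, ∀ w ∈ θ (y a), w = y' a ∨ ∃ i, w ∈ U' (σ i) ∧ w ∈ η i (y a) := by
    intro a w hw
    rw [t2 a] at hw
    rcases hw with hw | hw
    · exact Or.inl hw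
    · obtain ⟨i, hi⟩ := Set.mem_iUnion.1 hw
      rcases (c2 i a).2.2 hi with h | h
      · exact Or.inl h
      · exact Or.inr ⟨i, h, hi⟩
  have hU'd : ∀ i j, ∀ w, w ∈ U' (σ i) → w ∈ U' (σ j) → i = j := by
    intro i j w hi hj
    by_contra hne
    exact Set.disjoint_left.1 (D'.disj _ _ (fun h => hne (hσ h))) hi hj
  have hcase : ∀ u ∈ P.C ∪ Set.range P.x, (∃ i, u ∈ U i) ∨ ∃ a, y a = u := by
    rintro u (hu | ⟨j, rfl⟩)
    · by_cases huv : u = D.v
      · exact Or.inr ⟨0, huv.symm⟩
      · exact Or.inl (D.cov u ⟨hu, huv⟩)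
    · exact Or.inr ⟨j.succ, rfl⟩
  -- disjointness of a component vertex and a root
  have d1 : ∀ i, ∀ u ∈ U i, ∀ a, Disjoint (θ u) (θ (y a)) := by
    intro i u hu a
    rw [Set.disjoint_left, t1 i u hu]
    intro w hw hw'
    rcases t4 a w hw' with rfl | ⟨j, hj, hwj⟩
    · exact yout' _ _ ((c1 i u hu).2.2 hw)
    · have := hU'd i j w ((c1 i u hu).2.2 hw) hj
      subst this
      have hne : u ≠ y a := fun h => yout i a (h ▸ hu)
      exact Set.disjoint_left.1 (c3 i u (Or.inl hu) (y a) (Or.inr ⟨a, rfl⟩) hne) hw hwj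
  refine ⟨θ, fun u hu => ?_, fun j => ?_, fun u hu w hw huw => ?_, fun u hu w hw huw hne => ?_⟩
  · by_cases huv : u = D.v
    · have h0 : u = y 0 := huv
      rw [h0]
      refine ⟨⟨y' 0, ?_⟩, t3 0, ?_⟩
      · rw [t2]; exact Or.inl rfl
      · intro w hw
        rcases t4 0 w hw with h | ⟨i, hi, -⟩
        · rw [h]; exact D'.hv
        · exact (hU'sub _ hi).1
    · obtain ⟨i, hi⟩ := D.cov u ⟨hu, huv⟩
      rw [t1 i u hi]
      exact ⟨(c1 i u hi).1, (c1 i u hi).2.1, fun w hw => (hU'sub _ ((c1 i u hi).2.2 hw)).1⟩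
  · have h0 : P.x j = y j.succ := rfl
    have h1 : Q.x j = y' j.succ := rfl
    rw [h0, h1]
    refine ⟨?_, t3 _, ?_⟩
    · rw [t2]; exact Or.inl rfl
    · intro w hw
      rcases t4 _ w hw with h | ⟨i, hi, -⟩
      · exact Or.inl h
      · exact Or.inr (hU'sub _ hi).1
  · rcases hcase u hu with ⟨i, hi⟩ | ⟨a, rfl⟩
    · rcases hcase w hw with ⟨j, hj⟩ | ⟨b, rfl⟩
      · rw [t1 i u hi, t1 j w hj]
        by_cases hij : i = j
        · subst hij
          exact c3 i u (Or.inl hi) w (Or.inl hj) huw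
        · refine Set.disjoint_left.2 ?_
          intro z hz hz'
          exact hij (hU'd i j z ((c1 i u hi).2.2 hz) ((c1 j w hj).2.2 hz'))
      · exact d1 i u hi b
    · rcases hcase w hw with ⟨j, hj⟩ | ⟨b, rfl⟩
      · exact (d1 j w hj a).symm
      · have hab : a ≠ b := fun h => huw (h ▸ rfl)
        rw [Set.disjoint_left]
        intro z hz hz'
        rcases t4 a z hz with rfl | ⟨i, hi, hzi⟩
        · rcases t4 b _ hz' with h | ⟨j, hj, -⟩
          · exact hab (y'inj h)
          · exact yout' _ _ hj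
        · rcases t4 b _ hz' with h | ⟨j, hj, hzj⟩
          · rw [h] at hi
            exact yout' _ _ hi
          · have := hU'd i j z hi hj
            subst this
            exact Set.disjoint_left.1 (c3 i (y a) (Or.inr ⟨a, rfl⟩) (y b) (Or.inr ⟨b, rfl⟩)
              huw) hzi hzj
  · by_cases huv : u = D.v
    · have h0 : u = y 0 := huv
      rcases hcase w hw with ⟨i, hi⟩ | ⟨b, rfl⟩
      · obtain ⟨a, ha, b, hb, hab⟩ := c4 i w hi u (Or.inr ⟨0, h0.symm⟩) (P.symm _ _ huw) hne.symm
        refine ⟨b, ?_, a, ?_, Q.symm _ _ hab⟩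
        · rw [h0, t2]
          rw [h0] at hb
          exact Or.inr (Set.mem_iUnion.2 ⟨i, hb⟩)
        · rw [t1 i w hi]
          exact ha
      · revert hw huw hne
        refine Fin.cases ?_ (fun j => ?_) b
        · intro _ _ hne
          exact absurd h0 hne
        · intro _ huw _
          refine ⟨y' 0, ?_, y' j.succ, ?_, ?_⟩
          · rw [h0, t2]; exact Or.inl rfl
          · rw [t2]; exact Or.inl rfl
          · refine hadj j ?_
            rw [huv] at huw
            exact huw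
    · obtain ⟨i, hi⟩ := D.cov u ⟨hu, huv⟩
      have hw' : w ∈ U i ∪ Set.range y := by
        rcases hcase w hw with ⟨j, hj⟩ | ⟨b, hb⟩
        · left
          exact cc_closed hi (hUsub i hi) (hUsub j hj) huw
        · exact Or.inr ⟨b, hb⟩
      obtain ⟨a, ha, b, hb, hab⟩ := c4 i u hi w hw' huw hne
      refine ⟨a, ?_, b, ?_, hab⟩
      · rw [t1 i u hi]
        exact ha
      · rcases hw' with h1 | ⟨c, rfl⟩
        · rw [t1 i w h1]
          exact hb
        · rw [t2]
          exact Or.inr (Set.mem_iUnion.2 ⟨i, hb⟩)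

end Dec

lemma exists_sigma {α : Type*} {R : α → α → Prop} {t t' : ℕ} {p : Fin t → α} {q : Fin t' → α}
    (h : List.SublistForall₂ R (List.ofFn p) (List.ofFn q)) :
    ∃ σ : Fin t → Fin t', Function.Injective σ ∧ ∀ i, R (p i) (q (σ i)) := by
  rw [List.sublistForall₂_iff] at h
  obtain ⟨l, hl1, hl2⟩ := h
  obtain ⟨hlen, hget⟩ := List.forall₂_iff_get.1 hl1
  obtain ⟨f, hf⟩ := List.sublist_iff_exists_fin_orderEmbedding_get_eq.1 hl2
  rw [List.length_ofFn] at hlen
  have hlen' : (List.ofFn q).length = t' := List.length_ofFn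
  refine ⟨fun i => Fin.cast hlen' (f (Fin.cast hlen i)), ?_, fun i => ?_⟩
  · intro i j hij
    have h1 := f.injective (Fin.cast_injective hlen' hij)
    exact Fin.cast_injective hlen h1
  · have h1 := hget i (by rw [List.length_ofFn]; exact i.2) (by rw [← hlen]; exact i.2)
    have h2 := hf (Fin.cast hlen i)
    rw [List.get_eq_getElem, List.get_eq_getElem, List.getElem_ofFn] at h1
    rw [List.get_eq_getElem, List.get_eq_getElem, List.getElem_ofFn] at h2
    have h3 : l[(i : ℕ)]'(by rw [← hlen]; exact i.2) =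
        q (Fin.cast hlen' (f (Fin.cast hlen i))) := h2
    rw [h3] at h1
    exact h1

/-- pieces of elimination height `h` -/
theorem gg_pwo (k s : ℕ) (hs : ∀ s' < s, (WW.{u} k s').PartiallyWellOrderedOn Le) :
    ∀ h m, (GG.{u} k s h m).PartiallyWellOrderedOn Le := by
  classical
  intro h
  induction h with
  | zero =>
    intro m
    exact (leaf_pwo k s hs m).mono fun P hP => hP
  | succ h ih =>
    intro m
    have hstep : {P : Piece.{u} m | Basic k P ∧ Nonempty (Dec k s h P)}.PartiallyWellOrderedOn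
        Le := by
      rw [Set.partiallyWellOrderedOn_iff_exists_lt]
      intro f hf
      choose hb hd using hf
      have D : ∀ n, Dec k s h (f n) := fun n => (hd n).some
      set A : ℕ → Finset (Fin m) := fun n =>
        Finset.univ.filter (fun j => (f n).r (D n).v ((f n).x j)) with hA
      obtain ⟨g, hg⟩ := exists_const_subseq A
      have hh := Set.PartiallyWellOrderedOn.partiallyWellOrderedOn_sublistForall₂ Le (ih (m + 1))
      obtain ⟨a, b, hab, hle⟩ := hh.exists_lt
        (f := fun n => List.ofFn (fun i => (D (g n)).pc i)) (fun n => by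
          intro P hP
          obtain ⟨i, rfl⟩ := (List.mem_ofFn' _ _).1 hP
          exact (D (g n)).pc_mem (hb (g n)) i)
      refine ⟨g a, g b, g.strictMono hab, ?_⟩
      obtain ⟨σ, hσ, hle⟩ := exists_sigma hle
      refine Dec.glue (D (g a)) (D (g b)) σ hσ hle (fun j hj => ?_)
      have h1 : j ∈ A (g b) := by
        rw [hg b, ← hg a]
        exact Finset.mem_filter.2 ⟨Finset.mem_univ _, hj⟩
      exact (Finset.mem_filter.1 h1).2
    refine ((leaf_pwo k s hs m).union hstep).mono ?_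
    rintro P ⟨hP, hl | ⟨v, hv, hel⟩⟩
    · exact Or.inl ⟨hP, hl⟩
    · right
      obtain ⟨t, e, he, hdis, hcov⟩ := exists_reps (r := P.r) P.symm (P.fin.sdiff (t := {v}))
      exact ⟨hP, ⟨⟨v, hv, t, e, he, hdis, hcov, fun i => hel _ (he i)⟩⟩⟩

/-- rooted pieces with short connections are well-quasi-ordered -/
theorem ww_pwo (k : ℕ) : ∀ s, (WW.{u} k s).PartiallyWellOrderedOn Le := by
  intro s
  induction s using Nat.strong_induction_on with
  | _ s ih =>
    rw [Set.partiallyWellOrderedOn_iff_exists_lt]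
    intro f hf
    set T := (f 0).C.ncard with hT
    by_cases hU : ∃ n, 0 < n ∧ Univ (f n).r T (Set.range (f n).x) (f n).C
    · obtain ⟨n, hn, hU⟩ := hU
      exact ⟨0, n, hn, le_of_univ hT.ge hU⟩
    · push Not at hU
      have h1 : ∀ n, f (n + 1) ∈ GG k s (hh k (3 * s + T) 0) s := by
        intro n
        obtain ⟨hb, hr⟩ := hf (n + 1)
        refine ⟨hb, ?_⟩
        refine decomp k T s _ (f (n + 1)).r (f (n + 1)).symm (Set.range (f (n + 1)).x)
          (f (n + 1)).C (Set.finite_range _) ?_ (f (n + 1)).fin le_rfl ?_ hb.ne hb.con hb.cl ?_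
          hb.dp (hU _ (Nat.succ_pos n))
        · rw [← Set.image_univ, Set.ncard_image_of_injective _ (f (n + 1)).inj, Set.ncard_univ,
            Nat.card_eq_fintype_card, Fintype.card_fin]
        · rw [Set.disjoint_left]
          rintro _ ⟨i, rfl⟩
          exact (f (n + 1)).out i
        · rintro _ ⟨i, rfl⟩
          exact hr i
      obtain ⟨a, b, hab, hle⟩ := (gg_pwo k s ih (hh k (3 * s + T) 0) s).exists_lt h1
      exact ⟨a + 1, b + 1, by omega, hle⟩

end SelfMinorPk
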